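import Pool.Agent.Lib.HT.Centre
import Pool.Agent.Lib.HT.Sph

set_option autoImplicit false
set_option linter.unusedSectionVars false

/-! Ingredients of the termination property: the parabolic subcategory `D_R`, the absence of edges
at level zero, the step along the longest element, sums of simples. -/

namespace Pool.Agent.HT

open Pool.Agent.Lib.MP_6d85b4_al

universe u

namespace Heart

variable {K : Type} [AddCommGroup K] {D : TD.{u} K} {ι : Type}

/-- Objects built from shifts of the simples indexed by `T`. -/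
def DR (H : Heart D ι) (T : Set ι) (Y : D.Obj) : Prop := H.Lv (fun i _ => i ∈ T) Y

lemma DR.simple (H : Heart D ι) {T : Set ι} {i : ι} (hi : i ∈ T) (n : ℤ) :
    H.DR T (D.sh n (H.S i)) := Lv.simple hi

lemma DR.sh {H : Heart D ι} {T : Set ι} {Y : D.Obj} (h : H.DR T Y) (m : ℤ) :
    H.DR T (D.sh m Y) := Lv.sh m (fun _ _ h => h) h

lemma IsUp.DR_iff {H H' : Heart D ι} {R : Finset ι} (h : H.IsUp R H') {T : Set ι}
    (hR : ∀ i ∈ R, i ∈ T) (Y : D.Obj) : H'.DR T Y ↔ H.DR T Y := by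
  constructor
  · intro hY
    refine Lv.ind (R := fun Y => H.DR T Y) Lv.zero ?_
      (fun A Y B hE hA hB => Lv.ext hA hB hE) hY
    intro i n hn
    by_cases hi : i ∈ R
    · rw [h.mem i hi, D.sh_s]; exact Lv.simple hn
    · obtain ⟨A, hA, hE, -⟩ := h.not_mem i hi
      exact Lv.ext (hA.sh n (fun j _ h => hR j h.1)) (Lv.simple hn) ((D.ext_sh n).2 hE)
  · intro hY
    have key : ∀ i ∈ R, ∀ n, H'.DR T (D.sh n (H.S i)) := fun i hi n => by
      have := DR.simple H' (hR i hi) (n - 1)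
      rwa [h.mem i hi, D.sh_s, sub_add_cancel] at this
    refine Lv.ind (R := fun Y => H'.DR T Y) Lv.zero ?_
      (fun A Y B hE hA hB => Lv.ext hA hB hE) hY
    intro i n hn
    by_cases hi : i ∈ R
    · exact key i hi n
    · obtain ⟨A, hA, hE, -⟩ := h.not_mem i hi
      have hA' : H'.DR T A :=
        Lv.ind (R := fun Y => H'.DR T Y) Lv.zero (fun j m hj => key j hj.1 m)
          (fun A Y B hE hA hB => Lv.ext hA hB hE) hA
      have hS : H'.DR T (H'.S i) := by simpa using DR.simple H' hn 0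
      exact DR.sh (Lv.ext hS (hA'.sh 1) (D.rot1 hE)) n

/-- No tilt inside `D_T` keeps all the `T`-simples of a fixed heart at level zero. -/
theorem noedge {H₀ H H' : Heart D ι} {R : Finset ι} (h : H.IsUp R H') {T : Set ι} {r : ι}
    (hr : r ∈ R) (hT : r ∈ T) (hD : ∀ Y, H.DR T Y → H₀.DR T Y)
    (hV : ∀ i ∈ T, H.V 0 (H₀.S i)) (hU : ∀ i ∈ T, H'.U 0 (H₀.S i)) : False := by
  have h1 : H₀.DR T (H'.S r) := by
    rw [h.mem r hr, ← D.sh_one]; exact hD _ (DR.simple H hT 1)
  have h2 : H'.V 0 (H'.S r) := (M_iff.1 (M.simple H' r)).2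
  have h3 : H.U 1 (H'.S r) := by
    rw [h.mem r hr, ← D.sh_one]; exact Lv.simple (le_refl _)
  have h4 := Lv.of_perp_left 1 h1 (fun i n hi hn =>
    hom_U_V (show (0 : ℤ) < 0 + n by omega) ((U_sh n).2 (hU i hi)) h2)
  have h5 : D.hom (H'.S r) (H'.S r) = 0 := Lv.hom_right (fun i n hi =>
    hom_U_V (show 0 + n < 1 by have := hi.2; omega) h3 ((V_sh n).2 (hV i hi.1))) h4
  have := H'.one r
  omega

/-- `Q` is the direct sum of the simples indexed by `T`. -/
structure IsSum (H : Heart D ι) (T : Finset ι) (Q : D.Obj) : Prop where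
  lv : H.Lv (fun i n => i ∈ T ∧ n = 0) Q
  right : ∀ W, D.hom W Q = ∑ i ∈ T, D.hom W (H.S i)
  left : ∀ W, D.hom Q W = ∑ i ∈ T, D.hom (H.S i) W

lemma exists_sum (H : Heart D ι) (T : Finset ι) : ∃ Q, H.IsSum T Q := by
  classical
  induction T using Finset.induction_on with
  | empty => exact ⟨D.zero, Lv.zero, by simp [D.hom_zero], by simp [D.zero_hom]⟩
  | insert y T hy ih =>
    obtain ⟨Q, hQ⟩ := ih
    obtain ⟨Y, h1, -, h3⟩ := D.sum (H.S y) Q
    refine ⟨Y, Lv.ext ?_ (hQ.lv.mono fun i n h => ⟨Finset.mem_insert_of_mem h.1, h.2⟩) h1,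
      fun W => ?_, fun W => ?_⟩
    · simpa using Lv.simple (H := H) (P := fun i n => i ∈ insert y T ∧ n = 0) (i := y) (n := 0)
        ⟨Finset.mem_insert_self _ _, rfl⟩
    · rw [h3, Finset.sum_insert hy, hQ.right]
    · rw [D.add_left h3, Finset.sum_insert hy, hQ.left]

namespace IsSum

variable {H : Heart D ι} {T : Finset ι} {Q : D.Obj}

lemma mem (h : H.IsSum T Q) : H.M Q := h.lv.mono (fun _ _ h => h.2)

lemma DR (h : H.IsSum T Q) : H.DR T Q := h.lv.mono (fun _ _ h => h.1)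

lemma right_iff (h : H.IsSum T Q) (W : D.Obj) :
    D.hom W Q = 0 ↔ ∀ i ∈ T, D.hom W (H.S i) = 0 := by
  rw [h.right, Finset.sum_eq_zero_iff]

lemma left_iff (h : H.IsSum T Q) (W : D.Obj) :
    D.hom Q W = 0 ↔ ∀ i ∈ T, D.hom (H.S i) W = 0 := by
  rw [h.left, Finset.sum_eq_zero_iff]

lemma V_iff (h : H.IsSum T Q) (H' : Heart D ι) (a : ℤ) :
    H'.V a Q ↔ ∀ i ∈ T, H'.V a (H.S i) := by
  simp only [Heart.V_iff, h.right_iff]
  exact ⟨fun h i hi j n hn => h j n hn i hi, fun h j n hn i hi => h i hi j n hn⟩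

lemma U_iff (h : H.IsSum T Q) (H' : Heart D ι) (a : ℤ) :
    H'.U a Q ↔ ∀ i ∈ T, H'.U a (H.S i) := by
  simp only [Heart.U_iff, h.left_iff]
  exact ⟨fun h i hi j n hn => h j n hn i hi, fun h j n hn i hi => h i hi j n hn⟩

/-- (P1) for the shifts of a sum of simples. -/
lemma hom_neg (h : H.IsSum T Q) (b : ℤ) {n : ℤ} (hn : n < 0) :
    D.hom (D.sh b Q) (D.sh n (D.sh b Q)) = 0 := by
  rw [D.sh_sh, D.hom_sh_sh, show n + b - b = n by ring]
  exact h.mem.hom_neg h.mem hn

end IsSum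

end Heart

variable {S : Type} [Fintype S] [DecidableEq S] {M : CoxeterMatrix S}

/-- The indices of the simples over a set of vertices. -/
def blks (R : Finset S) : Finset (S × Irr) := Finset.univ.filter (fun x => x.1 ∈ R)

lemma mem_blks {R : Finset S} {x : S × Irr} : x ∈ blks R ↔ x.1 ∈ R := by simp [blks]

lemma blks_univ : blks (Finset.univ : Finset S) = Finset.univ := by
  ext x; simp [mem_blks]

namespace Model

variable {Md : Model (fun s t => M s t)}

/-- (P2) for the shifts of the sum of the simples over `R`. -/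
lemma Good.sum_Phi {H : Heart Md.D (S × Irr)} (h : Md.Good H) {R : Finset S} {Q : Md.D.Obj}
    (hQ : H.IsSum (blks R) Q) (b : ℤ) (e : Bool) {Z : Md.D.Obj}
    (hZ : Md.D.hom Z (Md.D.sh b Q) = 0) : Md.D.hom Z (Md.Phi e (Md.D.sh b Q)) = 0 := by
  have h1 : H.Lv (fun x n => x.1 ∈ R ∧ n = b) (Md.D.sh b Q) :=
    hQ.lv.sh b (fun x n hx => ⟨mem_blks.1 hx.1, by rw [hx.2, add_zero]⟩)
  refine Heart.Lv.hom_right ?_ (h.Lv e (P := fun s n => s ∈ R ∧ n = b) h1)
  rintro x n ⟨hx, rfl⟩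
  have h2 : Md.D.hom (Md.D.sh (-n) Z) Q = 0 := by
    rw [Md.D.hom_sh_left, neg_neg]; exact hZ
  have h3 := (hQ.right_iff _).1 h2 x (mem_blks.2 hx)
  rwa [Md.D.hom_sh_left, neg_neg] at h3

lemma DR_gen (hM : Small M) (H : Md.GH) {R : Finset S} {s : S} (hs : s ∈ R) (Y : Md.D.Obj) :
    (act hM H (gen M s)).1.DR (blks R) Y ↔ H.1.DR (blks R) Y :=
  (isUp_act hM H s).DR_iff (fun x hx => by
    rw [Finset.mem_coe, mem_blks, mem_blk.1 hx]; exact hs) Y

/-- `D_R` is constant along the parabolic subgroup of `R`. -/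
lemma DR_act (hM : Small M) {R : Finset S} {a : Art M}
    (ha : a ∈ Subgroup.closure (gen M '' (R : Set S))) (H : Md.GH) (Y : Md.D.Obj) :
    (act hM H a).1.DR (blks R) Y ↔ H.1.DR (blks R) Y := by
  induction ha using Subgroup.closure_induction generalizing H with
  | mem x hx =>
    obtain ⟨s, hs, rfl⟩ := hx
    exact DR_gen hM H hs Y
  | one => rw [act_one]
  | mul x y _ _ ihx ihy => rw [act_mul, ihy, ihx]
  | inv x _ ih =>
    have := ih (act hM H x⁻¹)
    rw [← act_mul, inv_mul_cancel, act_one] at this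
    exact this.symm

/-- In a unit interval a simple of the lower heart with negative class is torsion free. -/
lemma V_of_neg (hM : Small M) {H H' : Md.GH} (h : H.1.Unit H'.1) {w : M.Group}
    (hw : ∀ x, H'.L x = H.L (krho hM w x)) {x : S × Irr}
    (hp : M.toCoxeterSystem.IsLeftDescent w x.1) : H'.1.M (Md.D.sh 1 (H.1.S x)) := by
  obtain ⟨A, B, hA, hA', hB, hB', hE⟩ := h.dec' (Heart.M.simple H.1 x)
  rcases hA.sub_simple hB hE with h0 | h0
  · subst h0
    rw [Md.D.eq_of_ext_zero _ _ hE]; exact hB'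
  · exfalso
    subst h0
    rw [Md.D.eq_of_ext_zero_right hE] at hA'
    have h2 := H'.c_M hA'
    have h3 : H'.L.symm (H.1.b x) = krho hM w⁻¹ (Pi.single x 1) := by
      rw [LinearEquiv.symm_apply_eq, hw, ← Module.End.mul_apply, ← map_mul, mul_inv_cancel,
        map_one, Module.End.one_apply, GH.L_single]
    rw [H.1.cl_S, GH.c, h3, ev_krho, ev_single, map_smul] at h2
    have h4 : Pos (-rho M w⁻¹ (al x.1)) :=
      descent_iff.1 ((M.toCoxeterSystem.isRightDescent_inv_iff).2 hp)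
    apply root_ne_zero w⁻¹ x.1
    ext s
    have h5 := h2 s
    have h6 := h4 s
    have h7 := fp_pos x.2
    simp only [Pi.neg_apply, Pi.smul_apply, smul_eq_mul, Pi.zero_apply] at h5 h6 ⊢
    nlinarith

/-- The step along an element all of whose `R` are left descents lowers the level on `D_R`. -/
lemma V_step (hM : Small M) {H H' : Md.GH} (h : H.1.Unit H'.1) {w : M.Group}
    (hw : ∀ x, H'.L x = H.L (krho hM w x)) {R : Finset S}
    (hR : ∀ s ∈ R, M.toCoxeterSystem.IsLeftDescent w s) {N : ℤ} {Y : Md.D.Obj}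
    (hD : H.1.DR (blks R) Y) (hV : H.1.V N Y) : H'.1.V (N - 1) Y := by
  refine Heart.Lv.ind (R := fun Y => H'.1.V (N - 1) Y) Heart.Lv.zero ?_
    (fun A Y B hE hA hB => Heart.Lv.ext hA hB hE) (Heart.Lv.inter_V hD hV)
  rintro x n ⟨hx, hn⟩
  have h1 := (Heart.M_iff.1 (V_of_neg hM h hw (hR _ (mem_blks.1 hx)))).2
  have h2 := (Heart.V_sh (n - 1)).2 h1
  rw [Md.D.sh_sh, sub_add_cancel] at h2
  exact h2.mono (by omega)

/-- No edge: the sum of the `R`-simples of `H₀` is not in two consecutive hearts of `D_R`. -/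
theorem noedge (hM : Small M) {H₀ H : Md.GH} {R : Finset S} {Q : Md.D.Obj}
    (hQ : H₀.1.IsSum (blks R) Q) (hD : ∀ Y, H.1.DR (blks R) Y → H₀.1.DR (blks R) Y) {s : S}
    (hs : s ∈ R) (hV : H.1.V 0 Q) (hU : (act hM H (gen M s)).1.U 0 Q) : False :=
  Heart.noedge (isUp_act hM H s) (T := blks R) (r := (s, (0, 0))) (mem_blk.2 rfl)
    (mem_blks.2 hs) hD ((hQ.V_iff _ _).1 hV) ((hQ.U_iff _ _).1 hU)

end Model

end Pool.Agent.HT
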