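import Pool.Agent.Lib.HT.CoreA
import Pool.Agent.Lib.MP_6d85b4_al.Act

set_option autoImplicit false
set_option linter.unusedSectionVars false

/-! The theorem of Matsumoto and the positive lift from the Coxeter group to the Artin group. -/

namespace Pool.Agent.HT

open Pool.Agent.Lib.MP_6d85b4_al CoxeterSystem

variable {S : Type} [Fintype S] [DecidableEq S] {M : CoxeterMatrix S}

theorem descent_of_neg {w : M.Group} {s : S} (h : Pos (-rho M w (al s))) :
    M.toCoxeterSystem.IsRightDescent w s := by
  by_contra c
  have p := pos_of_not_descent M w s c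
  have e : rho M w (al s) = 0 := funext fun i => le_antisymm (by simpa using h i) (p i)
  have n := root_norm M w s
  rw [e] at n
  simp [bf] at n

/-- Two left descents: alternating words are prefixes. -/
theorem alt_prefix {w : M.Group} (k : ℕ) {i j : S} (hij : i ≠ j) (hk : M i j = 0 ∨ k ≤ M i j)
    (hi : M.toCoxeterSystem.IsLeftDescent w i) (hj : M.toCoxeterSystem.IsLeftDescent w j) :
    M.toCoxeterSystem.length ((M.toCoxeterSystem.wordProd (alternatingWord i j k))⁻¹ * w) + k =
      M.toCoxeterSystem.length w := by
  induction k generalizing i j with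
  | zero => simp [alternatingWord]
  | succ k ih =>
    have hk' : M j i = 0 ∨ k + 1 ≤ M j i := by rwa [M.symmetric]
    have h1 := ih hij.symm (by omega) hj hi
    rw [alternatingWord_succ, wordProd_concat, mul_inv_rev, inv_simple, mul_assoc]
    have hd : M.toCoxeterSystem.IsLeftDescent
        ((M.toCoxeterSystem.wordProd (alternatingWord j i k))⁻¹ * w) j := by
      rw [← isRightDescent_inv_iff, mul_inv_rev, inv_inv]
      refine descent_of_neg ?_
      have c1 : 0 ≤ sq (cc M j i) 0 1 k := ch_nonneg (M.off_diagonal j i hij.symm) (by omega)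
      have c2 : 0 ≤ sq (cc M j i) 0 1 (k + 1) := ch_nonneg (M.off_diagonal j i hij.symm) hk'
      have e := wE_alt M j i 0 1 k
      rw [zero_smul, zero_add, one_smul] at e
      have ni := Core.neg_of_descent (M.toCoxeterSystem.isRightDescent_inv_iff.2 hi)
      have nj := Core.neg_of_descent (M.toCoxeterSystem.isRightDescent_inv_iff.2 hj)
      rw [rho_mul, rho_word, e, map_add, map_smul, map_smul]
      intro b
      have a1 := ni b
      have a2 := nj b
      simp only [Pi.neg_apply, Pi.add_apply, Pi.smul_apply, smul_eq_mul] at a1 a2 ⊢
      split_ifs <;> nlinarith [mul_nonneg c1 a1, mul_nonneg c1 a2, mul_nonneg c2 a1,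
        mul_nonneg c2 a2]
    have := M.toCoxeterSystem.isLeftDescent_iff.1 hd
    omega

theorem label_ne_zero {w : M.Group} {i j : S} (hij : i ≠ j)
    (hi : M.toCoxeterSystem.IsLeftDescent w i) (hj : M.toCoxeterSystem.IsLeftDescent w j) :
    M i j ≠ 0 := fun h => by
  have := alt_prefix (M.toCoxeterSystem.length w + 1) hij (Or.inl h) hi hj
  omega

theorem leftDescent_of_reduced {i : S} {a : List S} (h : M.toCoxeterSystem.IsReduced (i :: a)) :
    M.toCoxeterSystem.IsLeftDescent (M.toCoxeterSystem.wordProd (i :: a)) i := by
  have h1 : M.toCoxeterSystem.IsReduced a := by simpa using h.drop 1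
  rw [isLeftDescent_iff, h.eq, wordProd_cons, simple_mul_simple_cancel_left, h1.eq]
  rfl

/-- The theorem of Matsumoto. -/
theorem matsumoto {G : Type} [Monoid G] (g : S → G)
    (hg : ∀ i j, M i j ≠ 0 → ((alternatingWord i j (M i j)).map g).prod =
      ((alternatingWord j i (M i j)).map g).prod) {l l' : List S}
    (hl : M.toCoxeterSystem.IsReduced l) (hl' : M.toCoxeterSystem.IsReduced l')
    (h : M.toCoxeterSystem.wordProd l = M.toCoxeterSystem.wordProd l') :
    (l.map g).prod = (l'.map g).prod := by
  set cs := M.toCoxeterSystem with hcs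
  induction hn : l.length generalizing l l' with
  | zero =>
    have e : l'.length = 0 := by rw [← hl'.eq, ← h, hl.eq, hn]
    rw [List.length_eq_zero_iff.1 hn, List.length_eq_zero_iff.1 e]
  | succ n ih =>
    have e : l'.length = n + 1 := by rw [← hl'.eq, ← h, hl.eq, hn]
    obtain ⟨i, a, rfl⟩ := List.exists_cons_of_length_eq_add_one hn
    obtain ⟨j, b, rfl⟩ := List.exists_cons_of_length_eq_add_one e
    have key : ∀ (i : S) (a a' : List S), cs.IsReduced (i :: a) → a.length = n → a'.length = n →
        cs.wordProd (i :: a) = cs.wordProd (i :: a') →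
        ((i :: a).map g).prod = ((i :: a').map g).prod := by
      intro i a a' h1 h2 h3 h4
      have r1 : cs.IsReduced a := by simpa using h1.drop 1
      rw [wordProd_cons, wordProd_cons, mul_right_inj] at h4
      have r2 : cs.IsReduced a' := by
        unfold CoxeterSystem.IsReduced
        rw [← h4, r1.eq, h2, h3]
      rw [List.map_cons, List.map_cons, List.prod_cons, List.prod_cons, ih r1 r2 h4 h2]
    have ha : a.length = n := by simpa using hn
    have hb : b.length = n := by simpa using e
    by_cases hij : i = j
    · subst hij
      exact key i a b hl ha hb h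
    have di := leftDescent_of_reduced hl
    have dj := leftDescent_of_reduced hl'
    rw [← hcs, ← h] at dj
    have h0 := label_ne_zero hij di dj
    have hp := alt_prefix (M i j) hij (Or.inr le_rfl) di dj
    rw [← hcs, hl.eq] at hp
    obtain ⟨c, hc, ec⟩ :=
      cs.exists_isReduced ((cs.wordProd (alternatingWord i j (M i j)))⁻¹ * cs.wordProd (i :: a))
    rw [ec, hc.eq] at hp
    have e1 : cs.wordProd (alternatingWord i j (M i j) ++ c) = cs.wordProd (i :: a) := by
      rw [wordProd_append, ← ec, mul_inv_cancel_left]
    have e2 : cs.wordProd (alternatingWord j i (M i j) ++ c) = cs.wordProd (i :: a) := by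
      have h1 := cs.wordProd_braidWord_eq i j
      unfold braidWord at h1
      rw [M.symmetric j i] at h1
      rw [← e1, wordProd_append, wordProd_append, h1]
    have e3 : ((alternatingWord i j (M i j) ++ c).map g).prod =
        ((alternatingWord j i (M i j) ++ c).map g).prod := by
      rw [List.map_append, List.map_append, List.prod_append, List.prod_append, hg i j h0]
    obtain ⟨m, hm⟩ := Nat.exists_eq_succ_of_ne_zero h0
    rw [hm, Nat.succ_eq_add_one] at e1 e2 e3 hp
    rw [alternatingWord_succ', List.cons_append] at e1 e2
    rw [alternatingWord_succ', alternatingWord_succ', List.cons_append, List.cons_append] at e3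
    have l1 : ∀ x y : S, (alternatingWord x y m ++ c).length = n := fun x y => by
      rw [List.length_append, length_alternatingWord]
      simp only [List.length_cons] at hp
      omega
    by_cases hE : Even m
    · simp only [if_pos hE] at e1 e2 e3
      rw [key i a _ hl ha (l1 _ _) e2.symm, key j b _ hl' hb (l1 _ _) (h.symm.trans e1.symm), e3]
    · simp only [if_neg hE] at e1 e2 e3
      rw [key i a _ hl ha (l1 _ _) e1.symm, key j b _ hl' hb (l1 _ _) (h.symm.trans e2.symm), e3]

variable (M) in
/-- The positive lift of an element of the Coxeter group along any reduced word. -/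
noncomputable def tau (w : M.Group) : Art M :=
  ((M.toCoxeterSystem.exists_isReduced w).choose.map (gen M)).prod

theorem tau_word {l : List S} (hl : M.toCoxeterSystem.IsReduced l) :
    tau M (M.toCoxeterSystem.wordProd l) = (l.map (gen M)).prod :=
  matsumoto (gen M) (fun _ _ h => braid M h)
    (M.toCoxeterSystem.exists_isReduced _).choose_spec.1 hl
    (M.toCoxeterSystem.exists_isReduced _).choose_spec.2.symm

@[simp] theorem tau_one : tau M 1 = 1 := by
  simpa using tau_word (M := M) (l := []) (by simp [CoxeterSystem.IsReduced])

@[simp] theorem tau_simple (s : S) : tau M (M.toCoxeterSystem.simple s) = gen M s := by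
  have h := tau_word (M := M) (l := [s]) (by
    unfold CoxeterSystem.IsReduced
    rw [wordProd_singleton, length_simple]; rfl)
  rwa [wordProd_singleton, List.map_singleton, List.prod_singleton] at h

theorem tau_mul {u v : M.Group} (h : M.toCoxeterSystem.length (u * v) =
    M.toCoxeterSystem.length u + M.toCoxeterSystem.length v) :
    tau M (u * v) = tau M u * tau M v := by
  obtain ⟨a, ha, rfl⟩ := M.toCoxeterSystem.exists_isReduced u
  obtain ⟨b, hb, rfl⟩ := M.toCoxeterSystem.exists_isReduced v
  rw [← wordProd_append] at h ⊢
  have hab : M.toCoxeterSystem.IsReduced (a ++ b) := by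
    unfold CoxeterSystem.IsReduced
    rw [h, ha.eq, hb.eq, List.length_append]
  rw [tau_word hab, tau_word ha, tau_word hb, List.map_append, List.prod_append]

theorem tau_mul_simple {w : M.Group} {s : S} (h : ¬ M.toCoxeterSystem.IsRightDescent w s) :
    tau M (w * M.toCoxeterSystem.simple s) = tau M w * gen M s := by
  rw [tau_mul (by rw [M.toCoxeterSystem.not_isRightDescent_iff.1 h, length_simple]), tau_simple]

theorem tau_simple_mul {w : M.Group} {s : S} (h : ¬ M.toCoxeterSystem.IsLeftDescent w s) :
    tau M (M.toCoxeterSystem.simple s * w) = gen M s * tau M w := by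
  rw [tau_mul (by rw [M.toCoxeterSystem.not_isLeftDescent_iff.1 h, length_simple, add_comm]),
    tau_simple]

theorem tau_rightDescent {w : M.Group} {s : S} (h : M.toCoxeterSystem.IsRightDescent w s) :
    tau M w = tau M (w * M.toCoxeterSystem.simple s) * gen M s := by
  rw [← tau_mul_simple (M.toCoxeterSystem.isRightDescent_iff_not_isRightDescent_mul.1 h),
    simple_mul_simple_cancel_right]

theorem tau_leftDescent {w : M.Group} {s : S} (h : M.toCoxeterSystem.IsLeftDescent w s) :
    tau M w = gen M s * tau M (M.toCoxeterSystem.simple s * w) := by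
  rw [← tau_simple_mul (M.toCoxeterSystem.isLeftDescent_iff_not_isLeftDescent_mul.1 h),
    simple_mul_simple_cancel_left]

theorem pr_word (l : List S) : pr M (l.map (gen M)).prod = M.toCoxeterSystem.wordProd l := by
  induction l with
  | nil => simp
  | cons i l ih => rw [List.map_cons, List.prod_cons, map_mul, pr_gen, ih, wordProd_cons]

@[simp] theorem pr_tau (w : M.Group) : pr M (tau M w) = w := by
  obtain ⟨a, ha, rfl⟩ := M.toCoxeterSystem.exists_isReduced w
  rw [tau_word ha, pr_word]

variable (M) in
/-- The degree homomorphism. -/
noncomputable def degH : Art M →* Multiplicative ℤ :=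
  PresentedGroup.toGroup (lift_ok M (fun _ => Multiplicative.ofAdd (1 : ℤ)) fun i j _ => by
    simp [List.map_const', length_alternatingWord])

variable (M) in
/-- The degree of an element of the Artin group. -/
noncomputable def deg (a : Art M) : ℤ := Multiplicative.toAdd (degH M a)

@[simp] theorem deg_one : deg M 1 = 0 := by simp [deg]

theorem deg_mul (a b : Art M) : deg M (a * b) = deg M a + deg M b := by simp [deg]

@[simp] theorem deg_inv (a : Art M) : deg M a⁻¹ = - deg M a := by simp [deg]

@[simp] theorem deg_gen (s : S) : deg M (gen M s) = 1 := by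
  have : degH M (gen M s) = Multiplicative.ofAdd (1 : ℤ) := PresentedGroup.toGroup.of _
  rw [deg, this]; rfl

theorem deg_word (l : List S) : deg M (l.map (gen M)).prod = l.length := by
  induction l with
  | nil => simp
  | cons i l ih => rw [List.map_cons, List.prod_cons, deg_mul, deg_gen, ih]; simp [add_comm]

@[simp] theorem deg_tau (w : M.Group) : deg M (tau M w) = M.toCoxeterSystem.length w := by
  obtain ⟨a, ha, rfl⟩ := M.toCoxeterSystem.exists_isReduced w
  rw [tau_word ha, deg_word, ha.eq]

end Pool.Agent.HT
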