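import Pool.Agent.Lib.HT.FS.TT
import Pool.Agent.Lib.HT.FS.Tau
import Pool.Agent.Lib.HT.FS.NoEdge

set_option autoImplicit false
set_option linter.unusedSectionVars false

/-! The reflection axiom of the flow system of hearts. -/

namespace Pool.Agent.HT

open Pool.Agent.Lib.MP_6d85b4_al CoxeterSystem

universe u

namespace Heart

variable {K : Type} [AddCommGroup K] {D : TD.{u} K} {ι : Type} [Fintype ι]

/-- The torsion free class of a simple tilt. -/
lemma IsUp.a10_addR {H H' : Heart D ι} {R : Finset ι} (h : H.IsUp R H') {X : D.Obj}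
    (hX : H.M X) (hV : H'.V (-1) X) : H.AddR R X := by
  obtain ⟨A, B, hA, hB, h0, e⟩ := M.torsionFree (F := H.AddR R) Lv.zero (fun _ h => h.M)
    (fun _ _ _ a b c d => d.sub a b c) (fun _ _ _ a b c => Lv.ext b c a) hX
  have h1 : H'.U 0 A := (h.U_iff A).2 ⟨(M_iff.1 hA).1, fun i hi => h0 _ (AddR.simple hi)⟩
  have h2 := M.hom_sub hB.M hA e
  rw [hom_U_V (by omega) h1 hV] at h2
  have h3 : A = D.zero := D.eq_zero _ (by omega)
  rw [h3] at e
  rwa [D.eq_of_ext_zero _ _ e]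

/-- The top cohomology in a heart of the unit interval is the torsion part. -/
lemma Unit.a10_top {H H' : Heart D ι} (h : H.Unit H') {P N B : D.Obj} (hP : H.V 0 P) (hN : H'.M N)
    (hB : H'.V (-1) B) (e : D.Ext N P B) :
    ∃ Y B₀ F, H.M Y ∧ H.V (-1) B₀ ∧ D.Ext Y P B₀ ∧ H.M N ∧ H.M F ∧ H'.V (-1) F ∧ D.Ext N Y F ∧
      D.Ext F B B₀ := by
  obtain ⟨Y, B₀, hY, hB₀, e₀⟩ := H.trunc 0 P
  have hB₁ : H.V (-1) B₀ := by simpa using hB₀
  have hYM : H.M Y := M_iff.2 ⟨hY, Lv.ext (V.mono (by omega) ((V_sh (-1)).2 hB₁)) hP (D.rot' e₀)⟩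
  obtain ⟨A, F, a1, a2, f1, f2, e₁⟩ := h.dec' hYM
  obtain ⟨G, g1, g2⟩ := D.assoc _ _ _ _ _ e₀ e₁
  have hG : H'.V (-1) G := Lv.ext (M.V_of_sh f2) (h.Vlo _ _ hB₁) g2
  obtain ⟨rfl, rfl⟩ := D.trunc_unique (U := {Y | H'.U 0 Y}) (V := {Y | H'.V (-1) Y})
    (fun _ a _ b => hom_U_V (by omega) a b)
    (fun A a => by rw [← D.sh_one]; exact U.mono (by omega) ((U_sh 1).2 a))
    (fun B b => V.mono (by omega) ((V_sh (-1)).2 b))
    (fun _ _ _ e a b => Lv.ext a b e) (fun _ _ _ e a b => Lv.ext a b e) e g1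
    (M_iff.1 hN).1 (M_iff.1 a2).1 hB hG
  exact ⟨Y, B₀, F, hYM, hB₁, e₀, a1, f1, M.V_of_sh f2, e₁, g2⟩

end Heart

variable {S : Type} [Fintype S] [DecidableEq S] {M : CoxeterMatrix S}

namespace Model

variable {Md : Model (fun s t => M s t)}

namespace A10

lemma act_word (hM : Small M) (H : Md.GH) (l : List S) :
    act hM H (l.map (gen M)).prod = run H l := by
  induction l using List.reverseRecOn with
  | nil => simp [run, act_one]
  | append_singleton l s ih =>
    rw [List.map_append, List.prod_append, act_mul, ih, run_concat, List.map_singleton,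
      List.prod_singleton, act_gen]

lemma unit_tau (hM : Small M) (H : Md.GH) (w : M.Group) : H.1.Unit (act hM H (tau M w)).1 := by
  obtain ⟨l, hl, rfl⟩ := M.toCoxeterSystem.exists_isReduced w
  rw [tau_word hl, act_word]
  exact unit_run hM H hl

lemma L_tau (hM : Small M) (H : Md.GH) (w : M.Group) (x : KK S) :
    (act hM H (tau M w)).L x = H.L (krho hM w x) := by rw [L_act, pr_tau]

lemma U_of_pos (hM : Small M) {H H' : Md.GH} (h : H.1.Unit H'.1) {w : M.Group}
    (hw : ∀ x, H'.L x = H.L (krho hM w x)) {x : S × Irr}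
    (hp : ¬ M.toCoxeterSystem.IsLeftDescent w x.1) : H'.1.U 0 (H.1.S x) := by
  obtain ⟨A, B, hA, hA', hB, hB', hE⟩ := h.dec' (Heart.M.simple H.1 x)
  rcases hA.sub_simple hB hE with h0 | h0
  · exfalso
    subst h0
    rw [← Md.D.eq_of_ext_zero _ _ hE] at hB'
    have h2 := H'.c_M hB'
    have h3 : H'.L.symm (H.1.b x) = krho hM w⁻¹ (Pi.single x 1) := by
      rw [LinearEquiv.symm_apply_eq, hw, ← Module.End.mul_apply, ← map_mul, mul_inv_cancel,
        map_one, Module.End.one_apply, GH.L_single]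
    rw [Md.D.sh_one, Md.D.cl_s, GH.c_neg, H.1.cl_S, GH.c, h3, ev_krho, ev_single, map_smul] at h2
    refine hp (M.toCoxeterSystem.isRightDescent_inv_iff.1 (descent_iff.2 fun s => ?_))
    have h5 := h2 s
    have h7 := fp_pos x.2
    simp only [Pi.neg_apply, Pi.smul_apply, smul_eq_mul] at h5 ⊢
    nlinarith
  · subst h0
    rw [← Md.D.eq_of_ext_zero_right hE]
    exact (Heart.M_iff.1 hA').1

lemma refl_L (H : Md.GH) (j : S) (x : KK S) : H.1.refl (blk j) (H.L x) = H.L (kr M j x) := by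
  rw [← GH.L_up]
  have : H.1.refl (blk j) ∘ₗ H.L.toLinearMap = (upE j H).L.toLinearMap := by
    refine (Pi.basisFun ℤ (S × Irr)).ext (fun y => ?_)
    simp only [Pi.basisFun_apply, LinearEquiv.coe_coe, LinearMap.comp_apply, GH.L_single]
    rw [(isUp_upE j H).b]
  exact LinearMap.congr_fun this x

lemma tw (hM : Small M) (H : Md.GH) {j : S} {w : M.Group}
    (hw : M.toCoxeterSystem.IsLeftDescent w j) :
    Heart.Tw H.1 (blk j) (act hM H (tau M (M.toCoxeterSystem.simple j * w))).1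
      (act hM H (tau M w)).1 where
  orth := H.2.orth j
  u1 := unit_tau hM H _
  u2 := unit_tau hM H _
  t1 i hi := U_of_pos hM (unit_tau hM H _) (L_tau hM H _) (by
    rw [mem_blk.1 hi]
    exact M.toCoxeterSystem.isLeftDescent_iff_not_isLeftDescent_mul.1 hw)
  f2 i hi := Heart.M.V_of_sh (V_of_neg hM (unit_tau hM H _) (L_tau hM H _) (by rwa [mem_blk.1 hi]))
  b i := by
    rw [← GH.L_single, ← GH.L_single, L_tau, L_tau, refl_L, ← krho_simple hM,
      ← Module.End.mul_apply, ← map_mul, simple_mul_simple_cancel_left]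

/-- The pairing with a simple root is a positive combination of Euler numbers. -/
lemma c_ip (hM : Small M) (H : Md.GH) (j : S) (x : KK S) :
    ip M j (H.c x) = -∑ a, fp a * Md.D.form x (H.1.b (j, a)) := by
  obtain ⟨x, rfl⟩ := H.L.surjective x
  have h1 := congrFun (ev_kr hM j x) j
  have h2 := refl_L H j x
  rw [Heart.refl_apply, sum_blk] at h2
  simp only [← GH.L_single, ← map_zsmul, ← map_sum, ← map_sub] at h2
  rw [← H.L.injective h2, rf_apply, map_sub, map_sum] at h1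
  simp only [map_zsmul, ev_single, GH.L_single] at h1
  simp only [Pi.sub_apply, Pi.add_apply, Finset.sum_apply, Pi.smul_apply,
    al_self, smul_eq_mul, mul_one] at h1
  simp only [zsmul_eq_mul] at h1
  rw [GH.c, LinearEquiv.symm_apply_apply]
  simp only [mul_comm (fp _)]
  linarith

lemma c_act (hM : Small M) (H : Md.GH) (a : Art M) (x : KK S) :
    H.c x = rho M (pr M a) ((act hM H a).c x) := by
  obtain ⟨x, rfl⟩ := (act hM H a).L.surjective x
  rw [GH.c, GH.c, LinearEquiv.symm_apply_apply, L_act, LinearEquiv.symm_apply_apply, ev_krho]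

end A10

open A10 Heart in
/-- The reflection axiom, at the level of one good heart `H`. -/
theorem a10_core (hM : Small M) (H : Md.GH) {P : Md.D.Obj} (hP : H.1.V 0 P) {j : S}
    (hj : ∀ a, Md.D.hom (H.1.S (j, a)) P = 0) {w : M.Group}
    (hw : M.toCoxeterSystem.IsLeftDescent w j) {N B : Md.D.Obj}
    (hN : (act hM H (tau M w)).1.M N) (hB : (act hM H (tau M w)).1.V (-1) B)
    (e : Md.D.Ext N P B) :
    0 ≤ ip M j (H.c (Md.D.cl N)) ∧ (ip M j (H.c (Md.D.cl N)) = 0 →
      (act hM H (tau M (M.toCoxeterSystem.simple j * w))).1.M N ∧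
      (act hM H (tau M (M.toCoxeterSystem.simple j * w))).1.V (-1) B ∧
      ∀ i, ¬ M.toCoxeterSystem.IsRightDescent w i →
        (∃ a, Md.D.hom ((act hM H (tau M w)).1.S (i, a)) P ≠ 0) →
        ∃ a, Md.D.hom ((act hM H (tau M (M.toCoxeterSystem.simple j * w))).1.S (i, a)) P ≠ 0) := by
  have T := tw hM H hw
  obtain ⟨Y, B₀, F, hY, hB₀, e₀, hN₀, hF, hF', e₁, e₂⟩ := T.u2.a10_top hP hN hB e
  have y0 : ∀ i ∈ blk j, Md.D.hom (H.1.S i) Y = 0 := by
    rintro ⟨s, a⟩ hi
    obtain rfl : s = j := mem_blk.1 hi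
    have h1 := Md.D.les (H.1.S (s, a)) _ _ _ (Md.D.rot' e₀)
    rw [hj, hom_U_V (a := 0) (by omega) (M_iff.1 (Heart.M.simple H.1 _)).1 ((V_sh (-1)).2 hB₀)] at h1
    omega
  have n0 : ∀ i ∈ blk j, Md.D.hom (H.1.S i) N = 0 := fun i hi => by
    have := Heart.M.hom_sub hF (Heart.M.simple H.1 i) e₁
    rw [y0 i hi] at this
    omega
  have eu : ∀ a, Md.D.form (Md.D.cl N) (H.1.b (j, a)) =
      -(Md.D.hom N (Md.D.s (H.1.S (j, a))) : ℤ) := fun a => by
    rw [← H.1.cl_S, hN₀.euler (Heart.M.simple H.1 _), n0 _ (mem_blk.2 rfl),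
      hom_U_V (by omega) (M_iff.1 hN).1 (T.f2 _ (mem_blk.2 rfl))]
    simp
  have nn : ∀ a ∈ (Finset.univ : Finset Irr),
      0 ≤ fp a * (Md.D.hom N (Md.D.s (H.1.S (j, a))) : ℝ) :=
    fun a _ => mul_nonneg (fp_pos a).le (Nat.cast_nonneg _)
  have ci : ip M j (H.c (Md.D.cl N)) = ∑ a, fp a * (Md.D.hom N (Md.D.s (H.1.S (j, a))) : ℝ) := by
    rw [c_ip hM]
    simp [eu]
  rw [ci]
  refine ⟨Finset.sum_nonneg nn, fun z => ?_⟩
  have g0 : ∀ i ∈ blk j, Md.D.hom N (Md.D.s (H.1.S i)) = 0 := by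
    rintro ⟨s, a⟩ hi
    obtain rfl : s = j := mem_blk.1 hi
    have := (mul_eq_zero.1 ((Finset.sum_eq_zero_iff_of_nonneg nn).1 z a
      (Finset.mem_univ a))).resolve_left (fp_pos a).ne'
    exact_mod_cast this
  obtain ⟨s1, s2⟩ := T.same hN₀ hF e₁ (M_iff.1 hN).1 hF' y0 g0
  have hN₁ := T.u1.M_of_U hN₀ s1
  have hB₁ := Lv.ext s2 (T.u1.Vlo _ _ hB₀) e₂
  refine ⟨hN₁, hB₁, ?_⟩
  rintro i hi ⟨a, ha⟩
  have l1 := M.toCoxeterSystem.not_isRightDescent_iff.1 hi
  have l2 := M.toCoxeterSystem.isLeftDescent_iff.1 hw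
  have l3 : M.toCoxeterSystem.IsLeftDescent (w * M.toCoxeterSystem.simple i) j := by
    have := M.toCoxeterSystem.length_mul_le (M.toCoxeterSystem.simple j * w)
      (M.toCoxeterSystem.simple i)
    rw [length_simple, mul_assoc] at this
    unfold IsLeftDescent
    omega
  have l4 : ¬ M.toCoxeterSystem.IsRightDescent (M.toCoxeterSystem.simple j * w) i := by
    have := M.toCoxeterSystem.isLeftDescent_iff.1 l3
    rw [not_isRightDescent_iff, mul_assoc]
    omega
  have T' := tw hM H l3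
  rw [← mul_assoc, tau_mul_simple l4, tau_mul_simple hi, act_mul, act_mul] at T'
  have u2 := isUp_act hM (act hM H (tau M w)) i
  have u1 := isUp_act hM (act hM H (tau M (M.toCoxeterSystem.simple j * w))) i
  have hS := Heart.M.simple (act hM H (tau M w)).1 (i, a)
  obtain ⟨X, x1, x2, x3, x4⟩ := T.soc T' (N := N)
    (M_of_pos hM T.u2 (L_tau hM H w) (x := (i, a)) (pos_of_not_descent M w i hi)) (M_iff.1 hS).1
    (Heart.M.V_of_sh (by rw [Md.D.sh_one, ← u2.mem _ (mem_blk.2 rfl)]; exact Heart.M.simple _ _)) n0 g0 (by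
      have h1 := Md.D.les ((act hM H (tau M w)).1.S (i, a)) _ _ _ e
      rw [hom_U_V (by omega) (M_iff.1 hS).1 hB] at h1
      omega)
  by_contra c
  push Not at c
  have h1 := (u1.a10_addR (T.u1.M_of_U x1 x2) x3).hom_left (W := P) (by
    rintro ⟨s, b⟩ hs
    obtain rfl : s = i := mem_blk.1 hs
    exact c b)
  have h2 := Md.D.les X _ _ _ (Md.D.rot' e)
  rw [h1, hom_U_V (by omega) x2 ((V_sh (-1)).2 hB₁)] at h2
  omega

end Model

end Pool.Agent.HT
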