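import Pool.Agent.Lib.HT.Centre

set_option autoImplicit false
set_option linter.unusedSectionVars false

/-! The socle axioms of the flow system of an object, along reduced words. -/

namespace Pool.Agent.HT

open Pool.Agent.Lib.MP_6d85b4_al CoxeterSystem

universe u

namespace Heart

variable {K : Type} [AddCommGroup K] {D : TD.{u} K} {ι : Type} {H H' : Heart D ι} {P : D.Obj}

/-- Maps to a coconnective object pass to the source of an epimorphism. -/
lemma hom_of_quot {N A I : D.Obj} (hP : H.V 0 P) (hN : H.U 0 N) (e : D.Ext N A I)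
    (h : D.hom A P = 0) : D.hom I P = 0 := by
  have h1 := D.les' P (D.rot1 e)
  have h2 : D.hom (D.sh 1 N) P = 0 :=
    hom_U_V (a := 0 + 1) (by omega) ((U_sh 1).2 hN) hP
  omega

lemma M.exists_quot {Y : D.Obj} (h : H.M Y) (h0 : Y ≠ D.zero) :
    ∃ i N, H.M N ∧ D.Ext N Y (H.S i) := by
  obtain ⟨i, B, hB, e⟩ := M.exists_sub ((H.op_M Y).2 h) h0
  exact ⟨i, B, (H.op_M B).1 hB, e⟩

/-- (a5) -/
lemma exists_soc (h0 : H.V 0 P) (h1 : ¬ H.V (-1) P) : ∃ i, D.hom (H.S i) P ≠ 0 := by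
  by_contra hc
  push Not at hc
  refine h1 (V_iff.2 fun i n hn => ?_)
  rcases eq_or_lt_of_le (show 0 ≤ n by omega) with h | h
  · subst h
    rw [D.sh_zero]; exact hc i
  · exact V_iff.1 h0 i n h

/-- The co-aisle condition descends along a unit interval. -/
lemma Unit.V_down (h : H.Unit H') (hP : H'.V 0 P)
    (hF : ∀ B, H.M B → H'.M (D.sh 1 B) → D.hom (D.sh 1 B) P = 0) : H.V 0 P := by
  refine V_iff.2 fun i n hn => ?_
  rcases eq_or_lt_of_le (show 1 ≤ n by omega) with h1 | h1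
  · subst h1
    obtain ⟨A, B, -, hA, hB, hB', e⟩ := h.dec' (M.simple H i)
    have h2 := D.les' P ((D.ext_sh 1).2 e)
    have h3 : D.hom (D.sh 1 A) P = 0 :=
      hom_U_V (a := 0 + 1) (by omega) ((U_sh 1).2 (M_iff.1 hA).1) hP
    have h4 := hF B hB hB'
    omega
  · exact hom_U_V (a := 1) (by omega) (h.hi' 1 _ (Lv.simple (by omega))) hP

/-- The aisle condition ascends along a unit interval. -/
lemma Unit.U_up (h : H.Unit H') {a : ℤ} (hP : H.U a P)
    (hF : ∀ A, H.M A → H'.M (D.sh 1 A) → D.hom P (D.sh a A) = 0) : H'.U a P := by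
  refine U_iff.2 fun i n hn => ?_
  rcases eq_or_lt_of_le (show n ≤ a - 1 by omega) with h1 | h1
  · subst h1
    obtain ⟨A, B, hA, hA', hB, -, e⟩ := h.dec (M.simple H' i)
    have h2 := D.les P _ _ _ ((D.ext_sh (a - 1)).2 e)
    have h3 : D.hom P (D.sh (a - 1) B) = 0 :=
      hom_U_V (b := 0 + (a - 1)) (by omega) hP ((V_sh (a - 1)).2 (M_iff.1 hB).2)
    have h4 := hF A hA hA'
    rw [D.sh_sh, show a - 1 + 1 = a by ring] at h2
    omega
  · exact hom_U_V (b := n + 1) (by omega) hP (h.Vhi n _ (Lv.simple (le_refl n)))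

/-- A simple in the socle has no maps from `P` in a negative degree bounding `P`. -/
lemma hom_soc {a : ℤ} (h1 : D.hom P (D.sh a P) = 0) (hV : H.V 0 P) (hU : H.U a P)
    {i : ι} (hi : D.hom (H.S i) P ≠ 0) : D.hom P (D.sh a (H.S i)) = 0 := by
  obtain ⟨N, B, hN, hB, e⟩ := H.trunc 0 P
  have hN' : H.M N := M_iff.2 ⟨hN, Lv.ext
    (V.mono (by omega) ((V_sh (-1)).2 hB)) hV (D.rot' e)⟩
  have h2 : D.hom (H.S i) N ≠ 0 := by
    have h3 := D.les (H.S i) _ _ _ e
    have h4 : D.hom (H.S i) B = 0 := hom_U_V (by omega) (M_iff.1 (M.simple H i)).1 hB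
    omega
  obtain ⟨C, hC, e'⟩ := hN'.sub_of_hom h2
  have h5 := D.les P _ _ _ ((D.ext_sh a).2 (D.rot' e'))
  have h6 := D.les P _ _ _ ((D.ext_sh a).2 (D.rot' e))
  have h7 : D.hom P (D.sh a (D.sh (-1) C)) = 0 :=
    hom_U_V (by omega) hU ((V_sh a).2 ((V_sh (-1)).2 (M_iff.1 hC).2))
  have h8 : D.hom P (D.sh a (D.sh (-1) B)) = 0 :=
    hom_U_V (by omega) hU ((V_sh a).2 ((V_sh (-1)).2 hB))
  omega

end Heart

variable {S : Type} [Fintype S] [DecidableEq S] {M : CoxeterMatrix S}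

namespace Model

variable {Md : Model (fun s t => M s t)} {P : Md.D.Obj}

lemma GH.hom_Phi (H : Md.GH) {e : Bool} {s : S} {g g' : Irr} (h : nF e g g' = 1) :
    Md.D.hom (H.1.S (s, g')) (Md.Phi e (H.1.S (s, g))) = 1 := by
  have h1 := (H.2.orth s).hom_R (A := Md.Phi e (H.1.S (s, g)))
    ((H.2.Phi_S e (s, g)).mono (fun i n h => ⟨mem_blk.2 h.1, h.2⟩))
  have h2 := H.2.mul_Phi e (s, g) (s, g')
  unfold Heart.mul at h2
  rw [h1, sum_blk] at h2
  simp only [map_sum, map_zsmul, Module.Basis.repr_self] at h2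
  simp [Finsupp.single_apply, h] at h2
  exact_mod_cast h2

/-- The socle condition does not depend on the member of the block. -/
lemma GH.soc_all (H : Md.GH) (h2 : ∀ e Z, Md.D.hom Z P = 0 → Md.D.hom Z (Md.Phi e P) = 0)
    (hV : H.1.V 0 P) {s : S} {a : Irr} (ha : Md.D.hom (H.1.S (s, a)) P ≠ 0) (b : Irr) :
    Md.D.hom (H.1.S (s, b)) P ≠ 0 := by
  have key : ∀ e g g', nF e g g' = 1 → Md.D.hom (H.1.S (s, g')) P = 0 →
      Md.D.hom (H.1.S (s, g)) P = 0 := by
    intro e g g' h h0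
    have h3 : Md.D.hom (Md.Phi e (H.1.S (s, g'))) (H.1.S (s, g)) ≠ 0 := fun c => by
      have := (Md.Phi_adj _ _ _).1 c
      rw [H.hom_Phi h] at this
      omega
    obtain ⟨N, hN, e'⟩ := (H.2.hrt e (Heart.M.simple H.1 (s, g'))).quot_of_hom h3
    exact Heart.hom_of_quot hV (Heart.M_iff.1 hN).1 e' ((Md.Phi_adj _ _ _).2 (h2 e _ h0))
  have hc := irr_const (f := fun g => if Md.D.hom (H.1.S (s, g)) P = 0 then 0 else 1)
    (fun e g g' h => by
      by_cases c : Md.D.hom (H.1.S (s, g')) P = 0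
      · simp [c, key e g g' h c]
      · have c' : ¬ Md.D.hom (H.1.S (s, g)) P = 0 :=
          fun c' => c (key e g' g (by rw [nF_symm]; exact h) c')
        simp [c, c'])
  intro c
  have h4 := (hc a).trans (hc b).symm
  simp [ha, c] at h4

/-- The co-aisle below an upward tilt at a block. -/
lemma V_upE (H : Md.GH) (s : S) :
    H.1.V 0 P ↔ (upE s H).1.V 0 P ∧ ∀ a, Md.D.hom ((upE s H).1.S (s, a)) P = 0 := by
  rw [(isUp_upE s H).V_iff]
  refine and_congr_right fun _ => ⟨fun h a => h _ (mem_blk.2 rfl), ?_⟩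
  rintro h ⟨t, a⟩ hi
  obtain rfl : t = s := mem_blk.1 hi
  exact h a

lemma upE_inv (hM : Small M) (H : Md.GH) (s : S) : upE s (act hM H (gen M s)⁻¹) = H := by
  rw [← act_gen hM, ← act_mul, inv_mul_cancel, act_one]

/-- The socle in terms of maps from the simples. -/
lemma soc_iff (hM : Small M) {H : Md.GH} (hV : H.1.V 0 P) (s : S) :
    ¬ (act hM H (gen M s)⁻¹).1.V 0 P ↔ ∃ a, Md.D.hom (H.1.S (s, a)) P ≠ 0 := by
  rw [V_upE _ s, upE_inv, not_and, not_forall]
  exact ⟨fun h => h hV, fun h _ => h⟩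

lemma mul_upE (H : Md.GH) (s : S) (Y : Md.D.Obj) {y : S × Irr} (hy : y.1 ≠ s) :
    (upE s H).1.mul Y y = H.1.mul Y y := by
  rw [← GH.L_symm_apply, ← GH.L_symm_apply]
  have h : H.L.symm (Md.D.cl Y) = kr M s ((upE s H).L.symm (Md.D.cl Y)) := by
    rw [LinearEquiv.symm_apply_eq, ← GH.L_up, LinearEquiv.apply_symm_apply]
  rw [h, kr_apply, if_neg hy]

/-- Multiplicities outside the letters of a word do not change. -/
lemma mul_run (H : Md.GH) {l : List S} (Y : Md.D.Obj) {y : S × Irr} (hy : y.1 ∉ l) :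
    (run H l).1.mul Y y = H.1.mul Y y := by
  induction l using List.reverseRecOn with
  | nil => rfl
  | append_singleton l s ih =>
    rw [List.mem_append, List.mem_singleton, not_or] at hy
    rw [run_concat, mul_upE _ _ _ hy.2, ih hy.1]

lemma mul_sh_one (H : Md.GH) (Y : Md.D.Obj) (y : S × Irr) :
    H.1.mul (Md.D.sh 1 Y) y = - H.1.mul Y y := by
  simp [Heart.mul, Md.D.sh_one, Md.D.cl_s]

/-- The torsion free class of a word is supported on its letters, in both hearts. -/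
lemma free_supp (H : Md.GH) {l : List S} {B : Md.D.Obj} (hB : H.1.M B)
    (hB' : (run H l).1.M (Md.D.sh 1 B)) :
    H.1.Lv (fun x n => x.1 ∈ l ∧ n = 0) B ∧
      (run H l).1.Lv (fun x n => x.1 ∈ l ∧ n = 0) (Md.D.sh 1 B) := by
  have key : ∀ y : S × Irr, y.1 ∉ l → H.1.mul B y ≤ 0 ∧ (run H l).1.mul (Md.D.sh 1 B) y ≤ 0 := by
    intro y hy
    have h1 := hB.mul_nonneg y
    have h2 := hB'.mul_nonneg y
    rw [mul_run H _ hy, mul_sh_one] at h2 ⊢
    omega
  exact ⟨hB.supp.mono fun y n h => ⟨by_contra fun c => by have := (key y c).1; omega, h.1⟩,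
    hB'.supp.mono fun y n h => ⟨by_contra fun c => by have := (key y c).2; omega, h.1⟩⟩

/-- (a2) -/
theorem a2_run (hM : Small M) (H : Md.GH) {l : List S} (hl : M.toCoxeterSystem.IsReduced l)
    (hV : (run H l).1.V 0 P) (h0 : ∀ s ∈ l, ∀ a, Md.D.hom ((run H l).1.S (s, a)) P = 0) :
    H.1.V 0 P :=
  (unit_run hM H hl).V_down hV fun B hB hB' => Heart.Lv.hom_left
    (by rintro ⟨s, a⟩ n ⟨hs, rfl⟩; rw [Md.D.sh_zero]; exact h0 s hs a) (free_supp H hB hB').2

/-- (a3) -/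
theorem a3_run (hM : Small M) (H : Md.GH) {l : List S} (hl : M.toCoxeterSystem.IsReduced l)
    {lo : ℤ} (h1 : Md.D.hom P (Md.D.sh lo P) = 0) (hV : H.1.V 0 P)
    (hU : H.1.U lo P) (h0 : ∀ s ∈ l, ∀ a, Md.D.hom (H.1.S (s, a)) P ≠ 0) :
    (run H l).1.U lo P :=
  (unit_run hM H hl).U_up hU fun A hA hA' => Heart.Lv.hom_right
    (P := fun x n => x.1 ∈ l ∧ n = lo)
    (by rintro ⟨s, a⟩ n ⟨hs, rfl⟩; exact Heart.hom_soc h1 hV hU (h0 s hs a))
    ((free_supp H hA hA').1.sh lo fun x n h => ⟨h.1, by rw [h.2, add_zero]⟩)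

/-- A simple whose type extends the reduced word lies in the lower heart. -/
lemma M_run (hM : Small M) (H : Md.GH) {l : List S} {i : S}
    (hl : M.toCoxeterSystem.IsReduced (l ++ [i])) (a : Irr) : H.1.M ((run H l).1.S (i, a)) := by
  have hl' : M.toCoxeterSystem.IsReduced l := by simpa using hl.take l.length
  refine Heart.M_iff.2 ⟨(unit_run hM H hl').lo _ (Heart.M_iff.1 (Heart.M.simple _ _)).1, ?_⟩
  have h1 := (unit_run hM H hl).Vhi 0 _ (Heart.M_iff.1 (Heart.M.simple _ (i, a))).2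
  rw [run_concat, (isUp_upE i _).mem _ (mem_blk.2 rfl), ← Md.D.sh_one] at h1
  exact (Heart.V_sh 1).1 h1

/-- (a4) -/
theorem a4_run (hM : Small M) (H : Md.GH) {l : List S} {i : S}
    (hl : M.toCoxeterSystem.IsReduced (l ++ [i])) (hV : H.1.V 0 P)
    (h0 : ∀ s ∈ l ++ [i], ∀ a, Md.D.hom (H.1.S (s, a)) P ≠ 0) (a : Irr) :
    Md.D.hom ((run H l).1.S (i, a)) P ≠ 0 := by
  intro c
  have h1 := M_run hM H hl a
  have hne : (run H l).1.S (i, a) ≠ Md.D.zero := fun e => by
    have := (run H l).1.one (i, a)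
    rw [e, Md.D.hom_zero] at this
    omega
  obtain ⟨y, N, hN, e⟩ := h1.exists_quot hne
  refine h0 y.1 (by_contra fun hy => ?_)  y.2
    (Heart.hom_of_quot hV (Heart.M_iff.1 hN).1 e c)
  rw [List.mem_append, List.mem_singleton, not_or] at hy
  have h2 := Heart.mul_ext (H := H.1) e y
  have h3 := hN.mul_nonneg y
  rw [← mul_run H _ hy.1, Heart.mul_ne (fun e => hy.2 (by rw [← e])), Heart.mul_self] at h2
  omega

lemma run_cons (H : Md.GH) (s : S) (l : List S) : run H (s :: l) = run (upE s H) l := rfl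

/-- A simple whose type extends the reduced word on the left lies in the upper aisle. -/
lemma U_run (hM : Small M) (H : Md.GH) {l : List S} {s : S}
    (hl : M.toCoxeterSystem.IsReduced (s :: l)) (a : Irr) : (run H l).1.U 0 (H.1.S (s, a)) := by
  have h1 := unit_run hM (act hM H (gen M s)⁻¹) hl
  rw [run_cons, upE_inv] at h1
  refine h1.hi _ ?_
  rw [(isUp_act_inv hM H s).mem _ (mem_blk.2 rfl), ← Md.D.sh_one]
  exact Heart.Lv.simple (le_refl _)

/-- (a6) -/
theorem a6_run (hM : Small M) (H : Md.GH) {l : List S} {s : S}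
    (hl : M.toCoxeterSystem.IsReduced (s :: l)) (hV : (run H l).1.V (-1) P) (a : Irr) :
    Md.D.hom (H.1.S (s, a)) P = 0 :=
  Heart.hom_U_V (by omega) (U_run hM H hl a) hV

end Model

end Pool.Agent.HT
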