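import Mathlib

set_option autoImplicit false

/-! The abstract flow argument. -/

namespace Pool.Agent.HT.FS

/-- Both undefined, or both defined and related. -/
def ORel {G : Type*} (r : G → G → Prop) : Option G → Option G → Prop
  | none, none => True
  | some a, some b => r a b
  | _, _ => False

theorem ORel.symm {G : Type*} {r : G → G → Prop} (h : Equivalence r) :
    ∀ {a b : Option G}, ORel r a b → ORel r b a
  | none, none, _ => trivial
  | some _, some _, k => h.symm k

theorem ORel.trans {G : Type*} {r : G → G → Prop} (h : Equivalence r) :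
    ∀ {a b c : Option G}, ORel r a b → ORel r b c → ORel r a c
  | none, none, none, _, _ => trivial
  | some _, some _, some _, k, k' => h.trans k k'

theorem ORel.refl {G : Type*} {r : G → G → Prop} (h : Equivalence r) :
    ∀ a : Option G, ORel r a a
  | none => trivial
  | some _ => h.refl _

/-- States, cores and a decreasing height. -/
structure Abs (G S St : Type*) [DecidableEq S] where
  ok : St → Prop
  g : St → G
  R : St → Finset S
  J : St → Finset S
  Sph : Finset S → Prop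
  N : G → Finset S → St
  fin : G → Prop
  e : G → G
  lt : St → St → Prop
  wf : WellFounded lt
  mono : ∀ T T', Sph T → T' ⊆ T → Sph T'
  sph : ∀ a, ok a → Sph (R a ∪ J a)
  disj : ∀ a, ok a → ∀ j ∈ J a, j ∉ R a
  ok_N : ∀ a, ok a → ∀ T, Sph T → ok (N (g a) T)
  R_N : ∀ a, ok a → ∀ T, Sph T → R (N (g a) T) ⊆ T
  cls : ∀ a, ok a → ∀ T T', T ⊆ T' → Sph T' → N (g (N (g a) T)) T' = N (g a) T'
  dec : ∀ a, ok a → ∀ T, R a ⊆ T → T ⊆ R a ∪ J a → T ≠ R a → lt (N (g a) T) a
  u : ∀ a, ok a → ∀ T, R a ⊆ T → Sph T → (∀ j ∈ J a, j ∉ T) →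
    J (N (g a) T) = J a ∧ R a ⊆ R (N (g a) T) ∧
      (∀ T', R (N (g a) T) ⊆ T' → Sph T' → N (g (N (g a) T)) T' = N (g a) T') ∧
      (J a = ∅ → fin (g (N (g a) T)) → fin (g a))

namespace Abs

variable {G S St : Type*} [DecidableEq S] (F : Abs G S St)

open Classical in
/-- The end of the flow. -/
noncomputable def val : St → Option G :=
  F.wf.fix fun a f => if F.fin (F.g a) then some (F.e (F.g a)) else
    if h : F.J a ≠ ∅ ∧ F.lt (F.N (F.g a) (F.R a ∪ F.J a)) a then f _ h.2 else none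

variable {F}

theorem val_fin {a : St} (h : F.fin (F.g a)) : F.val a = some (F.e (F.g a)) := by
  rw [val, WellFounded.fix_eq, if_pos h]

theorem val_none {a : St} (h : ¬ F.fin (F.g a)) (hJ : F.J a = ∅) : F.val a = none := by
  rw [val, WellFounded.fix_eq, if_neg h, dif_neg fun c => c.1 hJ]

theorem lt_N {a : St} (ha : F.ok a) (hJ : F.J a ≠ ∅) : F.lt (F.N (F.g a) (F.R a ∪ F.J a)) a := by
  obtain ⟨j, hj⟩ := Finset.nonempty_iff_ne_empty.2 hJ
  exact F.dec a ha _ Finset.subset_union_left subset_rfl fun c =>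
    F.disj a ha j hj (c ▸ Finset.mem_union_right _ hj)

theorem val_step {a : St} (ha : F.ok a) (h : ¬ F.fin (F.g a)) (hJ : F.J a ≠ ∅) :
    F.val a = F.val (F.N (F.g a) (F.R a ∪ F.J a)) := by
  conv_lhs => rw [val, WellFounded.fix_eq, if_neg h, dif_pos ⟨hJ, lt_N ha hJ⟩]
  rfl

theorem val_mem {Lo Q : G → Prop}
    (h1 : ∀ a, F.ok a → Lo (F.g a) → ∀ T, F.Sph T → Lo (F.g (F.N (F.g a) T)))
    (h2 : ∀ a, F.ok a → Lo (F.g a) → F.fin (F.g a) → Q (F.e (F.g a))) (a : St) :
    F.ok a → Lo (F.g a) → ∀ f, F.val a = some f → Q f := by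
  induction a using F.wf.induction with
  | _ a ih =>
    intro ha hl f hf
    by_cases c : F.fin (F.g a)
    · rw [val_fin c] at hf
      exact Option.some.inj hf ▸ h2 a ha hl c
    by_cases cJ : F.J a = ∅
    · rw [val_none c cJ] at hf; cases hf
    rw [val_step ha c cJ] at hf
    exact ih _ (lt_N ha cJ) (F.ok_N a ha _ (F.sph a ha)) (h1 a ha hl _ (F.sph a ha)) f hf

/-- Claim A. -/
theorem claimA {Lo : G → Prop} {r : G → G → Prop} (hr : Equivalence r)
    (h1 : ∀ a, F.ok a → Lo (F.g a) → ∀ T, F.Sph T → Lo (F.g (F.N (F.g a) T)))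
    (h2 : ∀ a, F.ok a → Lo (F.g a) → F.fin (F.g a) → ∀ T, F.Sph T →
      F.fin (F.g (F.N (F.g a) T)) ∧ r (F.e (F.g a)) (F.e (F.g (F.N (F.g a) T)))) (a : St) :
    F.ok a → Lo (F.g a) → ∀ T, F.R a ⊆ T → F.Sph T →
      ORel r (F.val a) (F.val (F.N (F.g a) T)) := by
  have fi : ∀ a, F.ok a → Lo (F.g a) → F.fin (F.g a) → ∀ T, F.Sph T →
      ORel r (F.val a) (F.val (F.N (F.g a) T)) := fun a ha hl c T hT => by
    rw [val_fin c, val_fin (h2 a ha hl c T hT).1]
    exact (h2 a ha hl c T hT).2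
  induction a using F.wf.induction with
  | _ a ih =>
    intro ha hl T hR hT
    by_cases c : F.fin (F.g a)
    · exact fi a ha hl c T hT
    have hs := F.sph a ha
    have key : ∀ T₁, F.R a ⊆ T₁ → T₁ ⊆ F.R a ∪ F.J a → T₁ ≠ F.R a → ∀ T₂, T₁ ⊆ T₂ → F.Sph T₂ →
        ORel r (F.val (F.N (F.g a) T₁)) (F.val (F.N (F.g a) T₂)) := fun T₁ k1 k2 k3 T₂ k4 k5 => by
      have k6 := F.mono _ _ k5 k4
      rw [← F.cls a ha T₁ T₂ k4 k5]
      exact ih _ (F.dec a ha T₁ k1 k2 k3) (F.ok_N a ha _ k6) (h1 a ha hl _ k6) T₂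
        ((F.R_N a ha _ k6).trans k4) k5
    by_cases c2 : ∀ j ∈ F.J a, j ∉ T
    · obtain ⟨u1, u2, u3, u4⟩ := F.u a ha T hR hT c2
      have hb := F.ok_N a ha T hT
      by_cases cJ : F.J a = ∅
      · rw [val_none c cJ, val_none (fun k => c (u4 cJ k)) (u1.trans cJ)]
        trivial
      have hs' := F.sph _ hb
      have k1 := key _ Finset.subset_union_left subset_rfl (fun c => by
        obtain ⟨j, hj⟩ := Finset.nonempty_iff_ne_empty.2 cJ
        exact F.disj a ha j hj (c ▸ Finset.mem_union_right _ hj)) _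
        (Finset.union_subset_union u2 u1.ge) hs'
      rw [val_step ha c cJ]
      refine ORel.trans hr k1 (ORel.symm hr ?_)
      rw [← u3 _ Finset.subset_union_left hs']
      by_cases c3 : F.fin (F.g (F.N (F.g a) T))
      · exact fi _ hb (h1 a ha hl T hT) c3 _ hs'
      · rw [val_step hb c3 (u1 ▸ cJ)]
        exact ORel.refl hr _
    · push Not at c2
      obtain ⟨j, hj, hjT⟩ := c2
      have k1 : insert j (F.R a) ⊆ F.R a ∪ F.J a :=
        Finset.insert_subset (Finset.mem_union_right _ hj) Finset.subset_union_left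
      have k2 : insert j (F.R a) ≠ F.R a := fun c =>
        F.disj a ha j hj (c ▸ Finset.mem_insert_self _ _)
      rw [val_step ha c (Finset.ne_empty_of_mem hj)]
      exact ORel.trans hr (ORel.symm hr (key _ (Finset.subset_insert _ _) k1 k2 _ k1 hs))
        (key _ (Finset.subset_insert _ _) k1 k2 _ (Finset.insert_subset hjT hR) hT)

end Abs

end Pool.Agent.HT.FS
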