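import Pool.Agent.Lib.HT.Sph
import Pool.Agent.Lib.HT.Core

/-! Spherical sets, heights, charts, faces and the point of least norm. -/

set_option linter.unusedSectionVars false

namespace Pool.Agent.HT.Chart

open Pool.Agent.Lib.MP_6d85b4_al Pool.Agent.HT.Core Pool.Agent.HT.Aff Filter Topology

variable {S : Type} [Fintype S] [DecidableEq S] {M : CoxeterMatrix S} {R T : Finset S}

/-- A set with a nonnegative strictly dominant vector is spherical. -/
theorem sph_of_dom {v : S → ℝ} (hv : Cn R v) (h : ∀ i ∈ R, ip M i v < 0) : Sph M R := by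
  rcases R.eq_empty_or_nonempty with rfl | c
  · exact sph_empty
  obtain ⟨p, l, hp, p0, he, -, hb⟩ := pf (M := M) c
  have e1 : bf M v p = l * ∑ i, v i * p i := by
    rw [bf, Finset.mul_sum]
    refine Finset.sum_congr rfl fun i _ => ?_
    by_cases hi : i ∈ R
    · rw [he i hi]; ring
    · simp [hv.2 i hi]
  obtain ⟨j, hj⟩ := Function.ne_iff.1 p0
  have jR : j ∈ R := by_contra fun e => hj (hp.2 j e)
  have e2 : bf M p v < 0 := by
    rw [bf, ← Finset.sum_const_zero (s := (Finset.univ : Finset S))]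
    refine Finset.sum_lt_sum (fun i _ => ?_)
      ⟨j, Finset.mem_univ j, mul_neg_of_pos_of_neg ((hp.1 j).lt_of_ne' hj) (h j jR)⟩
    by_cases hi : i ∈ R
    · exact mul_nonpos_of_nonneg_of_nonpos (hp.1 i) (h i hi).le
    · simp [hp.2 i hi]
  have l0 : l < 0 := by
    by_contra c
    rw [bf_symm, e1] at e2
    exact e2.not_ge (mul_nonneg (not_lt.1 c)
      (Finset.sum_nonneg fun i _ => mul_nonneg (hv.1 i) (hp.1 i)))
  intro x hx x0
  obtain ⟨k, hk⟩ := Function.ne_iff.1 x0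
  exact (hb x hx).trans_lt (mul_neg_of_neg_of_pos l0 (Finset.sum_pos' (fun i _ => sq_nonneg _)
    ⟨k, Finset.mem_univ k, sq_pos_of_ne_zero hk⟩))

theorem eta (h : Sph M R) : ∃ η, Cn R η ∧ ∀ i ∈ R, 0 < η i ∧ ip M i η = -1 := by
  obtain ⟨η, hs, he⟩ := ND.rep (sph_iff_nd.1 h) fun _ => -1
  have p : Pos η := by
    set n : S → ℝ := fun i => max (-η i) 0 with hn
    have n0 : ∀ i, 0 ≤ n i := fun i => le_max_right _ _
    have ns : ∀ i, i ∉ R → n i = 0 := fun i hi => by simp [hn, hs i hi]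
    have a : bf M n η ≤ 0 := Finset.sum_nonpos fun i _ => by
      by_cases hi : i ∈ R
      · rw [he i hi]; linarith [n0 i]
      · simp [ns i hi]
    have b : 0 ≤ bf M n (η + n) := Finset.sum_nonneg fun i _ => by
      rw [ip_apply, Finset.mul_sum]
      refine Finset.sum_nonneg fun j _ => ?_
      have q : 0 ≤ (η + n) j := by linarith [le_max_left (-η j) 0, Pi.add_apply η n j]
      by_cases e : i = j
      · subst e
        rcases le_total (-η i) 0 with c | c
        · simp [hn, max_eq_right c]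
        · simp [hn, max_eq_left c]
      · exact mul_nonneg (n0 i) (mul_nonneg (cc_nonneg e) q)
    rw [bf_add_r] at b
    have z : n = 0 := by_contra fun c => by linarith [h n ns c]
    intro i
    have := congrFun z i
    have := le_max_left (-η i) 0
    simp only [hn, Pi.zero_apply] at *
    linarith
  refine ⟨η, ⟨p, hs⟩, fun i hi => ⟨(p i).lt_of_ne' fun c => ?_, he i hi⟩⟩
  have : 0 ≤ ip M i η := by
    rw [ip_apply]
    refine Finset.sum_nonneg fun j _ => ?_
    by_cases e : i = j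
    · rw [← e, c, mul_zero]
    · exact mul_nonneg (cc_nonneg e) (p j)
  linarith [he i hi]

theorem ip_nonneg {x : S → ℝ} (hx : Pos x) {i : S} (h : x i = 0) : 0 ≤ ip M i x := by
  rw [ip_apply]
  refine Finset.sum_nonneg fun j _ => ?_
  by_cases e : i = j
  · rw [← e, h, mul_zero]
  · exact mul_nonneg (cc_nonneg e) (hx j)

/-- The union of `R` with a set of strictly dominant directions of `p` is spherical. -/
theorem sph_union (h : Sph M R) {p : S → ℝ} (hp : Pos p) (h0 : ∀ i ∈ R, ip M i p ≤ 0)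
    (hT : ∀ j ∈ T, ip M j p < 0) : Sph M (R ∪ T) := by
  obtain ⟨η, c, hη⟩ := eta h
  set q : S → ℝ := fun i => if i ∈ R ∪ T then p i else 0 with hq
  have qp : ∀ i ∈ R ∪ T, ip M i q ≤ ip M i p := fun i hi => by
    have := ip_nonneg (M := M) (x := p - q) (i := i) (fun j => by
      simp only [hq, Pi.sub_apply]
      split_ifs
      · simp
      · simpa using hp j) (by simp only [hq, Pi.sub_apply, if_pos hi, sub_self])
    rwa [map_sub, sub_nonneg] at this
  obtain ⟨t, h1, t0⟩ := ((small (fun j => -ip M j p / 2) fun j => -ip M j η).and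
    self_mem_nhdsWithin).exists
  have t0 : 0 < t := t0
  refine sph_of_dom (v := q + t • η) (Cn.add ⟨fun i => ?_, fun i hi => if_neg hi⟩
    (Cn.smul t0.le ⟨c.1, fun i hi => c.2 i fun e => hi (Finset.mem_union_left _ e)⟩)) fun i hi => ?_
  · simp only [hq]
    split_ifs
    · exact hp i
    · exact le_rfl
  · rw [map_add, map_smul, smul_eq_mul]
    by_cases e : i ∈ R
    · rw [(hη i e).2]
      linarith [qp i hi, h0 i e]
    · have a := hT i ((Finset.mem_union.1 hi).resolve_left e)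
      linarith [h1 i (by linarith), qp i hi]

open Classical in
variable (M R) in
/-- The invariant height of a spherical set. -/
noncomputable def th : (S → ℝ) →ₗ[ℝ] ℝ := if h : Sph M R then ht + bL M (eta h).choose else 0

theorem th_spec (h : Sph M R) : ∃ η, Cn R η ∧ (∀ i ∈ R, 0 < η i ∧ ip M i η = -1) ∧
    ∀ x, th M R x = ht x + ∑ i, η i * ip M i x :=
  ⟨_, (eta h).choose_spec.1, (eta h).choose_spec.2, fun x => by
    rw [th, dif_pos h, LinearMap.add_apply, bL_apply, bf]⟩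

theorem th_al (h : Sph M R) {i : S} (hi : i ∈ R) : th M R (al i) = 0 := by
  obtain ⟨η, -, b, c⟩ := th_spec h
  rw [c, ← bf, bf_al_r, (b i hi).2, ht_al, add_neg_cancel]

theorem one_le_th (h : Sph M R) {i : S} (hi : i ∉ R) : 1 ≤ th M R (al i) := by
  obtain ⟨η, a, -, c⟩ := th_spec h
  rw [c, ← bf, bf_al_r, ht_al]
  linarith [ip_nonneg (M := M) a.1 (a.2 i hi)]

theorem th_sup (h : Sph M R) {x : S → ℝ} (hx : Sup R x) : th M R x = 0 := by
  rw [expand]
  refine Finset.sum_eq_zero fun i _ => ?_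
  by_cases hi : i ∈ R
  · rw [th_al h hi, mul_zero]
  · rw [hx i hi, zero_mul]

theorem th_congr (h : Sph M R) {x y : S → ℝ} (e : Sup R (x - y)) : th M R x = th M R y := by
  rw [← sub_eq_zero, ← map_sub, th_sup h e]

theorem th_rho (h : Sph M R) {w : M.Group} (hw : w ∈ WL M R) (x : S → ℝ) :
    th M R (rho M w x) = th M R x :=
  th_congr h fun i hi => by rw [Pi.sub_apply, coord hw hi, sub_self]

theorem ht_le_th (h : Sph M R) {x : S → ℝ} (hx : ∀ i ∈ R, 0 ≤ ip M i x) : ht x ≤ th M R x := by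
  obtain ⟨η, a, -, c⟩ := th_spec h
  rw [c, le_add_iff_nonneg_right]
  refine Finset.sum_nonneg fun i _ => ?_
  by_cases hi : i ∈ R
  · exact mul_nonneg (a.1 i) (hx i hi)
  · rw [a.2 i hi, zero_mul]

theorem th_eq_ht (h : Sph M R) {x : S → ℝ} (hx : ∀ i ∈ R, ip M i x = 0) : th M R x = ht x := by
  obtain ⟨η, a, -, c⟩ := th_spec h
  rw [c, ← bf, bf_eq_zero a.2 hx, add_zero]

theorem th_lt_ht (h : Sph M R) {x : S → ℝ} (hx : ∀ i ∈ R, ip M i x ≤ 0) {j : S} (hj : j ∈ R)
    (hl : ip M j x < 0) : th M R x < ht x := by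
  obtain ⟨η, a, b, c⟩ := th_spec h
  rw [c, add_lt_iff_neg_left, ← Finset.sum_const_zero (s := (Finset.univ : Finset S))]
  refine Finset.sum_lt_sum (fun i _ => ?_)
    ⟨j, Finset.mem_univ j, mul_neg_of_pos_of_neg (b j hj).1 hl⟩
  by_cases hi : i ∈ R
  · exact mul_nonpos_of_nonneg_of_nonpos (a.1 i) (hx i hi)
  · rw [a.2 i hi, zero_mul]

variable (M) in
/-- The possible values of the height. -/
def Val (DD : Set ℝ) : Set ℝ := {r | ∃ R y, Sph M R ∧ (∀ j, y j ∈ DD) ∧ r = th M R y}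

theorem val_finite {DD : Set ℝ} (h0 : ∀ x ∈ DD, 0 ≤ x) (hf : ∀ C, {x ∈ DD | x ≤ C}.Finite)
    (C : ℝ) : {r ∈ Val M DD | r ≤ C}.Finite := by
  classical
  refine ((Set.finite_univ (α := Finset S)).image2 (fun R y => th M R y)
    (Set.Finite.pi' fun _ : S => (hf C).insert 0)).subset ?_
  rintro _ ⟨⟨R, y, h, hy, rfl⟩, hC⟩
  refine ⟨R, trivial, fun j => if j ∈ R then 0 else y j, fun j => ?_,
    th_congr h fun i hi => by simp [hi]⟩
  by_cases e : j ∈ R
  · simp [e]
  · simp only [if_neg e]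
    refine Or.inr ⟨hy j, le_trans ?_ hC⟩
    rw [expand]
    refine le_trans ?_ (Finset.single_le_sum (f := fun i => y i * th M R (al i)) (fun i _ => ?_)
      (Finset.mem_univ j))
    · exact le_mul_of_one_le_right (h0 _ (hy j)) (one_le_th h e)
    · by_cases hi : i ∈ R
      · rw [th_al h hi, mul_zero]
      · exact mul_nonneg (h0 _ (hy i)) (zero_le_one.trans (one_le_th h hi))

/-- A rank function for the values of the height. -/
theorem val_rank {DD : Set ℝ} (h0 : ∀ x ∈ DD, 0 ≤ x) (hf : ∀ C, {x ∈ DD | x ≤ C}.Finite) :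
    ∃ f : ℝ → ℕ, ∀ a b, b ∈ Val M DD → a < b → f a < f b :=
  ⟨fun a => {r ∈ Val M DD | r ≤ a}.ncard, fun _ b hb h => Set.ncard_lt_ncard
    ⟨fun _ hr => ⟨hr.1, hr.2.trans h.le⟩, fun c => (c ⟨hb, le_rfl⟩).2.not_gt h⟩ (val_finite h0 hf b)⟩

variable (M R) in
/-- A chart at the chamber `c`. -/
def Stp (c : M.Group) (Y : M.Group → S → ℝ) : Prop :=
  ∀ u ∈ WL M R, ∀ s ∈ R, ∃ k : ℝ, 0 ≤ k ∧
    Y (u * M.toCoxeterSystem.simple s) = Y u - k • rho M (c * u) (al s)

variable (M R) in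
/-- The polytope of a chart. -/
def Pl (Y : M.Group → S → ℝ) : Set (S → ℝ) := convexHull ℝ (Y '' (WL M R : Set M.Group))

variable (M R) in
open Classical in
/-- The walls of the chamber `w` that contain `m`. -/
noncomputable def Zr (w : M.Group) (m : (S → ℝ) →ₗ[ℝ] ℝ) : Finset S :=
  R.filter fun i => m (rho M w (al i)) = 0

variable (M R) in
/-- `u` is the shortest chamber of `m`. -/
structure Short (c : M.Group) (m : (S → ℝ) →ₗ[ℝ] ℝ) (u : M.Group) : Prop where
  mem : u ∈ WL M R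
  ch : Ch M R (c * u) m
  nd : ∀ i ∈ Zr M R (c * u) m, ¬M.toCoxeterSystem.IsRightDescent u i

variable {c u v : M.Group} {Y : M.Group → S → ℝ} {m : (S → ℝ) →ₗ[ℝ] ℝ} {p : S → ℝ}

theorem mem_Zr {i : S} : i ∈ Zr M R u m ↔ i ∈ R ∧ m (rho M u (al i)) = 0 := by simp [Zr]

theorem Zr_subset : Zr M R u m ⊆ R := fun _ h => (mem_Zr.1 h).1

theorem Stp.mono (h : Stp M R c Y) (hT : T ⊆ R) : Stp M T c Y :=
  fun u hu s hs => h u (WL_mono hT hu) s (hT hs)

theorem mem_Pl (hu : u ∈ WL M R) : Y u ∈ Pl M R Y := subset_convexHull _ _ ⟨u, hu, rfl⟩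

theorem Pl_le {K : Set (S → ℝ)} (hK : Convex ℝ K) (h : ∀ u ∈ WL M R, Y u ∈ K) : Pl M R Y ⊆ K :=
  convexHull_min (by rintro _ ⟨u, hu, rfl⟩; exact h u hu) hK

theorem Pl_mono {Y' : M.Group → S → ℝ} (h : ∀ u ∈ WL M T, ∃ v ∈ WL M R, Y' u = Y v) :
    Pl M T Y' ⊆ Pl M R Y := Pl_le (convex_convexHull _ _) fun u hu => by
  obtain ⟨v, hv, e⟩ := h u hu
  exact e ▸ mem_Pl hv

theorem Pl_empty : p ∈ Pl M ∅ Y ↔ p = Y 1 := by simp [Pl, WL]

theorem le_of_Pl {r : ℝ} (h : ∀ u ∈ WL M R, m (Y u) ≤ r) (hp : p ∈ Pl M R Y) : m p ≤ r :=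
  Pl_le (convex_halfSpace_le m.isLinear r) h hp

theorem ge_of_Pl {r : ℝ} (h : ∀ u ∈ WL M R, r ≤ m (Y u)) (hp : p ∈ Pl M R Y) : r ≤ m p :=
  Pl_le (convex_halfSpace_ge m.isLinear r) h hp

theorem pos_of_Pl {f : (S → ℝ) →ₗ[ℝ] (S → ℝ)} (h : ∀ u ∈ WL M R, Pos (f (Y u)))
    (hp : p ∈ Pl M R Y) : Pos (f p) := fun i =>
  ge_of_Pl (m := (LinearMap.proj i).comp f) (fun u hu => h u hu i) hp

/-- CV -/
theorem Stp.cv (h : Stp M R c Y) (hu : u ∈ WL M R) (hv : v ∈ WL M R) :
    Cn R (rho M (c * u)⁻¹ (Y u - Y v)) := by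
  have := ind (P := fun x => Cn R (rho M (c * u)⁻¹ (Y u - Y (u * x))))
    ⟨fun i => by simp, fun i _ => by simp⟩ (fun w hw s hs p ih => by
      obtain ⟨k, k0, e⟩ := h _ (mul_mem hu hw) s hs
      rw [← mul_assoc, e, ← sub_add, map_add, map_smul, ← mul_assoc, rho_mul M (c * u), rho_inv]
      exact ih.add ((cn_root hw hs p).smul k0)) (mul_mem (inv_mem hu) hv)
  rwa [mul_inv_cancel_left] at this

theorem Stp.le (h : Stp M R c Y) (hu : u ∈ WL M R) (hv : v ∈ WL M R) (hm : Ch M R (c * u) m) :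
    m (Y v) ≤ m (Y u) := by
  have := hm.nonneg (h.cv hu hv)
  rwa [map_sub, sub_nonneg] at this

theorem Stp.sup (h : Stp M R c Y) (hp : p ∈ Pl M R Y) : Sup R (rho M c⁻¹ (p - Y 1)) := by
  intro i hi
  have e : ∀ u ∈ WL M R, ((LinearMap.proj i).comp (rho M c⁻¹) : _ →ₗ[ℝ] ℝ) (Y u) =
      rho M c⁻¹ (Y 1) i := fun u hu => by
    have := (h.cv (one_mem _) hu).2 i hi
    rw [mul_one, map_sub, Pi.sub_apply, sub_eq_zero] at this
    exact this.symm
  rw [map_sub, Pi.sub_apply, sub_eq_zero]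
  exact le_antisymm (le_of_Pl (fun u hu => (e u hu).le) hp) (ge_of_Pl (fun u hu => (e u hu).ge) hp)

theorem Stp.sup' (h : Stp M R c Y) {q : S → ℝ} (hp : p ∈ Pl M R Y) (hq : q ∈ Pl M R Y) :
    Sup R (rho M c⁻¹ (p - q)) := by
  have := (h.sup hp).sub (h.sup hq)
  rwa [← map_sub, sub_sub_sub_cancel_right] at this

theorem fix_Zr {w : M.Group} (hv : v ∈ WL M (Zr M R w m)) (x : S → ℝ) :
    m (rho M (w * v) x) = m (rho M w x) := by
  have := expand (m.comp (rho M w)) (rho M v x - x)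
  rw [map_sub, Finset.sum_eq_zero fun i _ => ?_, sub_eq_zero] at this
  · rw [rho_mul]; exact this
  · by_cases hi : i ∈ Zr M R w m ∨ i ∉ R
    · rcases hi with hi | hi
      · rw [LinearMap.comp_apply, (mem_Zr.1 hi).2, mul_zero]
      · rw [Pi.sub_apply, coord hv fun e => hi (Zr_subset e), sub_self, zero_mul]
    · rw [Pi.sub_apply, coord hv fun e => hi (Or.inl e), sub_self, zero_mul]

theorem Zr_mul {w : M.Group} (hv : v ∈ WL M (Zr M R w m)) : Zr M R (w * v) m = Zr M R w m := by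
  ext i
  rw [mem_Zr, mem_Zr, fix_Zr hv]

theorem exists_short (h : Sph M R) (c : M.Group) (m : (S → ℝ) →ₗ[ℝ] ℝ) : ∃ u, Short M R c m u := by
  obtain ⟨v, hv, cv⟩ := chamber (sph_finite h) (m.comp (rho M c))
  obtain ⟨u, ⟨hu, cu⟩, mn⟩ := WellFounded.has_min (measure M.toCoxeterSystem.length).wf
    {u | u ∈ WL M R ∧ Ch M R (c * u) m} ⟨v, hv, Ch.mul.2 cv⟩
  refine ⟨u, hu, cu, fun i hi d => mn _ ⟨mul_mem hu (simple_mem (Zr_subset hi)), fun s hs => ?_⟩ d⟩
  rw [← mul_assoc, fix_Zr (simple_mem hi)]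
  exact cu s hs

/-- Walking towards a chamber `u` of `m` across walls on which `m` is negative. -/
theorem walk (hu : u ∈ WL M R) (hm : Ch M R (c * u) m) {P : M.Group → Prop}
    (h0 : ∀ v ∈ WL M (Zr M R (c * u) m), P (u * v))
    (hs : ∀ v ∈ WL M R, ∀ s ∈ R, m (rho M (c * v) (al s)) ≤ 0 →
      M.toCoxeterSystem.IsRightDescent (u⁻¹ * v) s →
      P (v * M.toCoxeterSystem.simple s) → m (rho M (c * v) (al s)) = 0 ∨ P v)
    (hz : ∀ v ∈ WL M R, ∀ s ∈ R, m (rho M (c * v) (al s)) = 0 →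
      P (v * M.toCoxeterSystem.simple s) → P v) (hv : v ∈ WL M R) : P v := by
  have := ind (P := fun x => P (u * x)) (h0 1 (one_mem _)) (fun w hw s h p ih => by
    have a : m (rho M (c * (u * (w * M.toCoxeterSystem.simple s))) (al s)) ≤ 0 := by
      rw [← mul_assoc, rho_mul, rho_mul M w, rho_simple, rf_self, map_neg, map_neg, map_neg,
        neg_nonpos]
      exact hm.nonneg (by rw [rho_inv]; exact cn_root hw h p)
    have b := mul_mem hu (mul_mem hw (simple_mem (M := M) h))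
    have e : P (u * (w * M.toCoxeterSystem.simple s) * M.toCoxeterSystem.simple s) := by
      rwa [mul_assoc, M.toCoxeterSystem.simple_mul_simple_cancel_right]
    refine (hs _ b s h a ?_ e).elim (fun z => hz _ b s h z e) id
    rw [inv_mul_cancel_left, descent_iff, rho_mul, rho_simple, rf_self, map_neg, neg_neg]
    exact p) (mul_mem (inv_mem hu) hv)
  rwa [mul_inv_cancel_left] at this

/-- Two chambers of `m` differ by an element of the stabiliser. -/
theorem ch_res (hu : u ∈ WL M R) (hv : v ∈ WL M R) (h : Ch M R (c * u) m)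
    (h' : Ch M R (c * v) m) : u⁻¹ * v ∈ WL M (Zr M R (c * u) m) := by
  refine walk hu h (P := fun v => Ch M R (c * v) m → u⁻¹ * v ∈ WL M (Zr M R (c * u) m))
    (fun v hv _ => by rwa [inv_mul_cancel_left]) (fun v _ s hs a _ _ => ?_)
    (fun v _ s hs z ih k => ?_) hv h'
  · exact a.lt_or_eq.symm.imp_right fun l k => absurd (k s hs) l.not_ge
  · have f := fix_Zr (R := R) (simple_mem (M := M) (mem_Zr.2 ⟨hs, z⟩))
    have m1 := ih fun t ht => by rw [← mul_assoc, f]; exact k t ht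
    have : s ∈ Zr M R (c * u) m := by
      rw [← Zr_mul m1, mul_assoc, mul_inv_cancel_left, mem_Zr, ← mul_assoc, f]
      exact ⟨hs, z⟩
    have m2 := mul_mem m1 (simple_mem (M := M) this)
    rwa [mul_assoc, M.toCoxeterSystem.simple_mul_simple_cancel_right] at m2

theorem Short.unique (h : Short M R c m u) (h' : Short M R c m v) : u = v := by
  have r := ch_res h.mem h'.mem h.ch h'.ch
  have z := Zr_mul r
  rw [mul_assoc, mul_inv_cancel_left] at z
  refine inv_mul_eq_one.1 (eq_one_of_pos r fun s hs => (dichotomy M _ s).resolve_right fun n => ?_)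
  refine h'.nd s (z ▸ hs) (descent_iff.2 fun i => ?_)
  have := Cn.nonneg (L := Zr M R (c * u) m) (x := -rho M (u⁻¹ * v) (al s))
    ⟨n, ((sup_al hs).rho r).neg⟩ (θ := (LinearMap.proj i).comp (rho M u))
    fun t ht => pos_of_not_descent M u t (h.nd t ht) i
  rwa [LinearMap.comp_apply, map_neg, ← rho_mul, mul_inv_cancel_left] at this

/-- FACE for a vertex. -/
theorem Stp.face (h : Stp M R c Y) (hu : u ∈ WL M R) (hm : Ch M R (c * u) m) (hv : v ∈ WL M R)
    (hl : m (Y u) ≤ m (Y v)) : ∃ x ∈ WL M (Zr M R (c * u) m), Y v = Y (u * x) := by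
  induction hn : M.toCoxeterSystem.length (u⁻¹ * v) using Nat.strong_induction_on
    generalizing v with
  | _ n ih =>
  by_cases k : Ch M R (c * v) m
  · exact ⟨_, ch_res hu hv hm k, by rw [mul_inv_cancel_left]⟩
  simp only [Ch, not_forall, not_le] at k
  obtain ⟨s, hs, l⟩ := k
  obtain ⟨k, k0, e⟩ := h v hv s hs
  have b := mul_mem hv (simple_mem (M := M) hs)
  have a := h.le hu b hm
  rw [e, map_sub, map_smul, smul_eq_mul] at a
  have z : k = 0 := by nlinarith
  rw [z, zero_smul, sub_zero] at e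
  have d : M.toCoxeterSystem.IsRightDescent (u⁻¹ * v) s := by_contra fun n => l.not_ge <|
    hm.nonneg (by
      rw [← rho_mul, show (c * u)⁻¹ * (c * v) = u⁻¹ * v by group]
      exact cn_root (mul_mem (inv_mem hu) hv) hs (pos_of_not_descent M _ _ n))
  rw [← e] at hl ⊢
  exact ih _ (by rw [← hn, ← mul_assoc]; exact d) b hl rfl

theorem hull_max {A : Set (S → ℝ)} (hp : p ∈ convexHull ℝ A) (h : ∀ a ∈ A, m a ≤ m p) :
    p ∈ convexHull ℝ {a ∈ A | m a = m p} := by
  have := convexHull_min (s := A)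
    (t := {x | m x < m p ∨ (m x = m p ∧ x ∈ convexHull ℝ {a ∈ A | m a = m p})})
    (fun a ha => (h a ha).lt_or_eq.imp_right fun e => ⟨e, subset_convexHull _ _ ⟨ha, e⟩⟩)
    (convex_iff_forall_pos.2 fun x hx y hy a b a0 b0 ab => by
      have e : m (a • x + b • y) = a * m x + b * m y := by simp
      have f : m p = a * m p + b * m p := by rw [← add_mul, ab, one_mul]
      rcases hx with hx | hx <;> rcases hy with hy | hy
      · exact Or.inl (by rw [e]; nlinarith)
      · exact Or.inl (by rw [e, hy.1]; nlinarith)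
      · exact Or.inl (by rw [e, hx.1]; nlinarith)
      · exact Or.inr ⟨by rw [e, hx.1, hy.1, ← f],
          convex_convexHull _ _ hx.2 hy.2 a0.le b0.le ab⟩) hp
  exact (this.resolve_left (lt_irrefl _)).2

/-- FACE for a point of the polytope. -/
theorem Stp.face_Pl (h : Stp M R c Y) (hu : u ∈ WL M R) (hm : Ch M R (c * u) m)
    (hp : p ∈ Pl M R Y) (hl : ∀ v ∈ WL M R, m (Y v) ≤ m p) :
    p ∈ Pl M (Zr M R (c * u) m) fun x => Y (u * x) := by
  refine convexHull_mono ?_ (hull_max hp (by rintro _ ⟨v, hv, rfl⟩; exact hl v hv))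
  rintro _ ⟨⟨v, hv, rfl⟩, e⟩
  obtain ⟨x, hx, k⟩ := h.face hu hm hv (e ▸ hl u hu)
  exact ⟨x, hx, k.symm⟩

/-- A point of the polytope killed by a map that is nonnegative at the vertices. -/
theorem exists_zero {f : (S → ℝ) →ₗ[ℝ] (S → ℝ)} (h : ∀ u ∈ WL M R, Pos (f (Y u)))
    (hp : p ∈ Pl M R Y) (h0 : f p = 0) : ∃ u ∈ WL M R, f (Y u) = 0 := by
  have := hull_max (m := -(ht.comp f)) hp (by
    rintro _ ⟨v, hv, rfl⟩
    simpa [h0] using ht_nonneg (h v hv))
  obtain ⟨_, ⟨v, hv, rfl⟩, e⟩ := convexHull_nonempty_iff.1 ⟨p, this⟩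
  refine ⟨v, hv, funext fun i => ?_⟩
  have e' : ∑ i, f (Y v) i = 0 := by simpa [h0, ht_apply] using e
  exact (Finset.sum_eq_zero_iff_of_nonneg fun i _ => h v hv i).1 e' i (Finset.mem_univ i)

variable (M R) in
/-- The point of least norm. -/
def Opt (Y : M.Group → S → ℝ) (p : S → ℝ) : Prop :=
  p ∈ Pl M R Y ∧ ∀ u ∈ WL M R, bf M p (Y u) ≤ bf M p p

theorem exists_opt (h : Sph M R) (Y : M.Group → S → ℝ) : ∃ p, Opt M R Y p := by
  have f : (WL M R : Set M.Group).Finite := sph_finite h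
  obtain ⟨p, hp, mx⟩ := ((f.image Y).isCompact_convexHull ℝ).exists_isMaxOn
    ⟨_, mem_Pl (one_mem _)⟩ (f := fun x => bf M x x) (Continuous.continuousOn
      (continuous_finsetSum _ fun i _ =>
        (continuous_apply i).mul (ip M i).continuous_of_finiteDimensional))
  refine ⟨p, hp, fun u hu => not_lt.1 fun c => ?_⟩
  rw [← sub_pos, ← bf_sub_r] at c
  obtain ⟨t, ⟨h2, h3⟩, t0⟩ := (((small (fun _ : Unit => bf M p (Y u - p))
    fun _ => bf M (Y u - p) (Y u - p)).and (small (fun _ : Unit => 1) fun _ => -1)).and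
    self_mem_nhdsWithin).exists
  have t0 : 0 < t := t0
  have a : bf M _ _ ≤ bf M p p := mx ((convex_convexHull ℝ _).add_smul_sub_mem hp (mem_Pl hu)
    ⟨t0.le, by linarith [h3 () one_pos]⟩)
  rw [bf_add_smul, bf_symm M p, bf_add_smul, bf_symm M (Y u - p) (p + _), bf_add_smul,
    bf_symm M (Y u - p) p] at a
  nlinarith [h2 () c, mul_pos t0 c]

theorem Opt.unique (hR : Sph M R) (h : Stp M R c Y) {q : S → ℝ} (hp : Opt M R Y p)
    (hq : Opt M R Y q) : p = q := by
  have a := le_of_Pl (m := bL M p) (fun u hu => by rw [bL_apply]; exact hp.2 u hu) hq.1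
  have b := le_of_Pl (m := bL M q) (fun u hu => by rw [bL_apply]; exact hq.2 u hu) hp.1
  rw [bL_apply] at a b
  by_contra c
  have := hR _ (h.sup' hp.1 hq.1) fun e => c (by
    rw [← sub_eq_zero, ← rho_inv' _ (p - q), e, map_zero])
  rw [bf_rho, bf_sub_l, bf_sub_r, bf_sub_r] at this
  linarith

theorem Opt.face (h : Stp M R c Y) (hp : Opt M R Y p) (hu : Short M R c (bL M p) u) :
    p ∈ Pl M (Zr M R (c * u) (bL M p)) fun x => Y (u * x) :=
  h.face_Pl hu.mem hu.ch hp.1 fun v hv => by rw [bL_apply, bL_apply]; exact hp.2 v hv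

end Pool.Agent.HT.Chart
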