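import Pool.Agent.Lib.HT.FS.Tau
import Pool.Agent.Lib.HT.Sph

set_option autoImplicit false
set_option linter.unusedSectionVars false

/-! Grounded elements below an element: existence and uniqueness. -/

namespace Pool.Agent.HT

open Pool.Agent.Lib.MP_6d85b4_al CoxeterSystem

variable {S : Type} [Fintype S] [DecidableEq S] {M : CoxeterMatrix S}

namespace Gr

/-- `g` is `k` times a positive word in `R`. -/
def Le (R : Finset S) (k g : Art M) : Prop :=
  ∃ l : List S, (∀ s ∈ l, s ∈ R) ∧ g = k * (l.map (gen M)).prod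

variable {R R' : Finset S} {X : Set (Art M)}

theorem Le.refl (g : Art M) : Le R g g := ⟨[], by simp, by simp⟩

theorem Le.trans {a b c : Art M} (h : Le R a b) (h' : Le R b c) : Le R a c := by
  obtain ⟨l, hl, rfl⟩ := h
  obtain ⟨l', hl', rfl⟩ := h'
  refine ⟨l ++ l', fun s hs => ?_, by simp [mul_assoc]⟩
  rcases List.mem_append.1 hs with h | h
  exacts [hl s h, hl' s h]

theorem Le.mono (hR : R ⊆ R') {a b : Art M} (h : Le R a b) : Le R' a b := by
  obtain ⟨l, hl, e⟩ := h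
  exact ⟨l, fun s hs => hR (hl s hs), e⟩

theorem le_gen {s : S} (hs : s ∈ R) (g : Art M) : Le R g (g * gen M s) :=
  ⟨[s], by simpa using hs, by simp⟩

theorem le_inv {s : S} (hs : s ∈ R) (g : Art M) : Le R (g * (gen M s)⁻¹) g := by
  simpa using le_gen hs (g * (gen M s)⁻¹)

theorem le_tau {w : M.Group} (hw : w ∈ WP M R) (g : Art M) : Le R g (g * tau M w) := by
  refine Core.ind (P := fun w => Le R g (g * tau M w)) (by simpa using Le.refl g)
    (fun w _ s hs p ih => ?_) hw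
  rw [tau_mul_simple (fun c => not_pos_neg p (descent_iff.1 c)), ← mul_assoc]
  exact ih.trans (le_gen hs _)

theorem Le.cases {k g : Art M} (h : Le R k g) :
    k = g ∨ ∃ s ∈ R, Le R k (g * (gen M s)⁻¹) := by
  obtain ⟨l, hl, rfl⟩ := h
  induction l using List.reverseRecOn with
  | nil => left; simp
  | append_singleton l s _ =>
    exact Or.inr ⟨s, hl s (by simp), l, fun t ht => hl t (by simp [ht]), by simp [mul_assoc]⟩

theorem Le.ind {k : Art M} {P : Art M → Prop} (h0 : P k)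
    (hs : ∀ g, ∀ s ∈ R, Le R k g → P g → P (g * gen M s)) {g : Art M} (h : Le R k g) : P g := by
  obtain ⟨l, hl, rfl⟩ := h
  induction l using List.reverseRecOn with
  | nil => simpa using h0
  | append_singleton l s ih =>
    have h1 : ∀ t ∈ l, t ∈ R := fun t ht => hl t (by simp [ht])
    simpa [mul_assoc] using hs _ s (hl s (by simp)) ⟨l, h1, rfl⟩ (ih h1)

theorem Le.deg_le {k g : Art M} (h : Le R k g) : deg M k ≤ deg M g := by
  obtain ⟨l, -, rfl⟩ := h
  rw [deg_mul, deg_word]; omega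

theorem Le.up (h1 : ∀ g ∈ X, ∀ s, g * gen M s ∈ X) {k g : Art M} (h : Le R k g) (hk : k ∈ X) :
    g ∈ X := h.ind (P := fun g => g ∈ X) hk (fun g s _ _ hg => h1 g hg s)

theorem Le.down (h1 : ∀ g ∈ X, ∀ s, g * (gen M s)⁻¹ ∈ X) {k g : Art M} (h : Le R k g)
    (hg : g ∈ X) : k ∈ X :=
  h.ind (P := fun g => g ∈ X → k ∈ X) id (fun g s _ _ ih hg => ih (by simpa using h1 _ hg s)) hg

theorem exists_aux {g : Art M} (hg : g ∈ X) {m : ℤ} (hm : ∀ k ∈ X, Le R k g → m ≤ deg M k) :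
    ∃ k ∈ X, Le R k g ∧ ∀ s ∈ R, k * (gen M s)⁻¹ ∉ X := by
  obtain ⟨d, ⟨k, hk, h1, rfl⟩, hd⟩ := Int.exists_least_of_bdd
    (P := fun d => ∃ k ∈ X, Le R k g ∧ deg M k = d)
    ⟨m, by rintro _ ⟨k, hk, h1, rfl⟩; exact hm k hk h1⟩ ⟨_, g, hg, Le.refl g, rfl⟩
  refine ⟨k, hk, h1, fun s hs c => ?_⟩
  have := hd _ ⟨_, c, (le_inv hs k).trans h1, rfl⟩
  rw [deg_mul, deg_inv, deg_gen] at this
  omega

theorem unique_aux (hR : Sph M R) (h1 : ∀ g ∈ X, ∀ s, g * gen M s ∈ X)
    (h2 : ∀ g ∈ X, ∀ T : Finset S, (∀ s ∈ T, g * (gen M s)⁻¹ ∈ X) → ∀ w ∈ WP M T,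
      g * (tau M w)⁻¹ ∈ X)
    {g : Art M} {m : ℤ} (hm : ∀ k ∈ X, Le R k g → m ≤ deg M k) {k k' : Art M}
    (hk : k ∈ X) (hk' : k' ∈ X) (l : Le R k g) (l' : Le R k' g)
    (n : ∀ s ∈ R, k * (gen M s)⁻¹ ∉ X) (n' : ∀ s ∈ R, k' * (gen M s)⁻¹ ∉ X) : k = k' := by
  induction hn : (deg M g - m).toNat using Nat.strong_induction_on generalizing g k k' with
  | _ N ih =>
    have hg : g ∈ X := l.up h1 hk
    have step : ∀ s ∈ R, ∀ a b : Art M, a ∈ X → b ∈ X → Le R a (g * (gen M s)⁻¹) →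
        Le R b (g * (gen M s)⁻¹) → (∀ s ∈ R, a * (gen M s)⁻¹ ∉ X) →
        (∀ s ∈ R, b * (gen M s)⁻¹ ∉ X) → a = b := by
      intro s hs a b ha hb la lb na nb
      refine ih _ ?_ (fun k hk h => hm k hk (h.trans (le_inv hs g))) ha hb la lb na nb rfl
      have e1 := hm a ha (la.trans (le_inv hs g))
      have e2 := la.deg_le
      rw [deg_mul, deg_inv, deg_gen] at e2 ⊢
      omega
    rcases l.cases with rfl | ⟨s, hs, ls⟩
    · rcases l'.cases with e | ⟨t, ht, lt⟩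
      · exact e.symm
      · exact absurd (lt.up h1 hk') (n t ht)
    rcases l'.cases with rfl | ⟨t, ht, lt⟩
    · exact absurd (ls.up h1 hk) (n' s hs)
    have hT : ({s, t} : Finset S) ⊆ R := by
      intro x hx
      rcases Finset.mem_insert.1 hx with rfl | hx
      · exact hs
      · rw [Finset.mem_singleton.1 hx]; exact ht
    obtain ⟨w, hw, hd⟩ := exists_w0 (hR.mono hT)
    have hc : g * (tau M w)⁻¹ ∈ X := by
      refine h2 g hg _ (fun x hx => ?_) w hw
      rcases Finset.mem_insert.1 hx with rfl | hx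
      · exact ls.up h1 hk
      · rw [Finset.mem_singleton.1 hx]; exact lt.up h1 hk'
    have lc : ∀ x ∈ ({s, t} : Finset S), Le R (g * (tau M w)⁻¹) (g * (gen M x)⁻¹) := by
      intro x hx
      have := le_tau (WP_mono hT (mul_mem hw (simple_mem_WP hx))) (g * (tau M w)⁻¹)
      rwa [tau_rightDescent (descent_iff.2 (hd x hx)), mul_inv_rev, mul_assoc, mul_assoc,
        inv_mul_cancel, mul_one, ← mul_assoc, mul_assoc g, ← mul_inv_rev,
        ← tau_rightDescent (descent_iff.2 (hd x hx))] at this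
    have l1 := lc s (by simp)
    have l2 := lc t (by simp)
    obtain ⟨c, c1, c2, c3⟩ := exists_aux hc (m := m)
      (fun k hk h => hm k hk (h.trans (l1.trans (le_inv hs g))))
    exact (step s hs k c hk c1 ls (c2.trans l1) n c3).trans
      (step t ht c k' c1 hk' (c2.trans l2) lt c3 n')

theorem Le.pr_mem {k g : Art M} (h : Le R k g) : (pr M k)⁻¹ * pr M g ∈ WP M R := by
  refine h.ind (P := fun g => (pr M k)⁻¹ * pr M g ∈ WP M R) (by simp)
    (fun g s hs _ ih => ?_)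
  rw [map_mul, pr_gen, ← mul_assoc]
  exact mul_mem ih (simple_mem_WP hs)

/-- The three properties of `X` that are used. -/
structure Sys (X : Set (Art M)) : Prop where
  up : ∀ g ∈ X, ∀ s, g * gen M s ∈ X
  a2 : ∀ g ∈ X, ∀ T : Finset S, (∀ s ∈ T, g * (gen M s)⁻¹ ∈ X) → ∀ w ∈ WP M T,
    g * (tau M w)⁻¹ ∈ X
  term : ∀ R, Sph M R → ∀ g ∈ X, ∃ m : ℤ, ∀ k ∈ X, Le R k g → m ≤ deg M k

/-- `k` lies below `g` and is grounded. -/
structure IsGr (X : Set (Art M)) (R : Finset S) (g k : Art M) : Prop where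
  mem : k ∈ X
  le : Le R k g
  soc : ∀ s ∈ R, k * (gen M s)⁻¹ ∉ X

/-- The grounded element below `g`. -/
noncomputable def gr (X : Set (Art M)) (g : Art M) (R : Finset S) : Art M :=
  Classical.epsilon (IsGr X R g)

variable {g k : Art M}

theorem Sys.spec (h : Sys X) (hR : Sph M R) (hg : g ∈ X) : IsGr X R g (gr X g R) := by
  obtain ⟨m, hm⟩ := h.term R hR g hg
  obtain ⟨k, h1, h2, h3⟩ := exists_aux hg hm
  exact Classical.epsilon_spec ⟨k, h1, h2, h3⟩

theorem Sys.unique (h : Sys X) (hR : Sph M R) {k' : Art M} (a : IsGr X R g k)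
    (b : IsGr X R g k') : k = k' := by
  obtain ⟨m, hm⟩ := h.term R hR g (a.le.up h.up a.mem)
  exact unique_aux hR h.up h.a2 hm a.mem b.mem a.le b.le a.soc b.soc

theorem Sys.eq (h : Sys X) (hR : Sph M R) (a : IsGr X R g k) : gr X g R = k :=
  h.unique hR (h.spec hR (a.le.up h.up a.mem)) a

theorem Sys.self (h : Sys X) (hR : Sph M R) (hg : g ∈ X) (n : ∀ s ∈ R, g * (gen M s)⁻¹ ∉ X) :
    gr X g R = g := h.eq hR ⟨hg, Le.refl g, n⟩

theorem Sys.of_le (h : Sys X) (hR : Sph M R) (hk : k ∈ X) (l : Le R k g) :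
    gr X g R = gr X k R :=
  h.eq hR ⟨(h.spec hR hk).mem, (h.spec hR hk).le.trans l, (h.spec hR hk).soc⟩

theorem Sys.common (h : Sys X) (hR : Sph M R) (hk : k ∈ X) {g' : Art M} (l : Le R k g)
    (l' : Le R k g') : gr X g R = gr X g' R := (h.of_le hR hk l).trans (h.of_le hR hk l').symm

theorem Sys.gr_gr (h : Sys X) (hR : Sph M R') (hs : R ⊆ R') (hg : g ∈ X) :
    gr X (gr X g R) R' = gr X g R' :=
  (h.of_le hR (h.spec (hR.mono hs) hg).mem ((h.spec (hR.mono hs) hg).le.mono hs)).symm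

theorem Sys.gr_tau (h : Sys X) (hR : Sph M R) (hg : g ∈ X) {w : M.Group} (hw : w ∈ WP M R) :
    gr X (g * tau M w) R = gr X g R := h.of_le hR hg (le_tau hw g)

theorem Sys.gr_gen (h : Sys X) (hR : Sph M R) (hg : g ∈ X) {s : S} (hs : s ∈ R) :
    gr X (g * gen M s) R = gr X g R := h.of_le hR hg (le_gen hs g)

theorem Sys.empty (h : Sys X) (hg : g ∈ X) : gr X g ∅ = g :=
  h.self sph_empty hg (fun s hs => absurd hs (Finset.notMem_empty s))

end Gr

end Pool.Agent.HT
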