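import Pool.Agent.Lib.HT.FS.Par
import Pool.Agent.Lib.HT.FS.Gr
import Pool.Agent.Lib.HT.FS.Chart
import Pool.Agent.Lib.HT.FS.Abs

set_option autoImplicit false
set_option linter.unusedSectionVars false

/-! Flow systems on Artin groups: definitions and the statements of the blocks. The invariant
form of the paper is `(x, y) = -bf M x y`. -/

namespace Pool.Agent.HT.FS

open Pool.Agent.Lib.MP_6d85b4_al Pool.Agent.HT.Core Pool.Agent.HT.Gr Pool.Agent.HT.Chart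

variable {S : Type} [Fintype S] [DecidableEq S] (M : CoxeterMatrix S)

/-- Length. -/
noncomputable abbrev ln (w : M.Group) : ℕ := M.toCoxeterSystem.length w

/-- Simple reflection. -/
abbrev sm (s : S) : M.Group := M.toCoxeterSystem.simple s

/-- Left descent. -/
abbrev LD (w : M.Group) (s : S) : Prop := M.toCoxeterSystem.IsLeftDescent w s

/-- Right descent. -/
abbrev RD (w : M.Group) (s : S) : Prop := M.toCoxeterSystem.IsRightDescent w s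

/-- `u` is a prefix of `w`. -/
def Pre (u w : M.Group) : Prop := ln M w = ln M u + ln M (u⁻¹ * w)

/-- Coordinates in the frame of `g`. -/
noncomputable abbrev loc (g : Art M) : Module.End ℝ (S → ℝ) := rho M (pr M g)⁻¹

/-- The simple roots of the frame of `g`. -/
noncomputable abbrev rt (g : Art M) (i : S) : S → ℝ := rho M (pr M g) (al i)

/-- Connection by edges inside `Z`. -/
def Conn (Z : Set (Art M)) : Art M → Art M → Prop :=
  Relation.EqvGen (fun a b => a ∈ Z ∧ b ∈ Z ∧ ∃ s, b = a * gen M s)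

/-- A flow system without termination. -/
structure Sys where
  X : Set (Art M)
  X' : Set (Art M)
  y : Art M → S → ℝ
  DD : Set ℝ
  sub : X' ⊆ X
  upX : ∀ g ∈ X, ∀ s, g * gen M s ∈ X
  upX' : ∀ g ∈ X', ∀ s, g * gen M s ∈ X'
  a2 : ∀ g ∈ X, ∀ R : Finset S, (∀ i ∈ R, g * (gen M i)⁻¹ ∈ X) →
    ∀ w ∈ WL M R, g * (tau M w)⁻¹ ∈ X
  a4 : ∀ g ∈ X, ∀ R : Finset S, (∀ i ∈ R, g * (gen M i)⁻¹ ∉ X) →
    ∀ u ∈ WL M R, ∀ i ∈ R, ¬RD M u i → g * tau M u * (gen M i)⁻¹ ∉ X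
  a5 : ∀ g ∈ X, g ∉ X' → ∃ s, g * (gen M s)⁻¹ ∉ X
  a6 : ∀ g ∈ X, ∀ s w, g * (gen M s)⁻¹ ∉ X → g * tau M w ∈ X' → LD M w s
  a8 : ∀ g ∈ X, ∀ s, ∃ k : ℝ, 0 ≤ k ∧ y (g * gen M s) = y g - k • rt M g s
  a9 : ∀ g ∈ X, ∀ w, Pos (loc M g (y (g * tau M w)))
  a9z : ∀ g ∈ X, (y g = 0 ↔ g ∈ X')
  a9n : ∀ g ∈ X, ∀ w u, g * tau M w ∈ X' → Pos (-loc M (g * tau M w) (y (g * tau M u)))
  a10 : ∀ h ∈ X, ∀ j w, h * (gen M j)⁻¹ ∈ X → LD M w j → 0 ≤ bf M (y (h * tau M w)) (rt M h j)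
  a10y : ∀ h ∈ X, ∀ j w, h * (gen M j)⁻¹ ∈ X → LD M w j → bf M (y (h * tau M w)) (rt M h j) = 0 →
    y (h * tau M (sm M j * w)) = y (h * tau M w)
  a10s : ∀ h ∈ X, ∀ j w, h * (gen M j)⁻¹ ∈ X → LD M w j → bf M (y (h * tau M w)) (rt M h j) = 0 →
    ∀ i, ¬RD M w i → h * tau M w * (gen M i)⁻¹ ∉ X → h * tau M (sm M j * w) * (gen M i)⁻¹ ∉ X
  a12 : ∀ g ∈ X, ∀ s, loc M g (y g) s ∈ DD
  a12n : ∀ x ∈ DD, 0 ≤ x
  a12f : ∀ C, {x ∈ DD | x ≤ C}.Finite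

/-- Triples: an element, a set of generators, a point. -/
structure Tr where
  g : Art M
  R : Finset S
  p : S → ℝ

variable {M}

/-- The height. -/
noncomputable def Tr.phi (a : Tr M) : ℝ := ht (loc M a.g a.p)

open Classical in
/-- The directions in which the point can be improved. -/
noncomputable def Tr.J (a : Tr M) : Finset S :=
  Finset.univ.filter fun j => bf M a.p (rt M a.g j) < 0

namespace Sys

variable (F : Sys M)

/-- Grounded pairs. -/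
def Gd (g : Art M) (R : Finset S) : Prop := g ∈ F.X ∧ ∀ i ∈ R, g * (gen M i)⁻¹ ∉ F.X

/-- Lower windows (a1, a3). -/
structure IsLo (Lo : Set (Art M)) : Prop where
  dn : ∀ g ∈ Lo, ∀ s, g * (gen M s)⁻¹ ∈ Lo
  up : ∀ g ∈ Lo, ∀ R, F.Gd g R → ∀ w ∈ WL M R, g * tau M w ∈ Lo

/-- Termination of downward moves in a spherical parabolic subgroup. -/
def Term : Prop := ∀ R, Sph M R → ∀ g ∈ F.X, ∃ m : ℤ, ∀ k ∈ F.X, Le R k g → m ≤ deg M k

/-- One reduced word leads from `g` into `X'`. -/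
def Fn (g : Art M) : Prop := ∃ w, g * tau M w ∈ F.X'

/-- `u` is the least element leading from `g` into `X'`. -/
def IsU (g : Art M) (u : M.Group) : Prop :=
  g * tau M u ∈ F.X' ∧ ∀ w, g * tau M w ∈ F.X' → Pre M u w

/-- The end point of the greedy path. -/
noncomputable def en (g : Art M) : Art M := g * tau M (Classical.epsilon (F.IsU g))

/-- The vertices of the chart of `g`. -/
noncomputable def Y (g : Art M) (u : M.Group) : S → ℝ := F.y (g * tau M u)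

/-- States. -/
structure St (a : Tr M) : Prop where
  gd : F.Gd a.g a.R
  sph : Sph M a.R
  mem : a.p ∈ Pl M a.R (F.Y a.g)
  perp : ∀ i ∈ a.R, bf M a.p (rt M a.g i) = 0

/-- `a` is the core of the grounded pair `(g0, T)`. -/
def IsCore (g0 : Art M) (T : Finset S) (a : Tr M) : Prop :=
  ∃ u, Opt M T (F.Y g0) a.p ∧ Short M T (pr M g0) (Aff.bL M a.p) u ∧ a.g = g0 * tau M u ∧
    a.R = Zr M T (pr M g0 * u) (Aff.bL M a.p)

/-- The core of the class of `g`. -/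
noncomputable def N (g : Art M) (T : Finset S) : Tr M :=
  @Classical.epsilon _ ⟨⟨g, T, 0⟩⟩ (F.IsCore (gr F.X g T) T)

/-- Block FIN (F0, F1, F2). -/
structure FinStmt : Prop where
  isU : ∀ g ∈ F.X, F.Fn g → F.IsU g (Classical.epsilon (F.IsU g))
  self : ∀ g ∈ F.X', F.Fn g ∧ F.en g = g
  lo : ∀ Lo, F.IsLo Lo → ∀ g ∈ F.X, g ∈ Lo → F.Fn g → F.en g ∈ F.X' ∩ Lo
  down : ∀ Lo, F.IsLo Lo → ∀ R k g, k ∈ F.X → Le R k g → g ∈ Lo → F.Fn g →
    F.Fn k ∧ Conn M (F.X' ∩ Lo) (F.en k) (F.en g)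
  chart : ∀ g R, F.Gd g R → F.Fn g → ∀ u ∈ WL M R, F.Fn (g * tau M u)
  retract : ∀ R k g, k ∈ F.X → Le R k g →
    (∀ a, Le R k a → ∃ w ∈ WL M R, a * tau M w ∈ F.X') →
    ∃ u ∈ WL M R, ∃ u' ∈ WL M R, F.en k = k * tau M u ∧ F.en g = g * tau M u' ∧
      Le R (F.en k) (F.en g)

/-- Block CORE. -/
structure CoreStmt : Prop where
  spec : ∀ g ∈ F.X, ∀ T, Sph M T → F.IsCore (gr F.X g T) T (F.N g T)
  eq : ∀ g ∈ F.X, ∀ T, Sph M T → ∀ a, F.IsCore (gr F.X g T) T a → F.N g T = a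
  st : ∀ g ∈ F.X, ∀ T, Sph M T → F.St (F.N g T) ∧ (F.N g T).R ⊆ T ∧
    Le T (gr F.X g T) (F.N g T).g
  lo : ∀ Lo, F.IsLo Lo → ∀ g ∈ F.X, g ∈ Lo → ∀ T, Sph M T → (F.N g T).g ∈ Lo
  sph : ∀ a, F.St a → Sph M (a.R ∪ a.J)
  zero : ∀ a, F.St a → a.p = 0 → F.Fn a.g
  anti : ∀ a, F.St a → F.Fn a.g → a.J = ∅ → a.p = 0

/-- Block DEC. -/
structure DecStmt : Prop where
  dec : ∀ a, F.St a → ∀ T, a.R ⊆ T → T ⊆ a.R ∪ a.J → T ≠ a.R → (F.N a.g T).phi < a.phi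
  val : ∀ a, F.St a → a.phi ∈ Val M F.DD

/-- Block U. -/
def UStmt : Prop := ∀ a, F.St a → ∀ T, a.R ⊆ T → Sph M T → (∀ j ∈ a.J, j ∉ T) →
  ∃ g0 R0, F.IsCore (gr F.X a.g T) T ⟨g0, R0, a.p⟩ ∧ a.R ⊆ R0 ∧ Le R0 g0 a.g ∧
    ∀ j, bf M a.p (rt M g0 j) = bf M a.p (rt M a.g j)

/-- Block PUSH. -/
def PushStmt : Prop := ∃ val : Art M → Option (Art M),
  (∀ g ∈ F.X', val g = some g) ∧ ∀ Lo, F.IsLo Lo →
    (∀ g ∈ F.X, g ∈ Lo → ∀ f, val g = some f → f ∈ F.X' ∩ Lo) ∧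
    ∀ g ∈ F.X, ∀ s, g * gen M s ∈ Lo →
      ORel (Conn M (F.X' ∩ Lo)) (val g) (val (g * gen M s))

variable {F}

theorem grSys (hT : F.Term) : Gr.Sys F.X := ⟨F.upX, F.a2, hT⟩

theorem tau_X {g : Art M} (hg : g ∈ F.X) (w : M.Group) : g * tau M w ∈ F.X :=
  (le_tau (R := Finset.univ) (by rw [WP_univ]; trivial) g).up F.upX hg

theorem Y_one (g : Art M) : F.Y g 1 = F.y g := by rw [Y, tau_one, mul_one]

theorem stp {g : Art M} (hg : g ∈ F.X) (R : Finset S) : Stp M R (pr M g) (F.Y g) := by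
  intro u _ s _
  by_cases h : RD M u s
  · obtain ⟨k, k0, e⟩ := F.a8 _ (tau_X hg (u * sm M s)) s
    refine ⟨k, k0, ?_⟩
    rw [mul_assoc, ← tau_rightDescent h] at e
    rw [Y, Y, e, rt, map_mul, pr_tau, ← mul_assoc, rho_mul _ (pr M g * u), rho_simple, rf_self,
      map_neg]
    module
  · obtain ⟨k, k0, e⟩ := F.a8 _ (tau_X hg u) s
    refine ⟨k, k0, ?_⟩
    rw [Y, Y, tau_mul_simple h, ← mul_assoc, e, rt, map_mul, pr_tau]

end Sys

end Pool.Agent.HT.FS
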