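import Pool.Agent.Lib.HT.FS.Top
import Pool.Agent.Lib.HT.FS.Tau

set_option autoImplicit false
set_option linter.unusedSectionVars false

/-! The class of the top of an object along the Artin group. -/

namespace Pool.Agent.HT

open Pool.Agent.Lib.MP_6d85b4_al

variable {S : Type} [Fintype S] [DecidableEq S] {M : CoxeterMatrix S}

namespace Model

variable {Md : Model (fun s t => M s t)} (hM : Small M) (H : Md.GH) (P : Md.D.Obj)

lemma iv_tau (w : M.Group) : Iv hM H (act hM H (tau M w)) w := by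
  obtain ⟨l, hl, rfl⟩ := M.toCoxeterSystem.exists_isReduced w
  rw [tau_word hl]; exact iv_word hM H hl

lemma iv_act (g : Art M) (w : M.Group) : Iv hM (act hM H g) (act hM H (g * tau M w)) w := by
  rw [act_mul]; exact iv_tau hM _ w

lemma iv_act_inv (g : Art M) (w : M.Group) :
    Iv hM (act hM H (g * (tau M w)⁻¹)) (act hM H g) w := by
  simpa using iv_act hM H (g * (tau M w)⁻¹) w

lemma iv_act_gen (g : Art M) (s : S) :
    Iv hM (act hM H g) (act hM H (g * gen M s)) (M.toCoxeterSystem.simple s) := by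
  rw [act_mul]; exact iv_gen hM _ s

lemma c_act' (g : Art M) (y : KK S) : rho M (pr M g)⁻¹ (H.c y) = (act hM H g).c y := by
  rw [c_act hM H g, rho_inv]

/-- The real class of the top of `P` in the heart of `g`. -/
noncomputable def yv (g : Art M) : S → ℝ := H.c (Md.D.cl ((act hM H g).1.top P))

variable {hM H P} {g : Art M}

lemma yv_co (g k : Art M) : rho M (pr M g)⁻¹ (yv hM H P k) =
    (act hM H g).c (Md.D.cl ((act hM H k).1.top P)) := c_act' hM H g _

lemma a8 (hg : (act hM H g).1.V 0 P) (s : S) :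
    ∃ k : ℝ, 0 ≤ k ∧ yv hM H P (g * gen M s) = yv hM H P g - k • rho M (pr M g) (al s) := by
  obtain ⟨k, hk, e⟩ := (iv_act_gen hM H g s).top_step hg
  exact ⟨k, hk, by rw [yv, yv, c_act hM H g, e, map_sub, map_smul, ← c_act]⟩

lemma a9a (hg : (act hM H g).1.V 0 P) (w : M.Group) :
    Pos (rho M (pr M g)⁻¹ (yv hM H P (g * tau M w))) := by
  rw [yv_co]; exact (iv_act hM H g w).top_pos hg

lemma a9b (hg : (act hM H g).1.V 0 P) : yv hM H P g = 0 ↔ (act hM H g).1.V (-1) P := by
  rw [← GH.top_zero_iff hg, ← yv_co]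
  refine ⟨fun h => by rw [h, map_zero], fun h => ?_⟩
  rw [← Tits.rho_inv' (M := M) (pr M g) (yv hM H P g), h, map_zero]

lemma a9c (hg : (act hM H g).1.V 0 P) {w : M.Group} (hw : (act hM H (g * tau M w)).1.V (-1) P)
    (u : M.Group) : Pos (rho M (pr M (g * tau M w))⁻¹ (-yv hM H P (g * tau M u))) := by
  rw [map_neg, yv_co]; exact (iv_act hM H g w).top_neg (iv_act hM H g u) hg hw

lemma a12 (hg : (act hM H g).1.V 0 P) (s : S) : rho M (pr M g)⁻¹ (yv hM H P g) s ∈ DD := by
  rw [yv_co]; exact GH.c_DD _ hg.top_M s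

/-- The pairing of a class with a simple root of the chamber of `g`. -/
lemma bf_eq_form (g : Art M) (j : S) (x : KK S) : - bf M (H.c x) (rho M (pr M g) (al j)) =
    ∑ a, fp a * (Md.D.form x ((act hM H g).1.b (j, a)) : ℝ) := by
  rw [c_act hM H g, bf_rho, bf_symm, bf_al, GH.ip_eq hM]

end Model

end Pool.Agent.HT
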