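import Pool.Agent.Lib.HT.FS.A10
import Pool.Agent.Lib.HT.FS.A16
import Pool.Agent.Lib.HT.FS.Yv
import Pool.Agent.Lib.HT.FS.Stmt

set_option autoImplicit false
set_option linter.unusedSectionVars false

/-! The fields `a10`, `a10y`, `a10s` of the flow system of hearts. -/

namespace Pool.Agent.HT

open Pool.Agent.Lib.MP_6d85b4_al CoxeterSystem

variable {S : Type} [Fintype S] [DecidableEq S] {M : CoxeterMatrix S}

namespace Model

variable {Md : Model (fun s t => M s t)} {hM : Small M} {H : Md.GH} {P : Md.D.Obj}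

theorem a10_all {h : Art M} (hh : (act hM H h).1.V 0 P) {j : S} {w : M.Group}
    (hj : (act hM H (h * (gen M j)⁻¹)).1.V 0 P) (hw : M.toCoxeterSystem.IsLeftDescent w j) :
    0 ≤ bf M (yv hM H P (h * tau M w)) (rho M (pr M h) (al j)) ∧
      (bf M (yv hM H P (h * tau M w)) (rho M (pr M h) (al j)) = 0 →
        yv hM H P (h * tau M (M.toCoxeterSystem.simple j * w)) = yv hM H P (h * tau M w) ∧
        ∀ i, ¬ M.toCoxeterSystem.IsRightDescent w i →
          ¬ (act hM H (h * tau M w * (gen M i)⁻¹)).1.V 0 P →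
          ¬ (act hM H (h * tau M (M.toCoxeterSystem.simple j * w) * (gen M i)⁻¹)).1.V 0 P) := by
  have v : ∀ u, (act hM (act hM H h) (tau M u)).1.V 0 P :=
    fun u => (A10.unit_tau hM _ u).Vlo 0 P hh
  rw [act_mul] at hj
  obtain ⟨B, hB, e⟩ := (act hM (act hM H h) (tau M w)).1.top_ext P
  have c := a10_core hM (act hM H h) hh (fun a => by_contra fun c =>
    (soc_iff hM hh j).2 ⟨a, c⟩ hj) hw (v w).top_M hB e
  simp only [yv, act_mul]
  rw [A10.c_act hM H h ((Md.D.cl ((act hM (act hM H h) (tau M w)).1.top P))), bf_rho, bf_symm,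
    bf_al]
  refine ⟨c.1, fun z => ?_⟩
  obtain ⟨c1, c2, c3⟩ := c.2 z
  refine ⟨by rw [Heart.top_eq (Heart.M_iff.1 c1).1 c2 e, ← A10.c_act], fun i hi k => ?_⟩
  exact (soc_iff hM (v _) i).2 (c3 i hi ((soc_iff hM (v w) i).1 k))

variable (hM H P)

theorem a10 : ∀ h ∈ {g | (act hM H g).1.V 0 P}, ∀ j w,
    h * (gen M j)⁻¹ ∈ {g | (act hM H g).1.V 0 P} → FS.LD M w j →
    0 ≤ bf M (yv hM H P (h * tau M w)) (FS.rt M h j) :=
  fun _ hh _ _ hj hw => (a10_all hh hj hw).1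

theorem a10y : ∀ h ∈ {g | (act hM H g).1.V 0 P}, ∀ j w,
    h * (gen M j)⁻¹ ∈ {g | (act hM H g).1.V 0 P} → FS.LD M w j →
    bf M (yv hM H P (h * tau M w)) (FS.rt M h j) = 0 →
    yv hM H P (h * tau M (FS.sm M j * w)) = yv hM H P (h * tau M w) :=
  fun _ hh _ _ hj hw z => ((a10_all hh hj hw).2 z).1

theorem a10s : ∀ h ∈ {g | (act hM H g).1.V 0 P}, ∀ j w,
    h * (gen M j)⁻¹ ∈ {g | (act hM H g).1.V 0 P} → FS.LD M w j →
    bf M (yv hM H P (h * tau M w)) (FS.rt M h j) = 0 →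
    ∀ i, ¬FS.RD M w i → h * tau M w * (gen M i)⁻¹ ∉ {g | (act hM H g).1.V 0 P} →
      h * tau M (FS.sm M j * w) * (gen M i)⁻¹ ∉ {g | (act hM H g).1.V 0 P} :=
  fun _ hh _ _ hj hw z => ((a10_all hh hj hw).2 z).2

end Model

end Pool.Agent.HT
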