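import Pool.Agent.Lib.HT.FS.Tau

set_option autoImplicit false
set_option linter.unusedSectionVars false

/-! Lengths and descents in standard parabolic subgroups. -/

namespace Pool.Agent.HT.Par

open Pool.Agent.Lib.MP_6d85b4_al CoxeterSystem Pool.Agent.HT.Core

variable {S : Type} [Fintype S] [DecidableEq S] {M : CoxeterMatrix S} {R : Finset S}

theorem rd_iff_neg {w : M.Group} {s : S} :
    M.toCoxeterSystem.IsRightDescent w s ↔ Pos (-rho M w (al s)) :=
  ⟨neg_of_descent, descent_of_neg⟩

theorem not_rd_iff_pos {w : M.Group} {s : S} :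
    ¬ M.toCoxeterSystem.IsRightDescent w s ↔ Pos (rho M w (al s)) := by
  refine ⟨pos_of_not_descent M w s, fun h => ?_⟩
  rw [← simple_mul_simple_cancel_right M.toCoxeterSystem (w := w) s,
    ← isRightDescent_iff_not_isRightDescent_mul, rd_iff_neg, rho_mul, rho_simple, rf_self, map_neg,
    neg_neg]
  exact h

theorem ld_iff_neg {w : M.Group} {s : S} :
    M.toCoxeterSystem.IsLeftDescent w s ↔ Pos (-rho M w⁻¹ (al s)) := by
  rw [← isRightDescent_inv_iff, rd_iff_neg]

theorem not_ld_iff_pos {w : M.Group} {s : S} :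
    ¬ M.toCoxeterSystem.IsLeftDescent w s ↔ Pos (rho M w⁻¹ (al s)) := by
  rw [← isRightDescent_inv_iff, not_rd_iff_pos]

theorem rd_mem {u : M.Group} (hu : u ∈ WL M R) {s : S}
    (h : M.toCoxeterSystem.IsRightDescent u s) : s ∈ R := mem_of_neg hu (neg_of_descent h)

theorem ld_mem {u : M.Group} (hu : u ∈ WL M R) {s : S}
    (h : M.toCoxeterSystem.IsLeftDescent u s) : s ∈ R :=
  rd_mem (inv_mem hu) ((M.toCoxeterSystem.isRightDescent_inv_iff).2 h)

/-- Induction along reduced words, on the right. -/
theorem ind_right {P : M.Group → Prop} (h1 : P 1)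
    (hs : ∀ w ∈ WL M R, ∀ s ∈ R, ¬ M.toCoxeterSystem.IsRightDescent w s → P w →
      P (w * M.toCoxeterSystem.simple s)) {w : M.Group} (hw : w ∈ WL M R) : P w :=
  Core.ind h1 (fun w hw s h hp => hs w hw s h (not_rd_iff_pos.2 hp)) hw

/-- Induction along reduced words, on the left. -/
theorem ind_left {P : M.Group → Prop} (h1 : P 1)
    (hs : ∀ w ∈ WL M R, ∀ s ∈ R, ¬ M.toCoxeterSystem.IsLeftDescent w s → P w →
      P (M.toCoxeterSystem.simple s * w)) {w : M.Group} (hw : w ∈ WL M R) : P w := by
  have := ind_right (P := fun w => P w⁻¹) (by simpa using h1) (fun w hw s h hd hp => by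
    rw [mul_inv_rev, inv_simple]
    exact hs _ (inv_mem hw) s h (by rwa [isLeftDescent_inv_iff]) hp) (inv_mem hw)
  simpa using this

/-- Every reduced word of an element of a parabolic subgroup has its letters there. -/
theorem mem_of_reduced {l : List S} (hl : M.toCoxeterSystem.IsReduced l)
    (h : M.toCoxeterSystem.wordProd l ∈ WL M R) : ∀ s ∈ l, s ∈ R := by
  induction l with
  | nil => simp
  | cons i a ih =>
    have hi := ld_mem h (leftDescent_of_reduced hl)
    have ha : M.toCoxeterSystem.wordProd a ∈ WL M R := by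
      rw [wordProd_cons] at h
      exact (mul_mem_cancel_left (simple_mem hi)).1 h
    intro s hs
    rcases List.mem_cons.1 hs with rfl | hs
    · exact hi
    · exact ih (by simpa using hl.drop 1) ha s hs

theorem exists_word {u : M.Group} (hu : u ∈ WL M R) : ∃ l : List S,
    M.toCoxeterSystem.IsReduced l ∧ (∀ s ∈ l, s ∈ R) ∧ u = M.toCoxeterSystem.wordProd l := by
  obtain ⟨l, hl, rfl⟩ := M.toCoxeterSystem.exists_isReduced u
  exact ⟨l, hl, mem_of_reduced hl hu, rfl⟩

theorem word_mem {l : List S} (h : ∀ s ∈ l, s ∈ R) : M.toCoxeterSystem.wordProd l ∈ WL M R := by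
  induction l with
  | nil => simp
  | cons i a ih =>
    rw [wordProd_cons]
    exact mul_mem (simple_mem (h i (by simp))) (ih fun s hs => h s (by simp [hs]))

/-- The lift of an element of a parabolic subgroup is a positive word in its generators. -/
theorem tau_eq_word {u : M.Group} (hu : u ∈ WL M R) : ∃ l : List S, (∀ s ∈ l, s ∈ R) ∧
    l.length = M.toCoxeterSystem.length u ∧ tau M u = (l.map (gen M)).prod := by
  obtain ⟨l, h1, h2, rfl⟩ := exists_word hu
  exact ⟨l, h2, h1.eq.symm, tau_word h1⟩

/-- A prefix and a suffix of an element of a parabolic subgroup lie in it. -/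
theorem mem_of_len {u v : M.Group} (h : M.toCoxeterSystem.length (u * v) =
    M.toCoxeterSystem.length u + M.toCoxeterSystem.length v) (hm : u * v ∈ WL M R) :
    u ∈ WL M R ∧ v ∈ WL M R := by
  obtain ⟨a, ha, rfl⟩ := M.toCoxeterSystem.exists_isReduced u
  obtain ⟨b, hb, rfl⟩ := M.toCoxeterSystem.exists_isReduced v
  rw [← wordProd_append] at h hm
  have := mem_of_reduced
    (by rw [CoxeterSystem.IsReduced, h, ha.eq, hb.eq, List.length_append]) hm
  exact ⟨word_mem fun s hs => this s (by simp [hs]), word_mem fun s hs => this s (by simp [hs])⟩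

theorem pos_cn {v : M.Group} (h : ∀ i ∈ R, Pos (rho M v (al i))) {x : S → ℝ} (hx : Cn R x) :
    Pos (rho M v x) := fun j =>
  hx.nonneg (θ := (LinearMap.proj j).comp (rho M v)) fun s hs => h s hs j

theorem neg_cn {v : M.Group} (h : ∀ i ∈ R, Pos (-rho M v (al i))) {x : S → ℝ} (hx : Cn R x) :
    Pos (-rho M v x) := fun j =>
  hx.nonneg (θ := -(LinearMap.proj j).comp (rho M v)) fun s hs => h s hs j

/-- Minimal coset representatives: descents of `v u`. -/
theorem not_rd_mul {v u : M.Group} (hv : ∀ i ∈ R, ¬ M.toCoxeterSystem.IsRightDescent v i)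
    (hu : u ∈ WL M R) {s : S} (hs : s ∈ R) (h : ¬ M.toCoxeterSystem.IsRightDescent u s) :
    ¬ M.toCoxeterSystem.IsRightDescent (v * u) s := by
  rw [not_rd_iff_pos, rho_mul]
  exact pos_cn (fun i hi => not_rd_iff_pos.1 (hv i hi)) (cn_root hu hs (not_rd_iff_pos.1 h))

/-- Minimal coset representatives: lengths add. -/
theorem len_mul {v u : M.Group} (hv : ∀ i ∈ R, ¬ M.toCoxeterSystem.IsRightDescent v i)
    (hu : u ∈ WL M R) : M.toCoxeterSystem.length (v * u) =
      M.toCoxeterSystem.length v + M.toCoxeterSystem.length u := by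
  refine ind_right (P := fun u => M.toCoxeterSystem.length (v * u) =
    M.toCoxeterSystem.length v + M.toCoxeterSystem.length u) (by simp) (fun w hw s hs hd ih => ?_) hu
  rw [← mul_assoc, (M.toCoxeterSystem.not_isRightDescent_iff).1 hd,
    (M.toCoxeterSystem.not_isRightDescent_iff).1 (not_rd_mul hv hw hs hd), ih, add_assoc]

theorem len_mul_left {v u : M.Group} (hv : ∀ i ∈ R, ¬ M.toCoxeterSystem.IsLeftDescent v i)
    (hu : u ∈ WL M R) : M.toCoxeterSystem.length (u * v) =
      M.toCoxeterSystem.length u + M.toCoxeterSystem.length v := by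
  have := len_mul (v := v⁻¹) (fun i hi => by rw [isRightDescent_inv_iff]; exact hv i hi)
    (inv_mem hu)
  rwa [← mul_inv_rev, length_inv, length_inv, length_inv, add_comm] at this

theorem tau_mul_par {v u : M.Group} (hv : ∀ i ∈ R, ¬ M.toCoxeterSystem.IsRightDescent v i)
    (hu : u ∈ WL M R) : tau M (v * u) = tau M v * tau M u := tau_mul (len_mul hv hu)

/-- Every coset has a representative without descents in `R`. -/
theorem exists_min (R : Finset S) (w : M.Group) :
    ∃ u ∈ WL M R, ∀ i ∈ R, ¬ M.toCoxeterSystem.IsRightDescent (w * u) i := by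
  induction hn : M.toCoxeterSystem.length w using Nat.strong_induction_on generalizing w with
  | _ n ih =>
  by_cases h : ∀ i ∈ R, ¬ M.toCoxeterSystem.IsRightDescent w i
  · exact ⟨1, one_mem _, by simpa using h⟩
  push Not at h
  obtain ⟨i, hi, hd⟩ := h
  obtain ⟨u, hu, h⟩ := ih _ (lt_of_lt_of_eq hd hn) _ rfl
  exact ⟨_, mul_mem (simple_mem hi) hu, by rwa [← mul_assoc]⟩

/-- The representative is unique. -/
theorem min_unique {v v' : M.Group} (hv : ∀ i ∈ R, ¬ M.toCoxeterSystem.IsRightDescent v i)
    (hv' : ∀ i ∈ R, ¬ M.toCoxeterSystem.IsRightDescent v' i) (h : v⁻¹ * v' ∈ WL M R) : v = v' := by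
  have h1 := len_mul hv h
  have h2 := len_mul hv' (inv_mem h)
  rw [mul_inv_cancel_left] at h1
  rw [length_inv, mul_inv_rev, inv_inv, mul_inv_cancel_left] at h2
  have h3 : v⁻¹ * v' = 1 := (M.toCoxeterSystem.length_eq_zero_iff).1 (by omega)
  exact inv_mul_eq_one.1 h3

/-- If all of `R` are left descents of `w`, every element of `W_R` is a prefix of `w`. -/
theorem prefix_of_ld {w u : M.Group} (hw : ∀ i ∈ R, M.toCoxeterSystem.IsLeftDescent w i)
    (hu : u ∈ WL M R) : M.toCoxeterSystem.length u + M.toCoxeterSystem.length (u⁻¹ * w) =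
      M.toCoxeterSystem.length w := by
  refine ind_right (P := fun u => M.toCoxeterSystem.length u +
    M.toCoxeterSystem.length (u⁻¹ * w) = M.toCoxeterSystem.length w) (by simp)
    (fun u hu s hs hd ih => ?_) hu
  have h : M.toCoxeterSystem.IsLeftDescent (u⁻¹ * w) s := by
    rw [ld_iff_neg, mul_inv_rev, inv_inv, rho_mul]
    exact neg_cn (fun i hi => ld_iff_neg.1 (hw i hi)) (cn_root hu hs (not_rd_iff_pos.1 hd))
  have := (M.toCoxeterSystem.isLeftDescent_iff).1 h
  rw [mul_inv_rev, inv_simple, mul_assoc, (M.toCoxeterSystem.not_isRightDescent_iff).1 hd]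
  omega

/-- If all of `R` are right descents of `w`, every element of `W_R` is a suffix of `w`. -/
theorem suffix_of_rd {w u : M.Group} (hw : ∀ i ∈ R, M.toCoxeterSystem.IsRightDescent w i)
    (hu : u ∈ WL M R) : M.toCoxeterSystem.length (w * u⁻¹) + M.toCoxeterSystem.length u =
      M.toCoxeterSystem.length w := by
  have := prefix_of_ld (w := w⁻¹) (fun i hi => by rw [isLeftDescent_inv_iff]; exact hw i hi)
    (inv_mem hu)
  rw [inv_inv, length_inv, length_inv, ← length_inv _ (u * w⁻¹), mul_inv_rev, inv_inv] at this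
  omega

/-- A left descent of a prefix is a left descent. -/
theorem ld_mul {u v : M.Group} (h : M.toCoxeterSystem.length (u * v) =
    M.toCoxeterSystem.length u + M.toCoxeterSystem.length v) {s : S}
    (hs : M.toCoxeterSystem.IsLeftDescent u s) : M.toCoxeterSystem.IsLeftDescent (u * v) s := by
  have h1 := M.toCoxeterSystem.length_mul_le (M.toCoxeterSystem.simple s * u) v
  unfold IsLeftDescent at *
  rw [mul_assoc] at h1
  omega

/-- A right descent of a suffix is a right descent. -/
theorem rd_mul {u v : M.Group} (h : M.toCoxeterSystem.length (u * v) =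
    M.toCoxeterSystem.length u + M.toCoxeterSystem.length v) {s : S}
    (hs : M.toCoxeterSystem.IsRightDescent v s) : M.toCoxeterSystem.IsRightDescent (u * v) s := by
  have h1 := M.toCoxeterSystem.length_mul_le u (v * M.toCoxeterSystem.simple s)
  unfold IsRightDescent at *
  rw [← mul_assoc] at h1
  omega

/-- Removing a left descent of the prefix keeps the lengths additive. -/
theorem len_ld_mul {u v : M.Group} (h : M.toCoxeterSystem.length (u * v) =
    M.toCoxeterSystem.length u + M.toCoxeterSystem.length v) {s : S}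
    (hs : M.toCoxeterSystem.IsLeftDescent u s) :
    M.toCoxeterSystem.length (M.toCoxeterSystem.simple s * u * v) =
      M.toCoxeterSystem.length (M.toCoxeterSystem.simple s * u) + M.toCoxeterSystem.length v := by
  have h1 := (M.toCoxeterSystem.isLeftDescent_iff).1 hs
  have h2 := (M.toCoxeterSystem.isLeftDescent_iff).1 (ld_mul h hs)
  rw [mul_assoc]
  omega

/-- A nonnegative vector supported on `R` with a negative root as image gives a descent in `R`. -/
theorem exists_rd {v : M.Group} {x : S → ℝ} (hx : Cn R x) (h : ¬ Pos (rho M v x)) :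
    ∃ i ∈ R, M.toCoxeterSystem.IsRightDescent v i := by
  by_contra hc
  push Not at hc
  exact h (pos_cn (fun i hi => not_rd_iff_pos.1 (hc i hi)) hx)

/-- The longest element of a finite parabolic subgroup. -/
theorem exists_top (hf : Finite (WL M R)) : ∃ w ∈ WL M R,
    (∀ i ∈ R, M.toCoxeterSystem.IsRightDescent w i) ∧
    (∀ i ∈ R, M.toCoxeterSystem.IsLeftDescent w i) ∧
    ∀ u ∈ WL M R, M.toCoxeterSystem.length u ≤ M.toCoxeterSystem.length w := by
  obtain ⟨w, hw⟩ := Finite.exists_max fun u : WL M R => M.toCoxeterSystem.length u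
  refine ⟨w, w.2, fun i hi => ?_, fun i hi => ?_, fun u hu => hw ⟨u, hu⟩⟩
  · exact lt_of_le_of_ne (hw ⟨_, mul_mem w.2 (simple_mem hi)⟩) (length_mul_simple_ne _ _ _)
  · exact lt_of_le_of_ne (hw ⟨_, mul_mem (simple_mem hi) w.2⟩) (length_simple_mul_ne _ _ _)

end Pool.Agent.HT.Par
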