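import Pool.Agent.Lib.HT.FS.A16
import Pool.Agent.Lib.HT.FS.Par

set_option autoImplicit false
set_option linter.unusedSectionVars false

/-! The socle axioms of the flow system of an object, in the Artin group. -/

namespace Pool.Agent.HT

open Pool.Agent.Lib.MP_6d85b4_al CoxeterSystem

variable {S : Type} [Fintype S] [DecidableEq S] {M : CoxeterMatrix S}

namespace Model

variable {Md : Model (fun s t => M s t)} {P : Md.D.Obj}

lemma act_tau_word (hM : Small M) (H : Md.GH) {l : List S}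
    (hl : M.toCoxeterSystem.IsReduced l) :
    act hM H (tau M (M.toCoxeterSystem.wordProd l)) = run H l := by
  rw [tau_word hl]
  clear hl
  induction l using List.reverseRecOn with
  | nil => simp [run, act_one]
  | append_singleton l s ih =>
    rw [List.map_append, List.prod_append, act_mul, ih, run_concat]
    simp [act_gen]

variable (hM : Small M) (H : Md.GH) {g : Art M} {R : Finset S} {w : M.Group}

theorem a1_V {a : ℤ} (s : S) (h : (act hM H g).1.V a P) : (act hM H (g * gen M s)).1.V a P := by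
  rw [act_mul]
  exact (isUp_act hM _ s).V_le a P h

theorem a1_U {a : ℤ} (s : S) (h : (act hM H g).1.U a P) :
    (act hM H (g * (gen M s)⁻¹)).1.U a P := by
  rw [act_mul]
  exact (isUp_act_inv hM _ s).U_le a P h

theorem soc_ex (hV : (act hM H g).1.V 0 P) (s : S) :
    ¬ (act hM H (g * (gen M s)⁻¹)).1.V 0 P ↔ ∃ a, Md.D.hom ((act hM H g).1.S (s, a)) P ≠ 0 := by
  rw [act_mul]
  exact soc_iff hM hV s

theorem soc_hom (h2 : ∀ e Z, Md.D.hom Z P = 0 → Md.D.hom Z (Md.Phi e P) = 0)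
    (hV : (act hM H g).1.V 0 P) {s : S} (hs : ¬ (act hM H (g * (gen M s)⁻¹)).1.V 0 P) (a : Irr) :
    Md.D.hom ((act hM H g).1.S (s, a)) P ≠ 0 := by
  obtain ⟨b, hb⟩ := (soc_ex hM H hV s).1 hs
  exact GH.soc_all _ h2 hV hb a

theorem hom_of_not_soc (hV : (act hM H g).1.V 0 P) {s : S}
    (hs : (act hM H (g * (gen M s)⁻¹)).1.V 0 P) (a : Irr) :
    Md.D.hom ((act hM H g).1.S (s, a)) P = 0 :=
  by_contra fun c => (soc_ex hM H hV s).2 ⟨a, c⟩ hs

theorem a2 (hV : (act hM H g).1.V 0 P) (h : ∀ s ∈ R, (act hM H (g * (gen M s)⁻¹)).1.V 0 P)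
    (hw : w ∈ Core.WL M R) : (act hM H (g * (tau M w)⁻¹)).1.V 0 P := by
  obtain ⟨l, hl, hR, rfl⟩ := Par.exists_word hw
  have e : run (act hM H (g * (tau M (M.toCoxeterSystem.wordProd l))⁻¹)) l = act hM H g := by
    rw [← act_tau_word hM _ hl, ← act_mul, inv_mul_cancel_right]
  refine a2_run hM _ hl (by rwa [e]) fun s hs a => ?_
  rw [e]
  exact hom_of_not_soc hM H hV (h s (hR s hs)) a

theorem a3 (h2 : ∀ e Z, Md.D.hom Z P = 0 → Md.D.hom Z (Md.Phi e P) = 0) {lo : ℤ}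
    (h1 : Md.D.hom P (Md.D.sh lo P) = 0) (hV : (act hM H g).1.V 0 P)
    (h : ∀ s ∈ R, ¬ (act hM H (g * (gen M s)⁻¹)).1.V 0 P) (hU : (act hM H g).1.U lo P)
    (hw : w ∈ Core.WL M R) : (act hM H (g * tau M w)).1.U lo P := by
  obtain ⟨l, hl, hR, rfl⟩ := Par.exists_word hw
  rw [act_mul, act_tau_word hM _ hl]
  exact a3_run hM _ hl h1 hV hU fun s hs a => soc_hom hM H h2 hV (h s (hR s hs)) a

theorem V_tau {a : ℤ} (hV : (act hM H g).1.V a P) (w : M.Group) :
    (act hM H (g * tau M w)).1.V a P := by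
  obtain ⟨l, hl, rfl⟩ := M.toCoxeterSystem.exists_isReduced w
  rw [act_mul, act_tau_word hM _ hl]
  exact (unit_run hM _ hl).Vlo a P hV

theorem a4 (h2 : ∀ e Z, Md.D.hom Z P = 0 → Md.D.hom Z (Md.Phi e P) = 0)
    (hV : (act hM H g).1.V 0 P) (h : ∀ s ∈ R, ¬ (act hM H (g * (gen M s)⁻¹)).1.V 0 P)
    (hw : w ∈ Core.WL M R) {i : S} (hi : i ∈ R) (hd : ¬ M.toCoxeterSystem.IsRightDescent w i) :
    ¬ (act hM H (g * tau M w * (gen M i)⁻¹)).1.V 0 P := by
  refine (soc_ex hM H (V_tau hM H hV w) i).2 ⟨(0, 0), ?_⟩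
  obtain ⟨l, hl, hR, rfl⟩ := Par.exists_word hw
  rw [act_mul, act_tau_word hM _ hl]
  refine a4_run hM _ ?_ hV (fun s hs a => soc_hom hM H h2 hV (h s ?_) a) _
  · rw [CoxeterSystem.IsReduced, wordProd_append, wordProd_singleton,
      M.toCoxeterSystem.not_isRightDescent_iff.1 hd, hl.eq]
    simp
  · rcases List.mem_append.1 hs with h3 | h3
    · exact hR s h3
    · rw [List.mem_singleton.1 h3]; exact hi

theorem a5 (hV : (act hM H g).1.V 0 P) (h : ¬ (act hM H g).1.V (-1) P) :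
    ∃ s, ¬ (act hM H (g * (gen M s)⁻¹)).1.V 0 P := by
  obtain ⟨⟨s, a⟩, hs⟩ := Heart.exists_soc hV h
  exact ⟨s, (soc_ex hM H hV s).2 ⟨a, hs⟩⟩

theorem a6 (hV : (act hM H g).1.V 0 P) {s : S} (hs : ¬ (act hM H (g * (gen M s)⁻¹)).1.V 0 P)
    (h : (act hM H (g * tau M w)).1.V (-1) P) : M.toCoxeterSystem.IsLeftDescent w s := by
  by_contra hd
  obtain ⟨a, ha⟩ := (soc_ex hM H hV s).1 hs
  obtain ⟨l, hl, rfl⟩ := M.toCoxeterSystem.exists_isReduced w
  rw [act_mul, act_tau_word hM _ hl] at h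
  refine ha (a6_run hM _ ?_ h a)
  rw [CoxeterSystem.IsReduced, wordProd_cons, M.toCoxeterSystem.not_isLeftDescent_iff.1 hd, hl.eq]
  simp

end Model

end Pool.Agent.HT
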