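import Pool.Agent.Lib.HT.FS.Stmt

/-! States and cores of a flow system. -/

set_option linter.unusedSectionVars false

namespace Pool.Agent.HT.CN

open Pool.Agent.Lib.MP_6d85b4_al Pool.Agent.HT.Core Pool.Agent.HT.Aff Pool.Agent.HT.Chart
  Pool.Agent.HT.Gr

variable {S : Type} [Fintype S] [DecidableEq S] {M : CoxeterMatrix S}

/-- The axioms on the vectors that the charts need. -/
structure Sy (X : Set (Art M)) (y : Art M → S → ℝ) : Prop extends Gr.Sys X where
  a4 : ∀ g ∈ X, ∀ R : Finset S, (∀ s ∈ R, g * (gen M s)⁻¹ ∉ X) → ∀ u ∈ WP M R, ∀ i ∈ R,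
    ¬M.toCoxeterSystem.IsRightDescent u i → g * tau M u * (gen M i)⁻¹ ∉ X
  a8 : ∀ g ∈ X, ∀ s, ∃ k : ℝ, 0 ≤ k ∧ y (g * gen M s) = y g - k • rho M (pr M g) (al s)

/-- The chart at `g`. -/
noncomputable def cht (y : Art M → S → ℝ) (g : Art M) (u : M.Group) : S → ℝ := y (g * tau M u)

/-- The pairing with the simple root `i` of the frame `g`, up to sign. -/
noncomputable def pa (g : Art M) (p : S → ℝ) (i : S) : ℝ := bf M p (rho M (pr M g) (al i))

/-- States. -/
structure State (X : Set (Art M)) (y : Art M → S → ℝ) (g : Art M) (R : Finset S) (p : S → ℝ) :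
    Prop where
  mem : g ∈ X
  soc : ∀ s ∈ R, g * (gen M s)⁻¹ ∉ X
  sph : Sph M R
  pl : p ∈ Pl M R (cht y g)
  perp : ∀ i ∈ R, pa g p i = 0

variable (X : Set (Art M)) (y : Art M → S → ℝ)

/-- The point of least norm of the grounded chart. -/
noncomputable def Np (g : Art M) (R : Finset S) : S → ℝ :=
  Classical.epsilon (Opt M R (cht y (gr X g R)))

/-- The shortest chamber of the point of least norm. -/
noncomputable def Nu (g : Art M) (R : Finset S) : M.Group :=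
  Classical.epsilon (Short M R (pr M (gr X g R)) (bL M (Np X y g R)))

/-- The frame of the core. -/
noncomputable def Ng (g : Art M) (R : Finset S) : Art M := gr X g R * tau M (Nu X y g R)

/-- The type of the core. -/
noncomputable def NR (g : Art M) (R : Finset S) : Finset S :=
  Zr M R (pr M (gr X g R) * Nu X y g R) (bL M (Np X y g R))

variable {X y} {g k : Art M} {R T : Finset S} {p : S → ℝ} {u : M.Group}

theorem pa_eq (g : Art M) (p : S → ℝ) (i : S) : pa g p i = ip M i (rho M (pr M g)⁻¹ p) := by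
  rw [pa, ← bf_rho M (pr M g)⁻¹, rho_inv, bf_al_r]

theorem cht_one : cht y g 1 = y g := by simp [cht]

theorem pr_mul_tau (g : Art M) (u : M.Group) : pr M (g * tau M u) = pr M g * u := by
  rw [map_mul, pr_tau]

theorem cht_mul (h : ∀ i ∈ R, ¬M.toCoxeterSystem.IsRightDescent u i) {x : M.Group}
    (hx : x ∈ WL M R) : cht y (g * tau M u) x = cht y g (u * x) := by
  rw [cht, cht, Par.tau_mul_par h hx, mul_assoc]

theorem Pl_mul (h : ∀ i ∈ R, ¬M.toCoxeterSystem.IsRightDescent u i) :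
    Pl M R (cht y (g * tau M u)) = Pl M R fun x => cht y g (u * x) := by
  rw [Pl, Pl, Set.image_congr fun x hx => cht_mul h hx]

theorem Pl_sub (h : ∀ i ∈ R, ¬M.toCoxeterSystem.IsRightDescent u i) (hT : R ⊆ T)
    (hu : u ∈ WL M T) : Pl M R (cht y (g * tau M u)) ⊆ Pl M T (cht y g) :=
  Pl_mono fun _ hx => ⟨_, mul_mem hu (WL_mono hT hx), cht_mul h hx⟩

theorem N_congr (h : gr X g R = gr X k R) :
    Ng X y g R = Ng X y k R ∧ NR X y g R = NR X y k R ∧ Np X y g R = Np X y k R := by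
  simp only [Ng, NR, Nu, Np, h, and_self]

theorem NR_subset : NR X y g R ⊆ R := Zr_subset

namespace Sy

variable (h : Sy X y)
include h

theorem mem_tau (hg : g ∈ X) (u : M.Group) : g * tau M u ∈ X :=
  (le_tau (R := Finset.univ) (by rw [WP_univ]; trivial) g).up h.up hg

theorem stp (hg : g ∈ X) (R : Finset S) : Stp M R (pr M g) (cht y g) := by
  intro u _ s _
  by_cases d : M.toCoxeterSystem.IsRightDescent u s
  · obtain ⟨c, c0, e⟩ := h.a8 _ (h.mem_tau hg (u * M.toCoxeterSystem.simple s)) s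
    refine ⟨c, c0, ?_⟩
    rw [mul_assoc, ← tau_rightDescent d, pr_mul_tau, ← mul_assoc, rho_mul, rho_simple, rf_self,
      map_neg] at e
    rw [cht, cht, e]
    module
  · obtain ⟨c, c0, e⟩ := h.a8 _ (h.mem_tau hg u) s
    exact ⟨c, c0, by rw [cht, cht, tau_mul_simple d, ← mul_assoc, e, pr_mul_tau]⟩

theorem sup_le (hk : k ∈ X) (l : Le R k g) : Sup R (rho M (pr M k)⁻¹ (y g - y k)) := by
  refine l.ind (P := fun g => Sup R (rho M (pr M k)⁻¹ (y g - y k))) (by simpa using sup_zero)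
    fun a s hs la ih => ?_
  obtain ⟨c, -, e⟩ := h.a8 a (la.up h.up hk) s
  rw [e, sub_right_comm, map_sub, map_smul, ← rho_mul]
  exact ih.sub (((sup_al hs).rho la.pr_mem).smul c)

/-- FACE for a grounded chart. -/
theorem face (hg : g ∈ X) (hs : ∀ s ∈ R, g * (gen M s)⁻¹ ∉ X) {m : (S → ℝ) →ₗ[ℝ] ℝ}
    (hu : Short M R (pr M g) m u) (hp : p ∈ Pl M R (cht y g))
    (hl : ∀ v ∈ WL M R, m (cht y g v) ≤ m p) :
    p ∈ Pl M (Zr M R (pr M g * u) m) (cht y (g * tau M u)) ∧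
      ∀ s ∈ Zr M R (pr M g * u) m, g * tau M u * (gen M s)⁻¹ ∉ X :=
  ⟨Pl_mul hu.nd ▸ (h.stp hg R).face_Pl hu.mem hu.ch hp hl,
    fun s z => h.a4 g hg R hs u hu.mem s (Zr_subset z) (hu.nd s z)⟩

omit h in
theorem N_opt (hR : Sph M R) : Opt M R (cht y (gr X g R)) (Np X y g R) :=
  Classical.epsilon_spec (exists_opt hR _)

omit h in
theorem N_short (hR : Sph M R) :
    Short M R (pr M (gr X g R)) (bL M (Np X y g R)) (Nu X y g R) :=
  Classical.epsilon_spec (exists_short hR _ _)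

omit h in
theorem N_le (hR : Sph M R) : Le R (gr X g R) (Ng X y g R) := le_tau (N_short hR).mem _

omit h in
theorem N_pa (hR : Sph M R) {i : S} (hi : i ∈ R) : 0 ≤ pa (Ng X y g R) (Np X y g R) i := by
  rw [pa, Ng, pr_mul_tau, ← bL_apply]
  exact (N_short hR).ch i hi

omit h in
theorem mem_NR {i : S} : i ∈ NR X y g R ↔ i ∈ R ∧ pa (Ng X y g R) (Np X y g R) i = 0 := by
  rw [pa, Ng, pr_mul_tau, ← bL_apply, NR, mem_Zr]

/-- The core is a state. -/
theorem N_state (hR : Sph M R) (hg : g ∈ X) :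
    State X y (Ng X y g R) (NR X y g R) (Np X y g R) := by
  have a := h.toSys.spec hR hg
  have b := h.face a.mem a.soc (N_short hR) (N_opt hR).1 fun v hv => by
    rw [bL_apply, bL_apply]; exact (N_opt hR).2 v hv
  exact ⟨h.mem_tau a.mem _, b.2, hR.mono NR_subset, b.1, fun i hi => (mem_NR.1 hi).2⟩

theorem N_eq (hR : Sph M R) (hg : g ∈ X) (hp : Opt M R (cht y (gr X g R)) p)
    (hu : Short M R (pr M (gr X g R)) (bL M p) u) : Ng X y g R = gr X g R * tau M u ∧
      NR X y g R = Zr M R (pr M (gr X g R) * u) (bL M p) ∧ Np X y g R = p := by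
  have e : Np X y g R = p := (N_opt hR).unique hR (h.stp (h.toSys.spec hR hg).mem R) hp
  have f : Nu X y g R = u := (N_short hR).unique (e ▸ hu)
  rw [Ng, NR, e, f]
  exact ⟨rfl, rfl, rfl⟩

/-- The core depends only on the class. -/
theorem gr_N (hT : Sph M T) (hs : R ⊆ T) (hg : g ∈ X) : gr X (Ng X y g R) T = gr X g T :=
  h.toSys.common hT (h.toSys.spec (hT.mono hs) hg).mem ((N_le (hT.mono hs)).mono hs)
    ((h.toSys.spec (hT.mono hs) hg).le.mono hs)

theorem state_empty (hg : g ∈ X) : State X y g ∅ (y g) :=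
  ⟨hg, fun _ c => absurd c (Finset.notMem_empty _), sph_empty, Pl_empty.2 cht_one.symm,
    fun _ c => absurd c (Finset.notMem_empty _)⟩

/-- The height of a state in terms of `y`. -/
theorem ht_state (a : State X y g R p) :
    ht (rho M (pr M g)⁻¹ p) = th M R (rho M (pr M g)⁻¹ (y g)) := by
  rw [← th_eq_ht a.sph fun i hi => by rw [← pa_eq]; exact a.perp i hi]
  refine th_congr a.sph ?_
  rw [← map_sub, ← cht_one (y := y)]
  exact (h.stp a.mem R).sup a.pl

/-- DEC -/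
theorem dec (a : State X y g R p) (hT : Sph M T) (hs : R ⊆ T) (hp : ∀ i ∈ T, pa g p i ≤ 0)
    {j : S} (hj : j ∈ T) (hl : pa g p j < 0) :
    ht (rho M (pr M (Ng X y g T))⁻¹ (Np X y g T)) < ht (rho M (pr M g)⁻¹ p) := by
  have b := h.toSys.spec hT a.mem
  have e : ∀ k, Le T (gr X g T) k → ∀ x,
      th M T (rho M (pr M k)⁻¹ x) = th M T (rho M (pr M (gr X g T))⁻¹ x) := fun k l x => by
    rw [← th_rho hT l.pr_mem, ← rho_mul, mul_inv_cancel_right]
  refine (ht_le_th hT fun i hi => pa_eq _ _ i ▸ N_pa hT hi).trans_lt (lt_of_eq_of_lt ?_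
    (th_lt_ht hT (fun i hi => pa_eq _ _ i ▸ hp i hi) hj (pa_eq _ _ j ▸ hl)))
  have c1 := (h.stp b.mem T).sup (N_opt (y := y) hT).1
  have c2 := ((h.stp a.mem R).sup a.pl).mono hs
  have c3 := h.sup_le b.mem b.le
  rw [cht_one, map_sub] at c1 c2
  rw [map_sub] at c3
  rw [e _ (N_le hT), th_congr hT c1, th_congr hT c2, e g b.le, th_congr hT c3]

end Sy

theorem State.pos (a : State X y g R p) (h9 : ∀ w, Pos (rho M (pr M g)⁻¹ (y (g * tau M w)))) :
    Pos (rho M (pr M g)⁻¹ p) := pos_of_Pl (fun u _ => h9 u) a.pl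

theorem State.zero (a : State X y g R 0) (h9 : ∀ w, Pos (rho M (pr M g)⁻¹ (y (g * tau M w)))) :
    ∃ w ∈ WL M R, y (g * tau M w) = 0 := by
  obtain ⟨u, hu, e⟩ := exists_zero (fun u _ => h9 u) a.pl (map_zero _)
  exact ⟨u, hu, (rho_inv' (pr M g) (y (g * tau M u))).symm.trans (by rw [e, map_zero])⟩

theorem State.sph_union (a : State X y g R p)
    (h9 : ∀ w, Pos (rho M (pr M g)⁻¹ (y (g * tau M w)))) (hT : ∀ j ∈ T, pa g p j < 0) :
    Sph M (R ∪ T) :=
  Chart.sph_union a.sph (a.pos h9) (fun i hi => (pa_eq _ _ i ▸ a.perp i hi).le)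
    fun j hj => pa_eq _ _ j ▸ hT j hj

end Pool.Agent.HT.CN

namespace Pool.Agent.HT.FS.Sys

open Pool.Agent.Lib.MP_6d85b4_al Pool.Agent.HT.Core Pool.Agent.HT.Gr Pool.Agent.HT.Chart
  Pool.Agent.HT.CN

variable {S : Type} [Fintype S] [DecidableEq S] {M : CoxeterMatrix S} {F : Sys M}

theorem sy (hT : F.Term) : Sy F.X F.y := ⟨grSys hT, F.a4, F.a8⟩

theorem St.state {a : Tr M} (h : F.St a) : State F.X F.y a.g a.R a.p :=
  ⟨h.gd.1, h.gd.2, h.sph, h.mem, h.perp⟩

theorem isCore_eq (hT : F.Term) {g : Art M} (hg : g ∈ F.X) {T : Finset S} (h : Sph M T)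
    {a : Tr M} (ha : F.IsCore (gr F.X g T) T a) :
    a = ⟨Ng F.X F.y g T, NR F.X F.y g T, Np F.X F.y g T⟩ := by
  obtain ⟨u, h1, h2, h3, h4⟩ := ha
  obtain ⟨e1, e2, e3⟩ := (sy hT).N_eq h hg h1 h2
  rw [e1, e2, e3, ← h3, ← h4]

theorem coreStmt (hT : F.Term) : F.CoreStmt := by
  have spec : ∀ g ∈ F.X, ∀ T, Sph M T → F.IsCore (gr F.X g T) T (F.N g T) := fun g _ T h =>
    Classical.epsilon_spec (p := F.IsCore (gr F.X g T) T)
      ⟨⟨Ng F.X F.y g T, NR F.X F.y g T, Np F.X F.y g T⟩, _, Sy.N_opt h, Sy.N_short h, rfl, rfl⟩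
  refine ⟨spec, fun g hg T h a ha => (isCore_eq hT hg h (spec g hg T h)).trans
    (isCore_eq hT hg h ha).symm, fun g hg T h => ?_, fun Lo hL g hg hl T h => ?_,
    fun a ha => ha.state.sph_union (F.a9 _ ha.gd.1) fun j hj => (Finset.mem_filter.1 hj).2,
    fun a ha h0 => ?_, fun a ha ⟨w, hw⟩ hJ => ?_⟩
  · rw [isCore_eq hT hg h (spec g hg T h)]
    have b := (sy hT).N_state h hg
    exact ⟨⟨⟨b.mem, b.soc⟩, b.sph, b.pl, b.perp⟩, NR_subset, Sy.N_le h⟩
  · rw [isCore_eq hT hg h (spec g hg T h)]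
    have b := (grSys hT).spec h hg
    exact hL.up _ (b.le.down hL.dn hl) T ⟨b.mem, b.soc⟩ _ (Sy.N_short h).mem
  · obtain ⟨w, -, e⟩ := (h0 ▸ ha.state).zero (F.a9 _ ha.gd.1)
    exact ⟨w, (F.a9z _ (tau_X ha.gd.1 w)).1 e⟩
  · have p1 := ha.state.pos (F.a9 _ ha.gd.1)
    have p2 := pos_of_Pl (f := -loc M (a.g * tau M w)) (fun u _ => F.a9n _ ha.gd.1 w u hw) ha.mem
    have p3 := (least (M := M) (L := Finset.univ) (z := rho M (pr M a.g)⁻¹ a.p) (fun s _ => by
      rw [← pa_eq]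
      exact not_lt.1 fun c => Finset.notMem_empty s
        (hJ ▸ Finset.mem_filter.2 ⟨Finset.mem_univ s, c⟩)) (w := w⁻¹)
      (by rw [← WP_eq, WP_univ]; trivial)).1
    rw [LinearMap.neg_apply, loc, pr_mul_tau, mul_inv_rev, rho_mul] at p2
    rw [← rho_inv' (pr M a.g) a.p, show rho M (pr M a.g)⁻¹ a.p = 0 from funext fun i => by
      have := p1 i
      have := p2 i
      have := p3 i
      simp only [Pi.neg_apply, Pi.sub_apply, Pi.zero_apply] at *
      linarith, map_zero]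

end Pool.Agent.HT.FS.Sys
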