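import Pool.Agent.Lib.HT.FS.Stmt

/-! The height drops along the flow. -/

set_option linter.unusedSectionVars false

namespace Pool.Agent.HT.Chart

open Pool.Agent.Lib.MP_6d85b4_al Pool.Agent.HT.Core Pool.Agent.HT.Aff

variable {S : Type} [Fintype S] [DecidableEq S] {M : CoxeterMatrix S} {R T : Finset S}

/-- The height of a state is a value of the invariant height. -/
theorem ht_mem_Val {DD : Set ℝ} (h : Sph M R) {c : M.Group} {Y : M.Group → S → ℝ} {p : S → ℝ}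
    (hs : Stp M R c Y) (hp : p ∈ Pl M R Y) (h0 : ∀ i ∈ R, ip M i (rho M c⁻¹ p) = 0)
    (hD : ∀ j, rho M c⁻¹ (Y 1) j ∈ DD) : ht (rho M c⁻¹ p) ∈ Val M DD :=
  ⟨R, _, h, hD, by
    rw [← th_eq_ht h h0]
    exact th_congr h (by rw [← map_sub]; exact hs.sup hp)⟩

/-- The strict drop of the height. -/
theorem dec_core (h : Sph M T) {c w : M.Group} {p q : S → ℝ} (hw : w ∈ WL M T)
    (e : Sup T (rho M c⁻¹ (q - p))) (hp : ∀ i ∈ T, ip M i (rho M c⁻¹ p) ≤ 0) {j : S} (hj : j ∈ T)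
    (hl : ip M j (rho M c⁻¹ p) < 0) (hq : ∀ i ∈ T, 0 ≤ ip M i (rho M (c * w)⁻¹ q)) :
    ht (rho M (c * w)⁻¹ q) < ht (rho M c⁻¹ p) := by
  refine (ht_le_th h hq).trans_lt (lt_of_eq_of_lt ?_ (th_lt_ht h hp hj hl))
  rw [mul_inv_rev, map_mul, Module.End.mul_apply, th_rho h (inv_mem hw)]
  exact th_congr h (by rw [← map_sub]; exact e)

theorem ip_eq_bL (c : M.Group) (q : S → ℝ) (i : S) :
    ip M i (rho M c⁻¹ q) = bL M q (rho M c (al i)) := by
  rw [bL_apply, ← bf_al_r, ← bf_rho (w := c), rho_inv']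

/-- The strict drop, for a chamber of the new point. -/
theorem dec_ch (h : Sph M T) {c w : M.Group} {p q : S → ℝ} (hw : w ∈ WL M T)
    (e : Sup T (rho M c⁻¹ (q - p))) (hp : ∀ i ∈ T, ip M i (rho M c⁻¹ p) ≤ 0) {j : S} (hj : j ∈ T)
    (hl : ip M j (rho M c⁻¹ p) < 0) (hq : Ch M T (c * w) (bL M q)) :
    ht (rho M (c * w)⁻¹ q) < ht (rho M c⁻¹ p) :=
  dec_core h hw e hp hj hl fun i hi => by rw [ip_eq_bL]; exact hq i hi

end Pool.Agent.HT.Chart

namespace Pool.Agent.HT.FS.Sys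

open Pool.Agent.Lib.MP_6d85b4_al Pool.Agent.HT.Core Pool.Agent.HT.Gr Pool.Agent.HT.Chart

variable {S : Type} [Fintype S] [DecidableEq S] {M : CoxeterMatrix S} {F : Sys M}

theorem ip_loc (g : Art M) (p : S → ℝ) (i : S) : ip M i (loc M g p) = bf M p (rt M g i) := by
  rw [ip_eq_bL, Aff.bL_apply]

/-- The vector moves inside the span of the roots along an upward path. -/
theorem sup_of_le {T : Finset S} {k g : Art M} (hk : k ∈ F.X) (h : Le T k g) :
    Aff.Sup T (loc M k (F.y g - F.y k)) := by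
  refine h.ind (P := fun g => Aff.Sup T (loc M k (F.y g - F.y k))) (fun i _ => by simp)
    fun g s hs l ih i hi => ?_
  obtain ⟨c, -, e⟩ := F.a8 g (l.up F.upX hk) s
  have e2 : loc M k (rt M g s) i = 0 := by
    rw [← rho_mul, coord l.pr_mem hi]
    exact Aff.sup_al hs i hi
  rw [e, sub_right_comm, map_sub, map_smul, Pi.sub_apply, ih i hi, Pi.smul_apply, e2, smul_zero,
    sub_zero]

theorem decStmt (hT : F.Term) (hC : F.CoreStmt) : F.DecStmt := by
  refine ⟨fun a ha T h1 h2 h3 => ?_, fun a ha => ht_mem_Val ha.sph (stp ha.gd.1 a.R) ha.mem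
    (fun i hi => (ip_loc _ _ _).trans (ha.perp i hi)) fun j => by
      rw [Y_one]; exact F.a12 _ ha.gd.1 j⟩
  have hS : Sph M T := (hC.sph a ha).mono h2
  obtain ⟨u, o, sh, eg, -⟩ := hC.spec a.g ha.gd.1 T hS
  have g0 := (grSys hT).spec hS ha.gd.1
  set k := gr F.X a.g T
  set b := F.N a.g T
  have hw := g0.le.pr_mem
  obtain ⟨j, hj, hj'⟩ := Finset.exists_of_ssubset (h1.ssubset_of_ne h3.symm)
  have hJ : ∀ i ∈ T, i ∉ a.R → ip M i (loc M a.g a.p) < 0 := fun i hi hi' => by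
    rw [ip_loc]
    exact (Finset.mem_filter.1 ((Finset.mem_union.1 (h2 hi)).resolve_left hi')).2
  have e : pr M a.g * (((pr M k)⁻¹ * pr M a.g)⁻¹ * u) = pr M k * u := by group
  have := dec_ch hS (c := pr M a.g) (p := a.p) (q := b.p) (mul_mem (inv_mem hw) sh.mem)
    (fun i hi => ?_) (fun i hi => ?_) hj (hJ j hj hj') (by rw [e]; exact sh.ch)
  · rw [e] at this
    rwa [Tr.phi, Tr.phi, eg, loc, map_mul, pr_tau]
  · have s1 := (stp g0.mem T).sup o.1 i hi
    have s2 := (stp ha.gd.1 a.R).sup ha.mem i fun c => hi (h1 c)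
    have s3 := sup_of_le g0.mem g0.le i hi
    rw [Y_one] at s1 s2
    have t : ∀ x, rho M (pr M a.g)⁻¹ x i = rho M (pr M k)⁻¹ x i := fun x => by
      rw [← coord hw hi (rho M (pr M a.g)⁻¹ x), ← rho_mul, mul_assoc, mul_inv_cancel, mul_one]
    rw [t] at s2 ⊢
    simp only [map_sub, Pi.sub_apply] at s1 s2 s3 ⊢
    linarith
  · by_cases c : i ∈ a.R
    · exact ((ip_loc _ _ _).trans (ha.perp i c)).le
    · exact (hJ i hi c).le

end Pool.Agent.HT.FS.Sys
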