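import Pool.Agent.Lib.HT.Sph
import Pool.Agent.Lib.HT.Tits

/-! Flow systems, first part: prefixes, lifts, the least finishing element. -/

set_option autoImplicit false
set_option linter.unusedSectionVars false

namespace Pool.Agent.HT.P7

open Pool.Agent.Lib.MP_6d85b4_al Tits

variable {S : Type} [Fintype S] [DecidableEq S] {M : CoxeterMatrix S} {R R' : Finset S}

/-- length -/
noncomputable abbrev ln (w : M.Group) : ℕ := M.toCoxeterSystem.length w

/-- left descent -/
abbrev LD (w : M.Group) (s : S) : Prop := M.toCoxeterSystem.IsLeftDescent w s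

/-- right descent -/
abbrev RD (w : M.Group) (s : S) : Prop := M.toCoxeterSystem.IsRightDescent w s

/-- prefix -/
def Pf (u w : M.Group) : Prop := ln w = ln u + ln (u⁻¹ * w)

theorem ss_l (s : S) (w : M.Group) : sm M s * (sm M s * w) = w :=
  M.toCoxeterSystem.simple_mul_simple_cancel_left s

theorem ss_r (s : S) (w : M.Group) : w * sm M s * sm M s = w :=
  M.toCoxeterSystem.simple_mul_simple_cancel_right s

theorem sm_inv (s : S) : (sm M s)⁻¹ = sm M s := M.toCoxeterSystem.inv_simple s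

theorem ln_sm (s : S) : ln (sm M s) = 1 := M.toCoxeterSystem.length_simple s

theorem ld_len {w : M.Group} {s : S} (h : LD w s) : ln (sm M s * w) + 1 = ln w :=
  M.toCoxeterSystem.isLeftDescent_iff.1 h

theorem nld_len {w : M.Group} {s : S} (h : ¬ LD w s) : ln (sm M s * w) = ln w + 1 :=
  M.toCoxeterSystem.not_isLeftDescent_iff.1 h

theorem rd_len {w : M.Group} {s : S} (h : RD w s) : ln (w * sm M s) + 1 = ln w :=
  M.toCoxeterSystem.isRightDescent_iff.1 h

theorem nrd_len {w : M.Group} {s : S} (h : ¬ RD w s) : ln (w * sm M s) = ln w + 1 :=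
  M.toCoxeterSystem.not_isRightDescent_iff.1 h

theorem ld_neg {w : M.Group} {s : S} (h : LD w s) : Pos (-rho M w⁻¹ (al s)) :=
  Core.neg_of_descent (M.toCoxeterSystem.isRightDescent_inv_iff.2 h)

theorem ld_of_neg {w : M.Group} {s : S} (h : Pos (-rho M w⁻¹ (al s))) : LD w s :=
  M.toCoxeterSystem.isRightDescent_inv_iff.1 (descent_iff.2 h)

theorem pos_cn {w : M.Group} (h : ∀ s ∈ R, Pos (rho M w (al s))) {p : S → ℝ}
    (hp : Core.Cn R p) : Pos (rho M w p) := fun i =>
  hp.nonneg (θ := (LinearMap.proj i).comp (rho M w)) fun s hs => h s hs i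

theorem Pf.one (w : M.Group) : Pf 1 w := by simp [Pf]

theorem Pf.le {u w : M.Group} (h : Pf u w) : ln u ≤ ln w := by unfold Pf at h; omega

theorem Pf.antisymm {u w : M.Group} (h : Pf u w) (h' : Pf w u) : u = w := by
  have := h'.le
  unfold Pf at h
  exact inv_mul_eq_one.1 (M.toCoxeterSystem.length_eq_zero_iff.1 (by omega : ln (u⁻¹ * w) = 0))

theorem ld_of_add {v u : M.Group} {s : S} (h : ln (v * u) = ln v + ln u) (hd : LD v s) :
    LD (v * u) s := by
  have h1 := ld_len hd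
  have h2 : ln (sm M s * v * u) ≤ ln (sm M s * v) + ln u := M.toCoxeterSystem.length_mul_le _ _
  rw [mul_assoc] at h2
  change ln (sm M s * (v * u)) < ln (v * u)
  omega

theorem Pf.ld {u w : M.Group} {s : S} (h : Pf u w) (hd : LD u s) : LD w s := by
  have := ld_of_add (u := u⁻¹ * w) (by rw [mul_inv_cancel_left]; exact h) hd
  rwa [mul_inv_cancel_left] at this

/-- a prefix of an element of a parabolic subgroup lies in it -/
theorem Pf.mem {u w : M.Group} (h : Pf u w) (hw : w ∈ W M R) : u ∈ W M R := by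
  induction hn : ln u using Nat.strong_induction_on generalizing u w with
  | _ n ih =>
  by_cases e : u = 1
  · exact e ▸ one_mem _
  obtain ⟨s, hs⟩ := M.toCoxeterSystem.exists_leftDescent_of_ne_one e
  have d := h.ld hs
  have m : s ∈ R := Core.mem_of_neg (inv_mem hw) (ld_neg d)
  have := ih _ (hn ▸ hs) (u := sm M s * u) (w := sm M s * w) (by
    have h1 := ld_len hs
    have h2 := ld_len d
    unfold Pf at h ⊢
    rw [mul_inv_rev, sm_inv, mul_assoc, ss_l]
    omega) (mul_mem (sm_mem m) hw) rfl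
  have := mul_mem (sm_mem (M := M) m) this
  rwa [ss_l] at this

theorem pf_of_ld {w : M.Group} (h : ∀ i ∈ R, LD w i) {u : M.Group} (hu : u ∈ W M R) : Pf u w := by
  refine Core.ind (L := R) (P := fun u => Pf u w) (Pf.one w) (fun u hu s hs p ih => ?_) hu
  have h1 := nrd_len (fun d => (desc_iff u s).1 d p)
  have h2 : LD (u⁻¹ * w) s := ld_of_neg (by
    rw [mul_inv_rev, inv_inv, rho_mul]
    exact neg_cn (fun i hi => ld_neg (h i hi)) (Core.cn_root hu hs p))
  have h3 := ld_len h2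
  change Pf (u * sm M s) w
  unfold Pf at ih ⊢
  rw [mul_inv_rev, sm_inv, mul_assoc]
  omega

theorem add_of_nrd {v : M.Group} (h : ∀ i ∈ R, ¬ RD v i) {u : M.Group} (hu : u ∈ W M R) :
    ln (v * u) = ln v + ln u := by
  refine Core.ind (L := R) (P := fun u => ln (v * u) = ln v + ln u) (by simp)
    (fun u hu s hs p ih => ?_) hu
  have h1 := nrd_len (fun d => (desc_iff u s).1 d p)
  have h2 : ¬ RD (v * u) s := fun d => (desc_iff _ s).1 d (by
    rw [rho_mul]
    exact pos_cn (fun i hi => pos_of_not_descent M _ _ (h i hi)) (Core.cn_root hu hs p))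
  have h3 := nrd_len h2
  change ln (v * (u * sm M s)) = ln v + ln (u * sm M s)
  rw [← mul_assoc]
  omega

variable (M) in
/-- A group with generators, a projection to the Coxeter group and the lift of reduced words. -/
structure Lift (A : Type) [Group A] where
  gen : S → A
  pr : A →* M.Group
  tau : M.Group → A
  deg : A → ℤ
  pr_gen : ∀ s, pr (gen s) = sm M s
  tau_sm : ∀ s, tau (sm M s) = gen s
  tau_mul : ∀ u v, ln (u * v) = ln u + ln v → tau (u * v) = tau u * tau v
  deg_gen : ∀ g s, deg (g * gen s) = deg g + 1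

variable {A : Type} [Group A]

namespace Lift

variable (L : Lift M A)

theorem tau_one : L.tau 1 = 1 := by
  have := L.tau_mul 1 1 (by simp)
  rw [mul_one] at this
  exact left_eq_mul.1 this

theorem tau_r {w : M.Group} {s : S} (h : ¬ RD w s) : L.tau (w * sm M s) = L.tau w * L.gen s := by
  rw [L.tau_mul _ _ (by rw [nrd_len h, ln_sm]), L.tau_sm]

theorem tau_l {w : M.Group} {s : S} (h : ¬ LD w s) : L.tau (sm M s * w) = L.gen s * L.tau w := by
  rw [L.tau_mul _ _ (by rw [nld_len h, ln_sm, add_comm]), L.tau_sm]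

theorem tau_r' {w : M.Group} {s : S} (h : RD w s) : L.tau w = L.tau (w * sm M s) * L.gen s := by
  rw [← L.tau_r (M.toCoxeterSystem.isRightDescent_iff_not_isRightDescent_mul.1 h), ss_r]

theorem tau_l' {w : M.Group} {s : S} (h : LD w s) : L.tau w = L.gen s * L.tau (sm M s * w) := by
  rw [← L.tau_l (M.toCoxeterSystem.isLeftDescent_iff_not_isLeftDescent_mul.1 h), ss_l]

theorem tau_pf {u w : M.Group} (h : Pf u w) : L.tau w = L.tau u * L.tau (u⁻¹ * w) := by
  rw [← L.tau_mul _ _ (by rw [mul_inv_cancel_left]; exact h), mul_inv_cancel_left]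

/-- below, by generators in `R` -/
def Le (R : Finset S) (k g : A) : Prop :=
  Relation.ReflTransGen (fun a b => ∃ s ∈ R, b = a * L.gen s) k g

variable {L}

theorem Le.refl (g : A) : L.Le R g g := Relation.ReflTransGen.refl

theorem Le.trans {a b c : A} (h : L.Le R a b) (h' : L.Le R b c) : L.Le R a c :=
  Relation.ReflTransGen.trans h h'

theorem Le.step {s : S} (hs : s ∈ R) (g : A) : L.Le R g (g * L.gen s) :=
  Relation.ReflTransGen.single ⟨s, hs, rfl⟩

theorem Le.mono {a b : A} (h : L.Le R a b) (hR : R ⊆ R') : L.Le R' a b := by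
  induction h with
  | refl => exact Le.refl _
  | tail _ e ih => obtain ⟨s, hs, rfl⟩ := e; exact ih.trans (Le.step (hR hs) _)

theorem Le.up {P : A → Prop} (hP : ∀ g s, P g → P (g * L.gen s)) {a b : A} (h : L.Le R a b)
    (ha : P a) : P b := by
  induction h with
  | refl => exact ha
  | tail _ e ih => obtain ⟨s, -, rfl⟩ := e; exact hP _ _ ih

theorem Le.down {P : A → Prop} (hP : ∀ g s, P (g * L.gen s) → P g) {a b : A} (h : L.Le R a b)
    (hb : P b) : P a := by
  induction h with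
  | refl => exact hb
  | tail _ e ih => obtain ⟨s, -, rfl⟩ := e; exact ih (hP _ _ hb)

theorem Le.deg {a b : A} (h : L.Le R a b) : L.deg a ≤ L.deg b := by
  induction h with
  | refl => exact le_rfl
  | tail _ e ih => obtain ⟨s, -, rfl⟩ := e; rw [L.deg_gen]; omega

theorem Le.pr {a b : A} (h : L.Le R a b) : (L.pr a)⁻¹ * L.pr b ∈ W M R := by
  induction h with
  | refl => simp
  | tail _ e ih =>
    obtain ⟨s, hs, rfl⟩ := e
    rw [map_mul, L.pr_gen, ← mul_assoc]
    exact mul_mem ih (sm_mem hs)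

theorem le_tau {w : M.Group} (hw : w ∈ W M R) (g : A) : L.Le R g (g * L.tau w) := by
  refine Core.ind (L := R) (P := fun w => L.Le R g (g * L.tau w))
    (by rw [L.tau_one, mul_one]; exact Le.refl g) (fun u _ s hs p ih => ?_) hw
  rw [L.tau_r fun d => (desc_iff u s).1 d p, ← mul_assoc]
  exact ih.trans (Le.step hs _)

theorem le_tau' (w : M.Group) (g : A) : L.Le Finset.univ g (g * L.tau w) :=
  le_tau (mem_W_univ w) g

variable (L)

theorem pr_tau (w : M.Group) : L.pr (L.tau w) = w := by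
  refine Core.ind (L := Finset.univ) (P := fun w => L.pr (L.tau w) = w)
    (by rw [L.tau_one, map_one]) (fun u _ s _ p ih => ?_) (mem_W_univ w)
  rw [L.tau_r fun d => (desc_iff u s).1 d p, map_mul, ih, L.pr_gen]

theorem deg_tau (g : A) (w : M.Group) : L.deg (g * L.tau w) = L.deg g + ln w := by
  refine Core.ind (L := Finset.univ) (P := fun w => L.deg (g * L.tau w) = L.deg g + ln w)
    (by simp [L.tau_one]) (fun u _ s _ p ih => ?_) (mem_W_univ w)
  have d : ¬ RD u s := fun d => (desc_iff u s).1 d p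
  rw [L.tau_r d, ← mul_assoc, L.deg_gen, ih, nrd_len d]
  push_cast
  ring

/-- the simple root `i` at `g` -/
noncomputable def a (g : A) (i : S) : S → ℝ := rho M (L.pr g) (al i)

/-- coordinates at `g` -/
noncomputable def co (g : A) (x : S → ℝ) : S → ℝ := rho M (L.pr g)⁻¹ x

end Lift

/-- The part of a flow system that is needed for the finishing elements. -/
structure Pre (L : Lift M A) where
  X : A → Prop
  X' : A → Prop
  y : A → S → ℝ
  sub : ∀ g, X' g → X g
  up : ∀ g s, X g → X (g * L.gen s)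
  up' : ∀ g s, X' g → X' (g * L.gen s)
  a5 : ∀ g, X g → ¬ X' g → ∃ s, ¬ X (g * (L.gen s)⁻¹)
  a6 : ∀ g s w, X g → ¬ X (g * (L.gen s)⁻¹) → X' (g * L.tau w) → LD w s
  a9b : ∀ g, X g → (y g = 0 ↔ X' g)
  a10 : ∀ h j w, X h → X (h * (L.gen j)⁻¹) → LD w j →
    0 ≤ bf M (y (h * L.tau w)) (L.a h j) ∧
      (bf M (y (h * L.tau w)) (L.a h j) = 0 →
        y (h * L.tau (sm M j * w)) = y (h * L.tau w) ∧
          ∀ i, ¬ RD w i → ¬ X (h * L.tau w * (L.gen i)⁻¹) →
            ¬ X (h * L.tau (sm M j * w) * (L.gen i)⁻¹))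

namespace Pre

variable {L : Lift M A} (F : Pre L)

/-- grounded pairs -/
def Gd (g : A) (R : Finset S) : Prop := F.X g ∧ ∀ s ∈ R, ¬ F.X (g * (L.gen s)⁻¹)

/-- admissible lower windows -/
structure LoOK (Lo : A → Prop) : Prop where
  dn : ∀ g s, Lo (g * L.gen s) → Lo g
  a3 : ∀ g R w, F.Gd g R → Lo g → w ∈ W M R → Lo (g * L.tau w)

/-- `g` finishes -/
def Fn (g : A) : Prop := ∃ w, F.X' (g * L.tau w)

/-- connected in the small window -/
def Cn (Lo : A → Prop) : A → A → Prop :=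
  Relation.EqvGen fun a b => F.X' a ∧ Lo b ∧ ∃ s, b = a * L.gen s

variable {F} {Lo : A → Prop}

theorem X_tau {g : A} (h : F.X g) (w : M.Group) : F.X (g * L.tau w) := (L.le_tau' w g).up F.up h

theorem cn_of_le (hL : F.LoOK Lo) {a b : A} (h : L.Le R a b) (ha : F.X' a) (hb : Lo b) :
    F.Cn Lo a b := by
  induction h with
  | refl => exact .refl _
  | tail h1 e ih =>
    obtain ⟨s, -, rfl⟩ := e
    exact .trans _ _ _ (ih (hL.dn _ _ hb)) (.rel _ _ ⟨Lift.Le.up F.up' h1 ha, hb, s, rfl⟩)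

theorem F0 {g : A} (hg : F.X g) (hf : F.Fn g) : ∃ u, F.X' (g * L.tau u) ∧
    (∀ w, F.X' (g * L.tau w) → Pf u w) ∧ ∀ Lo, F.LoOK Lo → Lo g → Lo (g * L.tau u) := by
  obtain ⟨w, hw⟩ := hf
  induction hn : ln w using Nat.strong_induction_on generalizing g w with
  | _ n ih =>
  by_cases e : F.X' g
  · exact ⟨1, by rwa [L.tau_one, mul_one], fun w _ => Pf.one w,
      fun _ _ h => by rwa [L.tau_one, mul_one]⟩
  obtain ⟨s, hs⟩ := F.a5 g hg e
  have key : ∀ w, F.X' (g * L.tau w) → LD w s ∧ F.X' (g * L.gen s * L.tau (sm M s * w)) :=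
    fun w hw => ⟨F.a6 g s w hg hs hw, by rwa [mul_assoc, ← L.tau_l' (F.a6 g s w hg hs hw)]⟩
  obtain ⟨u, h1, h2, h3⟩ := ih _ (hn ▸ (key w hw).1) (F.up g s hg) _ (key w hw).2 rfl
  have pf : ∀ w, F.X' (g * L.tau w) → ¬ LD u s ∧ Pf (sm M s * u) w := fun w hw => by
    have p := h2 _ (key w hw).2
    have q := ld_len (key w hw).1
    have d : ¬ LD u s := fun d =>
      M.toCoxeterSystem.isLeftDescent_iff_not_isLeftDescent_mul.1 (key w hw).1 (p.ld d)
    refine ⟨d, ?_⟩
    have := nld_len d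
    unfold Pf at p ⊢
    rw [mul_inv_rev, sm_inv, mul_assoc]
    omega
  have e1 : g * L.tau (sm M s * u) = g * L.gen s * L.tau u := by
    rw [L.tau_l (pf w hw).1, mul_assoc]
  refine ⟨sm M s * u, e1 ▸ h1, fun w hw => (pf w hw).2, fun Lo hL h => e1 ▸ h3 Lo hL ?_⟩
  have := hL.a3 g {s} (sm M s) ⟨hg, fun t ht => Finset.mem_singleton.1 ht ▸ hs⟩ h
    (sm_mem (Finset.mem_singleton_self s))
  rwa [L.tau_sm] at this

variable (F) in
open Classical in
/-- the least finishing element -/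
noncomputable def u (g : A) : M.Group := if h : F.X g ∧ F.Fn g then (F0 h.1 h.2).choose else 1

variable (F) in
/-- the end point -/
noncomputable def e (g : A) : A := g * L.tau (F.u g)

theorem u_spec {g : A} (hg : F.X g) (hf : F.Fn g) : F.X' (F.e g) ∧
    (∀ w, F.X' (g * L.tau w) → Pf (F.u g) w) ∧ ∀ Lo, F.LoOK Lo → Lo g → Lo (F.e g) := by
  have : F.u g = (F0 hg hf).choose := dif_pos ⟨hg, hf⟩
  rw [e, this]
  exact (F0 hg hf).choose_spec

theorem fn_of_X' {g : A} (h : F.X' g) : F.Fn g := ⟨1, by rwa [L.tau_one, mul_one]⟩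

theorem e_of_X' {g : A} (h : F.X' g) : F.e g = g := by
  have := (u_spec (F.sub g h) (fn_of_X' h)).2.1 1 (by rwa [L.tau_one, mul_one])
  rw [e, this.antisymm (Pf.one _), L.tau_one, mul_one]

theorem F1 {g : A} {s : S} (hg : F.X g) (hf : F.Fn (g * L.gen s)) :
    F.Fn g ∧ Pf (F.u g) (sm M s * F.u (g * L.gen s)) ∧
      F.e (g * L.gen s) = F.e g * L.tau ((F.u g)⁻¹ * (sm M s * F.u (g * L.gen s))) := by
  have hx := F.up g s hg
  obtain ⟨h1, h2, -⟩ := u_spec hx hf
  have d : ¬ LD (F.u (g * L.gen s)) s := fun d => by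
    have z : F.y (g * L.gen s * L.tau (F.u (g * L.gen s))) = 0 := (F.a9b _ (F.sub _ h1)).2 h1
    have := ((F.a10 _ s _ hx (by rwa [mul_inv_cancel_right]) d).2
      (by rw [z, Aff.bf_zero_l])).1
    rw [z] at this
    have p := (h2 _ ((F.a9b _ (X_tau hx _)).1 this)).le
    have := ld_len d
    omega
  have e1 : g * L.tau (sm M s * F.u (g * L.gen s)) = F.e (g * L.gen s) := by
    rw [L.tau_l d, e, mul_assoc]
  have f : F.Fn g := ⟨_, e1 ▸ h1⟩
  have p := (u_spec hg f).2.1 _ (e1 ▸ h1)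
  exact ⟨f, p, by rw [← e1, L.tau_pf p, e, mul_assoc]⟩

/-- end points along a chain -/
theorem F1_le {k g : A} (h : L.Le R k g) (hk : F.X k) (hf : F.Fn g) :
    F.Fn k ∧ L.Le Finset.univ (F.e k) (F.e g) := by
  induction h with
  | refl => exact ⟨hf, Lift.Le.refl _⟩
  | tail h1 e ih =>
    obtain ⟨s, -, rfl⟩ := e
    obtain ⟨f, -, e⟩ := F1 (Lift.Le.up F.up h1 hk) hf
    exact ⟨(ih f).1, (ih f).2.trans (e ▸ L.le_tau' _ _)⟩

/-- end points along a chain, inside a parabolic subgroup -/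
theorem F1_leR {k g : A} (h : L.Le R k g) (hk : F.X k) (hf : F.Fn g) (hu : F.u g ∈ W M R) :
    F.u k ∈ W M R ∧ L.Le R (F.e k) (F.e g) := by
  induction h with
  | refl => exact ⟨hu, Lift.Le.refl _⟩
  | tail h1 e ih =>
    obtain ⟨s, hs, rfl⟩ := e
    obtain ⟨f, p, e⟩ := F1 (Lift.Le.up F.up h1 hk) hf
    have m := mul_mem (sm_mem (M := M) hs) hu
    have m' := p.mem m
    exact ⟨(ih f m').1, (ih f m').2.trans (e ▸ L.le_tau (mul_mem (inv_mem m') m) _)⟩

theorem F1_cn (hL : F.LoOK Lo) {k g : A} (h : L.Le R k g) (hk : F.X k) (hf : F.Fn g) (hg : Lo g) :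
    F.Fn k ∧ F.Cn Lo (F.e k) (F.e g) :=
  have h1 := F1_le h hk hf
  ⟨h1.1, cn_of_le hL h1.2 (u_spec hk h1.1).1 ((u_spec (h.up F.up hk) hf).2.2 Lo hL hg)⟩

theorem F2 {g : A} (hg : F.Gd g R) (hf : F.Fn g) {u : M.Group} (hu : u ∈ W M R) :
    F.Fn (g * L.tau u) := by
  obtain ⟨w, hw⟩ := hf
  refine ⟨u⁻¹ * w, ?_⟩
  rwa [mul_assoc, ← L.tau_pf (pf_of_ld (fun i hi => F.a6 g i w hg.1 (hg.2 i hi) hw) hu)]

end Pre

end Pool.Agent.HT.P7
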