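import Pool.Agent.Lib.HT.FS.Stmt
import Pool.Agent.Lib.HT.FS.P7A

set_option autoImplicit false
set_option linter.unusedSectionVars false

/-! Block FIN. -/

namespace Pool.Agent.HT.FS

open Pool.Agent.Lib.MP_6d85b4_al

variable {S : Type} [Fintype S] [DecidableEq S] {M : CoxeterMatrix S}

variable (M) in
/-- The lift of the Artin group. -/
noncomputable def artLift : P7.Lift M (Art M) where
  gen := gen M
  pr := pr M
  tau := tau M
  deg := deg M
  pr_gen := fun s => pr_gen M s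
  tau_sm := fun s => tau_simple s
  tau_mul := fun _ _ h => tau_mul h
  deg_gen := fun g s => by rw [deg_mul, deg_gen]

theorem le_iff {R : Finset S} {k g : Art M} : (artLift M).Le R k g ↔ Gr.Le R k g := by
  refine ⟨fun h => ?_, fun h => h.ind (P := fun g => (artLift M).Le R k g) (P7.Lift.Le.refl _)
    fun g s hs _ ih => ih.trans (P7.Lift.Le.step hs g)⟩
  induction h with
  | refl => exact Gr.Le.refl _
  | tail _ e ih => obtain ⟨s, hs, rfl⟩ := e; exact ih.trans (Gr.le_gen hs _)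

namespace Sys

variable (F : Sys M)

/-- The underlying data. -/
def pre : P7.Pre (artLift M) where
  X := fun g => g ∈ F.X
  X' := fun g => g ∈ F.X'
  y := F.y
  sub := fun _ h => F.sub h
  up := fun g s h => F.upX g h s
  up' := fun g s h => F.upX' g h s
  a5 := F.a5
  a6 := fun g s w h => F.a6 g h s w
  a9b := F.a9z
  a10 := fun h j w a b c => ⟨F.a10 h a j w b c, fun e => ⟨F.a10y h a j w b c e, F.a10s h a j w b c e⟩⟩

variable {F}

theorem pre_lo {Lo : Set (Art M)} (h : F.IsLo Lo) : F.pre.LoOK fun g => g ∈ Lo :=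
  ⟨fun g s k => by simpa [artLift] using h.dn _ k s, fun g R w a b c => h.up g b R a w c⟩

theorem eps_eq {g : Art M} (hg : g ∈ F.X) (hf : F.Fn g) :
    F.IsU g (F.pre.u g) ∧ Classical.epsilon (F.IsU g) = F.pre.u g := by
  obtain ⟨a, b, -⟩ := P7.Pre.u_spec (F := F.pre) hg hf
  have h : F.IsU g (F.pre.u g) := ⟨a, b⟩
  have k := Classical.epsilon_spec (p := F.IsU g) ⟨_, h⟩
  exact ⟨h, P7.Pf.antisymm (k.2 _ a) (b _ k.1)⟩

theorem en_eq {g : Art M} (hg : g ∈ F.X) (hf : F.Fn g) : F.en g = F.pre.e g := by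
  rw [en, (eps_eq hg hf).2]
  rfl

theorem conn_of_cn {Lo : Set (Art M)} (h : F.IsLo Lo) {a b : Art M}
    (c : F.pre.Cn (fun g => g ∈ Lo) a b) : Conn M (F.X' ∩ Lo) a b := by
  induction c with
  | rel a b e =>
    obtain ⟨h1, h2, s, rfl⟩ := e
    exact .rel _ _ ⟨⟨h1, (pre_lo h).dn _ s h2⟩, ⟨F.upX' a h1 s, h2⟩, s, rfl⟩
  | refl => exact .refl _
  | symm _ _ _ ih => exact .symm _ _ ih
  | trans _ _ _ _ _ i j => exact .trans _ _ _ i j

variable (F) in
theorem finStmt : F.FinStmt where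
  isU := fun g hg hf => (eps_eq hg hf).2 ▸ (eps_eq hg hf).1
  self := fun g hg => by
    have f : F.Fn g := P7.Pre.fn_of_X' (F := F.pre) hg
    exact ⟨f, (en_eq (F.sub hg) f).trans (P7.Pre.e_of_X' (F := F.pre) hg)⟩
  lo := fun Lo h g hg hl hf => by
    obtain ⟨a, -, b⟩ := P7.Pre.u_spec (F := F.pre) hg hf
    rw [en_eq hg hf]
    exact ⟨a, b _ (pre_lo h) hl⟩
  down := fun Lo h R k g hk l hl hf => by
    obtain ⟨a, b⟩ := P7.Pre.F1_cn (F := F.pre) (pre_lo h) (le_iff.2 l) hk hf hl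
    rw [en_eq hk a, en_eq (l.up F.upX hk) hf]
    exact ⟨a, conn_of_cn h b⟩
  chart := fun g R hg hf u hu => P7.Pre.F2 (F := F.pre) hg hf hu
  retract := fun R k g hk l h => by
    obtain ⟨w, hw, e⟩ := h g l
    have hg := l.up F.upX hk
    have f : F.Fn g := ⟨w, e⟩
    have m := P7.Pf.mem ((eps_eq hg f).1.2 w e) hw
    obtain ⟨a, b⟩ := P7.Pre.F1_leR (F := F.pre) (le_iff.2 l) hk f m
    have f' : F.Fn k := (P7.Pre.F1_le (F := F.pre) (le_iff.2 l) hk f).1
    rw [en_eq hk f', en_eq hg f]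
    exact ⟨_, a, _, m, rfl, rfl, le_iff.1 b⟩

end Sys

end Pool.Agent.HT.FS
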