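import Pool.Agent.Lib.HT.Sph

/-! Spherical subsets: a positivity test, the vector `eta`, the height `theta`, and the point of
least norm of a polytope. -/

set_option autoImplicit false
set_option linter.unusedSectionVars false

namespace Pool.Agent.HT

open Pool.Agent.Lib.MP_6d85b4_al Pool.Agent.HT.Core Pool.Agent.HT.Aff

variable {S : Type} [Fintype S] [DecidableEq S] {M : CoxeterMatrix S} {R T J : Finset S}

/-- Off the support of a nonnegative vector the pairing is nonnegative. -/
theorem ip_nonneg_of_zero {x : S → ℝ} (hx : Pos x) {i : S} (h : x i = 0) : 0 ≤ ip M i x := by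
  rw [ip_apply]
  refine Finset.sum_nonneg fun j _ => ?_
  by_cases e : i = j
  · rw [← e, h, mul_zero]
  · exact mul_nonneg (cc_nonneg e) (hx j)

/-- The positivity test. -/
theorem Sph.union (hR : Sph M R) {p : S → ℝ} (hp : Pos p) (h0 : ∀ i ∈ R, ip M i p ≤ 0)
    (hJ : ∀ j ∈ J, ip M j p < 0) : Sph M (R ∪ J) := by
  rcases (R ∪ J).eq_empty_or_nonempty with e | e
  · rw [e]
    exact sph_empty
  obtain ⟨q, l, hq, q0, ev, nq, mx⟩ := pf (M := M) e
  have hl : l < 0 := by
    by_contra c
    rw [not_lt] at c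
    set r : S → ℝ := fun i => if i ∈ R ∪ J then p i else 0 with hr
    have rp : Pos r := fun i => by
      simp only [hr]
      split_ifs
      exacts [hp i, le_rfl]
    have a1 : ∀ i ∈ R ∪ J, ip M i r ≤ ip M i p := fun i hi => by
      have := ip_nonneg_of_zero (M := M) (x := p - r) (i := i) (fun j => by
        simp only [hr, Pi.sub_apply]
        split_ifs
        · simp
        · simpa using hp j) (by simp only [hr, Pi.sub_apply, if_pos hi, sub_self])
      rw [map_sub] at this
      linarith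
    have a2 : 0 ≤ bf M r q := Finset.sum_nonneg fun i _ => by
      by_cases hi : i ∈ R ∪ J
      · rw [ev i hi]
        exact mul_nonneg (rp i) (mul_nonneg c (hq.1 i))
      · simp only [hr, if_neg hi, zero_mul, le_refl]
    have a3 : ∀ i, q i * ip M i r ≤ 0 := fun i => by
      by_cases hi : i ∈ R ∪ J
      · refine mul_nonpos_of_nonneg_of_nonpos (hq.1 i) ((a1 i hi).trans ?_)
        rcases Finset.mem_union.1 hi with k | k
        exacts [h0 i k, (hJ i k).le]
      · rw [hq.2 i hi, zero_mul]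
    rw [bf_symm] at a2
    have a4 := (Finset.sum_eq_zero_iff_of_nonpos fun i _ => a3 i).1
      (le_antisymm (Finset.sum_nonpos fun i _ => a3 i) a2)
    have a5 : ∀ i, i ∉ R → q i = 0 := fun i hi => by
      by_cases k : i ∈ J
      · exact (mul_eq_zero.1 (a4 i (Finset.mem_univ i))).resolve_right
          ((a1 i (Finset.mem_union_right _ k)).trans_lt (hJ i k)).ne
      · exact hq.2 i (by simp [hi, k])
    have := hR q a5 q0
    linarith
  intro x hx x0
  refine (mx x hx).trans_lt (mul_neg_of_neg_of_pos hl ?_)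
  obtain ⟨i, hi⟩ := Function.ne_iff.1 x0
  exact Finset.sum_pos' (fun j _ => sq_nonneg _) ⟨i, Finset.mem_univ i, sq_pos_of_ne_zero hi⟩

theorem sph_of_pos {v : S → ℝ} (hv : Pos v) (h : ∀ i ∈ R, ip M i v < 0) : Sph M R := by
  simpa using (sph_empty (M := M)).union hv (by simp) h

theorem sph_single (s : S) : Sph M {s} :=
  sph_of_pos (pos_al s) fun i hi => by
    rw [Finset.mem_singleton.1 hi, ip_al, cc_self]
    norm_num

theorem Sph.eq_zero (h : Sph M R) {x : S → ℝ} (hx : Sup R x) (e : 0 ≤ bf M x x) : x = 0 :=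
  by_contra fun c => absurd (h x hx c) (not_lt.2 e)

/-- A dominant vector of the span is nonnegative. -/
theorem Sph.pos_of_dom (h : Sph M R) {x : S → ℝ} (hx : Sup R x) (hd : ∀ i ∈ R, ip M i x ≤ 0) :
    Pos x := by
  set n : S → ℝ := fun i => max (-x i) 0 with hn
  have n0 : Pos n := fun i => le_max_right _ _
  have ns : Sup R n := fun i hi => by simp [hn, hx i hi]
  have p0 : Pos (x + n) := fun i => by
    have := le_max_left (-x i) 0
    simp only [hn, Pi.add_apply]
    linarith
  have a : bf M n x ≤ 0 := Finset.sum_nonpos fun i _ => by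
    by_cases hi : i ∈ R
    · exact mul_nonpos_of_nonneg_of_nonpos (n0 i) (hd i hi)
    · rw [ns i hi, zero_mul]
  have b : 0 ≤ bf M n (x + n) := Finset.sum_nonneg fun i _ => by
    rcases le_total (-x i) 0 with c | c
    · simp [hn, c]
    · exact mul_nonneg (n0 i) (ip_nonneg_of_zero p0 (by simp [hn, c]))
  rw [bf_add_r] at b
  have := h.eq_zero ns (by linarith)
  rwa [this, add_zero] at p0

theorem Sph.exists_eta (h : Sph M R) :
    ∃ e : S → ℝ, Sup R e ∧ (∀ i ∈ R, 0 < e i) ∧ ∀ i ∈ R, ip M i e = -1 := by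
  obtain ⟨e, he, k⟩ := ND.rep (sph_iff_nd.1 h) fun _ => -1
  have p := h.pos_of_dom he fun i hi => by rw [k i hi]; norm_num
  refine ⟨e, he, fun i hi => (p i).lt_of_ne fun c => ?_, k⟩
  have := ip_nonneg_of_zero (M := M) p c.symm
  rw [k i hi] at this
  norm_num at this

variable (M R) in
open Classical in
/-- The vector of the span of `R` pairing to one with the simple roots of `R`. -/
noncomputable def eta : S → ℝ := if h : Sph M R then h.exists_eta.choose else 0

theorem eta_spec (h : Sph M R) :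
    Sup R (eta M R) ∧ (∀ i ∈ R, 0 < eta M R i) ∧ ∀ i ∈ R, ip M i (eta M R) = -1 := by
  rw [eta, dif_pos h]
  exact h.exists_eta.choose_spec

theorem eta_pos (h : Sph M R) : Pos (eta M R) := fun i => by
  by_cases hi : i ∈ R
  · exact ((eta_spec h).2.1 i hi).le
  · exact ((eta_spec h).1 i hi).ge

variable (M R) in
/-- The height made invariant under the parabolic subgroup of `R`. -/
noncomputable def theta : (S → ℝ) →ₗ[ℝ] ℝ := ht + bL M (eta M R)

theorem theta_apply (x : S → ℝ) : theta M R x = ht x + ∑ i, eta M R i * ip M i x := by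
  rw [theta, LinearMap.add_apply, bL_apply, bf]

theorem theta_al (i : S) : theta M R (al i) = 1 + ip M i (eta M R) := by
  rw [theta, LinearMap.add_apply, bL_apply, ht_al, bf_al_r]

theorem theta_al_mem (h : Sph M R) {i : S} (hi : i ∈ R) : theta M R (al i) = 0 := by
  rw [theta_al, (eta_spec h).2.2 i hi, add_neg_cancel]

theorem theta_al_not (h : Sph M R) {i : S} (hi : i ∉ R) : 1 ≤ theta M R (al i) := by
  rw [theta_al]
  exact le_add_of_nonneg_right (ip_nonneg_of_zero (eta_pos h) ((eta_spec h).1 i hi))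

theorem theta_al_nonneg (h : Sph M R) (i : S) : 0 ≤ theta M R (al i) := by
  by_cases hi : i ∈ R
  · exact (theta_al_mem h hi).ge
  · exact zero_le_one.trans (theta_al_not h hi)

theorem theta_sup (h : Sph M R) {x : S → ℝ} (hx : Sup R x) : theta M R x = 0 := by
  rw [expand]
  refine Finset.sum_eq_zero fun i _ => ?_
  by_cases hi : i ∈ R
  · rw [theta_al_mem h hi, mul_zero]
  · rw [hx i hi, zero_mul]

theorem theta_congr (h : Sph M R) {x y : S → ℝ} (e : Sup R (x - y)) :
    theta M R x = theta M R y := by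
  rw [← sub_eq_zero, ← map_sub, theta_sup h e]

theorem theta_rho (h : Sph M R) {w : M.Group} (hw : w ∈ WL M R) (x : S → ℝ) :
    theta M R (rho M w x) = theta M R x :=
  theta_congr h fun i hi => by rw [Pi.sub_apply, coord hw hi, sub_self]

theorem theta_eq_ht (h : Sph M R) {p : S → ℝ} (hp : ∀ i ∈ R, ip M i p = 0) :
    theta M R p = ht p := by
  rw [theta, LinearMap.add_apply, bL_apply, bf_eq_zero (eta_spec h).1 hp, add_zero]

theorem ht_le_theta (h : Sph M R) {p : S → ℝ} (hp : ∀ i ∈ R, 0 ≤ ip M i p) :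
    ht p ≤ theta M R p := by
  rw [theta_apply]
  refine le_add_of_nonneg_right (Finset.sum_nonneg fun i _ => ?_)
  by_cases hi : i ∈ R
  · exact mul_nonneg (eta_pos h i) (hp i hi)
  · rw [(eta_spec h).1 i hi, zero_mul]

theorem theta_lt_ht (h : Sph M R) {p : S → ℝ} (hp : ∀ i ∈ R, ip M i p ≤ 0) {j : S} (hj : j ∈ R)
    (hlt : ip M j p < 0) : theta M R p < ht p := by
  rw [theta_apply, add_lt_iff_neg_left]
  refine Finset.sum_neg' (fun i _ => ?_)
    ⟨j, Finset.mem_univ j, mul_neg_of_pos_of_neg ((eta_spec h).2.1 j hj) hlt⟩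
  by_cases hi : i ∈ R
  · exact mul_nonpos_of_nonneg_of_nonpos (eta_pos h i) (hp i hi)
  · rw [(eta_spec h).1 i hi, zero_mul]

theorem theta_nonneg (h : Sph M R) {c : S → ℝ} (hc : Pos c) : 0 ≤ theta M R c := by
  rw [expand]
  exact Finset.sum_nonneg fun i _ => mul_nonneg (hc i) (theta_al_nonneg h i)

variable (M) in
/-- The heights of the vectors with coordinates in `DD`. -/
def Vals (DD : Set ℝ) : Set ℝ :=
  {t | ∃ (R : Finset S) (c : S → ℝ), Sph M R ∧ (∀ i, c i ∈ DD) ∧ t = theta M R c}

theorem vals_finite {DD : Set ℝ} (h0 : ∀ x ∈ DD, 0 ≤ x)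
    (hf : ∀ C : ℝ, {x | x ∈ DD ∧ x ≤ C}.Finite) (C : ℝ) :
    {t | t ∈ Vals M DD ∧ t ≤ C}.Finite := by
  have f1 : (Set.pi Set.univ fun _ : S => insert 0 {x | x ∈ DD ∧ x ≤ C}).Finite :=
    Set.Finite.pi fun _ => (hf C).insert 0
  refine ((Set.finite_univ.prod f1).image
    fun z : Finset S × (S → ℝ) => theta M z.1 z.2).subset ?_
  rintro t ⟨⟨R, c, hR, hc, rfl⟩, le⟩
  refine ⟨(R, fun i => if i ∈ R then 0 else c i), ⟨trivial, fun i _ => ?_⟩,
    theta_congr hR fun i hi => by simp [hi]⟩
  by_cases hi : i ∈ R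
  · simp [hi]
  · simp only [if_neg hi]
    refine Or.inr ⟨hc i, le_trans ?_ le⟩
    rw [expand]
    exact (le_mul_of_one_le_right (h0 _ (hc i)) (theta_al_not hR hi)).trans
      (Finset.single_le_sum (f := fun j => c j * theta M R (al j))
        (fun j _ => mul_nonneg (h0 _ (hc j)) (theta_al_nonneg hR j)) (Finset.mem_univ i))

variable (M) in
/-- The number of heights below `t`. -/
noncomputable def rkV (DD : Set ℝ) (t : ℝ) : ℕ := {x | x ∈ Vals M DD ∧ x < t}.ncard

theorem rkV_lt {DD : Set ℝ} (h0 : ∀ x ∈ DD, 0 ≤ x) (hf : ∀ C : ℝ, {x | x ∈ DD ∧ x ≤ C}.Finite)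
    {s t : ℝ} (hs : s ∈ Vals M DD) (h : s < t) : rkV M DD s < rkV M DD t :=
  Set.ncard_lt_ncard ⟨fun _ hx => ⟨hx.1, hx.2.trans h⟩, fun c => lt_irrefl s (c ⟨hs, h⟩).2⟩
    ((vals_finite h0 hf t).subset fun _ hx => ⟨hx.1, hx.2.le⟩)

/-- A linear inequality passes to the convex hull. -/
theorem hull_le {F : Set (S → ℝ)} {m : (S → ℝ) →ₗ[ℝ] ℝ} {c : ℝ} (h : ∀ z ∈ F, m z ≤ c)
    {p : S → ℝ} (hp : p ∈ convexHull ℝ F) : m p ≤ c :=
  convexHull_min h (convex_halfSpace_le m.isLinear c) hp

theorem hull_ge {F : Set (S → ℝ)} {m : (S → ℝ) →ₗ[ℝ] ℝ} {c : ℝ} (h : ∀ z ∈ F, c ≤ m z)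
    {p : S → ℝ} (hp : p ∈ convexHull ℝ F) : c ≤ m p :=
  convexHull_min h (convex_halfSpace_ge m.isLinear c) hp

theorem hull_eq {F : Set (S → ℝ)} {m : (S → ℝ) →ₗ[ℝ] ℝ} {c : ℝ} (h : ∀ z ∈ F, m z = c)
    {p : S → ℝ} (hp : p ∈ convexHull ℝ F) : m p = c :=
  le_antisymm (hull_le (fun z hz => (h z hz).le) hp) (hull_ge (fun z hz => (h z hz).ge) hp)

/-- A point of the hull where a functional is largest lies in the hull of the extreme points. -/
theorem hull_face {F : Set (S → ℝ)} {m : (S → ℝ) →ₗ[ℝ] ℝ} {p : S → ℝ}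
    (hp : p ∈ convexHull ℝ F) (h : ∀ z ∈ F, m z ≤ m p) :
    p ∈ convexHull ℝ {z | z ∈ F ∧ m z = m p} := by
  have key : convexHull ℝ F ⊆
      {x | m x < m p ∨ x ∈ convexHull ℝ {z | z ∈ F ∧ m z = m p}} := by
    refine convexHull_min (fun z hz => ?_) ?_
    · rcases (h z hz).lt_or_eq with c | c
      · exact Or.inl c
      · exact Or.inr (subset_convexHull _ _ ⟨hz, c⟩)
    · intro x hx y hy a b ha hb hab
      have e : ∀ u, u ∈ convexHull ℝ {z | z ∈ F ∧ m z = m p} → m u = m p := fun u hu =>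
        hull_eq (fun z hz => hz.2) hu
      have v : m (a • x + b • y) = a * m x + b * m y := by simp
      have w : m p = a * m p + b * m p := by rw [← add_mul, hab, one_mul]
      rcases hx with hx | hx <;> rcases hy with hy | hy
      · left
        rw [v, w]
        rcases ha.eq_or_lt with c | c
        · have : 0 < b := by linarith
          nlinarith
        · nlinarith
      · rcases ha.eq_or_lt with c | c
        · right
          have : b = 1 := by linarith
          rwa [← c, this, zero_smul, zero_add, one_smul]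
        · left
          rw [v, w, e y hy]
          nlinarith
      · rcases hb.eq_or_lt with c | c
        · right
          have : a = 1 := by linarith
          rwa [← c, this, zero_smul, add_zero, one_smul]
        · left
          rw [v, w, e x hx]
          nlinarith
      · exact Or.inr (convex_convexHull ℝ _ hx hy ha hb hab)
  exact (key hp).resolve_left (lt_irrefl _)

variable (M) in
/-- `p` is a point of least norm of the hull of `F`. -/
def IsMin (F : Set (S → ℝ)) (p : S → ℝ) : Prop :=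
  p ∈ convexHull ℝ F ∧ ∀ z ∈ F, bf M p z ≤ bf M p p

theorem IsMin.le {F : Set (S → ℝ)} {p z : S → ℝ} (h : IsMin M F p) (hz : z ∈ convexHull ℝ F) :
    bf M p z ≤ bf M p p := by
  rw [← bL_apply]
  exact hull_le (fun x hx => by rw [bL_apply]; exact h.2 x hx) hz

theorem exists_isMin {F : Set (S → ℝ)} (hf : F.Finite) (hn : F.Nonempty) : ∃ p, IsMin M F p := by
  have cq : Continuous fun x : S → ℝ => bf M x x := by
    simp only [bf, ip_apply]
    fun_prop
  obtain ⟨p, hp, mx⟩ := (hf.isCompact_convexHull ℝ).exists_isMaxOn hn.convexHull cq.continuousOn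
  refine ⟨p, hp, fun z hz => ?_⟩
  have k : ∀ t : ℝ, 0 < t → t ≤ 1 → 2 * bf M p (z - p) + t * bf M (z - p) (z - p) ≤ 0 := by
    intro t h0 h1
    have := mx ((convex_convexHull ℝ F).add_smul_sub_mem hp (subset_convexHull _ _ hz) ⟨h0.le, h1⟩)
    simp only [Set.mem_ofPred_eq] at this
    rw [bf_add_l, bf_add_r, bf_add_r, bf_smul, bf_smul, bf_smul_r, bf_smul_r,
      bf_symm M (z - p) p] at this
    nlinarith
  rw [← sub_nonpos, ← bf_sub_r]
  by_contra c
  rw [not_le] at c
  set a := bf M p (z - p)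
  set q := bf M (z - p) (z - p)
  have d : 0 < a + |q| := by positivity
  have := k (a / (a + |q|)) (by positivity) ((div_le_one d).2 (le_add_of_nonneg_right (abs_nonneg q)))
  have e : a / (a + |q|) * q = a * q / (a + |q|) := by ring
  rw [e, ← le_neg_iff_add_nonpos_left, div_le_iff₀ d] at this
  nlinarith [neg_abs_le q, abs_nonneg q]

theorem IsMin.unique (h : Sph M R) {F : Set (S → ℝ)} {p q : S → ℝ} (hp : IsMin M F p)
    (hq : IsMin M F q) {w : M.Group} (e : Sup R (rho M w (p - q))) : p = q := by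
  have a := hp.le hq.1
  have b := hq.le hp.1
  have := h.eq_zero e (by
    rw [bf_rho, bf_sub_l, bf_sub_r, bf_sub_r]
    rw [bf_symm M q p] at b ⊢
    linarith)
  rw [← sub_eq_zero, ← rho_inv M w (p - q), this, map_zero]

/-- The hull of points of a coset of the span of `R` lies in that coset. -/
theorem hull_sup {F : Set (S → ℝ)} {y p : S → ℝ} {w : M.Group}
    (h : ∀ z ∈ F, Sup R (rho M w (z - y))) (hp : p ∈ convexHull ℝ F) :
    Sup R (rho M w (p - y)) := fun i hi => by
  have := hull_eq (m := (LinearMap.proj i).comp (rho M w)) (c := rho M w y i) (fun z hz => by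
    have := h z hz i hi
    rwa [map_sub, Pi.sub_apply, sub_eq_zero] at this) hp
  rw [map_sub, Pi.sub_apply, sub_eq_zero]
  exact this

theorem hull_pos {F : Set (S → ℝ)} {p : S → ℝ} {w : M.Group}
    (h : ∀ z ∈ F, Pos (rho M w z)) (hp : p ∈ convexHull ℝ F) : Pos (rho M w p) := fun i =>
  hull_ge (m := (LinearMap.proj i).comp (rho M w)) (c := 0) (fun z hz => h z hz i) hp

end Pool.Agent.HT
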