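import Pool.Agent.Lib.HT.FS.Stmt
import Pool.Agent.Lib.HT.FS.SphE

set_option autoImplicit false
set_option linter.unusedSectionVars false

/-! Block PUSH. -/

namespace Pool.Agent.HT.FS.B56

open Pool.Agent.Lib.MP_6d85b4_al Pool.Agent.HT.Gr Pool.Agent.HT.Chart

variable {S : Type} [Fintype S] [DecidableEq S] {M : CoxeterMatrix S} {F : Sys M}

theorem N_congr (hC : F.CoreStmt) {g g' : Art M} (hg : g ∈ F.X) (hg' : g' ∈ F.X) {T : Finset S}
    (hT : Sph M T) (e : gr F.X g T = gr F.X g' T) : F.N g T = F.N g' T :=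
  hC.eq g hg T hT _ (e ▸ hC.spec g' hg' T hT)

theorem st_start {g : Art M} (hg : g ∈ F.X) : F.St ⟨g, ∅, F.y g⟩ :=
  ⟨⟨hg, fun _ h => absurd h (Finset.notMem_empty _)⟩, sph_empty,
    Pl_empty.2 (Sys.Y_one g).symm, fun _ h => absurd h (Finset.notMem_empty _)⟩

theorem pushStmt (hT : F.Term) (hF : F.FinStmt) (hC : F.CoreStmt) (hD : F.DecStmt)
    (hU : F.UStmt) : F.PushStmt := by
  obtain ⟨f, hf⟩ := val_rank (M := M) F.a12n F.a12f
  have G := Sys.grSys hT
  let A : Abs (Art M) S (Tr M) :=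
    { ok := F.St, g := Tr.g, R := Tr.R, J := Tr.J, Sph := Sph M, N := F.N, fin := F.Fn
      e := F.en
      lt := fun a b => f a.phi < f b.phi
      wf := (measure (fun a : Tr M => f a.phi)).wf
      mono := fun _ _ h k => h.mono k
      sph := hC.sph
      disj := fun a ha j hj c => by
        have h1 : bf M a.p (rt M a.g j) < 0 := by simpa [Tr.J] using hj
        exact h1.ne (ha.perp j c)
      ok_N := fun a ha T h => (hC.st _ ha.gd.1 T h).1
      R_N := fun a ha T h => (hC.st _ ha.gd.1 T h).2.1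
      cls := fun a ha T T' h h' => by
        have h1 := hC.st _ ha.gd.1 T (h'.mono h)
        have h2 := G.spec (h'.mono h) ha.gd.1
        exact N_congr hC h1.1.gd.1 ha.gd.1 h' (G.common h' h2.mem (h1.2.2.mono h) (h2.le.mono h))
      dec := fun a ha T h1 h2 h3 => hf _ _ (hD.val a ha) (hD.dec a ha T h1 h2 h3)
      u := fun a ha T h1 h2 h3 => by
        obtain ⟨g0, R0, k1, k2, k3, k4⟩ := hU a ha T h1 h2 h3
        have e := hC.eq _ ha.gd.1 T h2 _ k1
        have hs := (hC.st _ ha.gd.1 T h2).1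
        rw [e] at hs ⊢
        have eJ : Tr.J ⟨g0, R0, a.p⟩ = a.J := by
          ext j; simp [Tr.J, k4]
        refine ⟨eJ, k2, fun T' k5 k6 => ?_, fun hJ c => ?_⟩
        · exact N_congr hC hs.gd.1 ha.gd.1 k6 (G.of_le k6 hs.gd.1 (k3.mono k5)).symm
        · exact hC.zero a ha (hC.anti ⟨g0, R0, a.p⟩ hs c (eJ.trans hJ)) }
  refine ⟨fun g => A.val ⟨g, ∅, F.y g⟩, fun g hg => ?_, fun Lo hL => ?_⟩
  · have := Abs.val_fin (F := A) (a := ⟨g, ∅, F.y g⟩) (hF.self g hg).1
    exact this.trans (congrArg some (hF.self g hg).2)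
  have h1 : ∀ a, A.ok a → A.g a ∈ Lo → ∀ T, A.Sph T → A.g (A.N (A.g a) T) ∈ Lo :=
    fun a ha hl T h => hC.lo Lo hL _ ha.gd.1 hl T h
  have hr : Equivalence (Conn M (F.X' ∩ Lo)) := Relation.EqvGen.is_equivalence _
  have key := Abs.claimA (F := A) (Lo := fun g => g ∈ Lo) hr h1 (fun a ha hl c T h => by
    have k1 := G.spec h ha.gd.1
    have k2 := hF.down Lo hL T _ _ k1.mem k1.le hl c
    obtain ⟨u, -, k3, k4, -⟩ := hC.spec _ ha.gd.1 T h
    have k5 : F.Fn (F.N a.g T).g := k4 ▸ hF.chart _ T ⟨k1.mem, k1.soc⟩ k2.1 u k3.mem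
    have k6 := hF.down Lo hL T _ _ k1.mem (hC.st _ ha.gd.1 T h).2.2 (h1 a ha hl T h) k5
    exact ⟨k5, hr.trans (hr.symm k2.2) k6.2⟩)
  refine ⟨fun g hg hl k hk => Abs.val_mem (F := A) (Lo := fun g => g ∈ Lo)
    (Q := fun g => g ∈ F.X' ∩ Lo) h1 (fun a ha hl c => hF.lo Lo hL _ ha.gd.1 hl c) _
    (st_start hg) hl k hk, fun g hg s hl => ?_⟩
  have hs := F.upX g hg s
  have k1 := key _ (st_start hg) (by simpa using hL.dn _ hl s) {s} (Finset.empty_subset _)
    (sph_single s)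
  have k2 := key _ (st_start hs) hl {s} (Finset.empty_subset _) (sph_single s)
  have e : F.N (g * gen M s) {s} = F.N g {s} :=
    N_congr hC hs hg (sph_single s) (G.gr_gen (sph_single s) hg (Finset.mem_singleton_self s))
  change ORel _ _ (A.val (F.N (g * gen M s) {s})) at k2
  rw [e] at k2
  exact ORel.trans hr k1 (ORel.symm hr k2)

end Pool.Agent.HT.FS.B56
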