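import Pool.Agent.Lib.HT.FS.UCox
import Pool.Agent.Lib.HT.FS.Chart
import Pool.Agent.Lib.HT.FS.Gr

set_option autoImplicit false
set_option linter.unusedSectionVars false

/-! Step (U) of the flow: the next state is determined by a point with the right signs. -/

namespace Pool.Agent.HT.UCox

open Pool.Agent.Lib.MP_6d85b4_al CoxeterSystem Pool.Agent.HT.Core Pool.Agent.HT.Chart
  Pool.Agent.HT.Gr

variable {S : Type} [Fintype S] [DecidableEq S] {M : CoxeterMatrix S} {R R' : Finset S}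

/-- The properties of a flow system that are used. -/
structure UH (X : Set (Art M)) (y : Art M → S → ℝ) : Prop where
  sys : Sys X
  a4 : ∀ g ∈ X, ∀ R : Finset S, (∀ s ∈ R, g * (gen M s)⁻¹ ∉ X) → ∀ u ∈ WL M R, ∀ i ∈ R,
    ¬ M.toCoxeterSystem.IsRightDescent u i → g * tau M u * (gen M i)⁻¹ ∉ X
  a8 : ∀ g ∈ X, ∀ s, ∃ k : ℝ, 0 ≤ k ∧ y (g * gen M s) = y g - k • rho M (pr M g) (al s)
  a10 : ∀ h ∈ X, ∀ j, h * (gen M j)⁻¹ ∈ X → ∀ w, M.toCoxeterSystem.IsLeftDescent w j →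
    0 ≤ bf M (y (h * tau M w)) (rho M (pr M h) (al j)) ∧
    (bf M (y (h * tau M w)) (rho M (pr M h) (al j)) = 0 →
      y (h * tau M (M.toCoxeterSystem.simple j * w)) = y (h * tau M w) ∧
      ∀ i, ¬ M.toCoxeterSystem.IsRightDescent w i → h * tau M w * (gen M i)⁻¹ ∉ X →
        h * tau M (M.toCoxeterSystem.simple j * w) * (gen M i)⁻¹ ∉ X)

variable {X : Set (Art M)} {y : Art M → S → ℝ} {g : Art M} {p : S → ℝ}

theorem UH.stp (H : UH X y) (hg : g ∈ X) : Stp M R (pr M g) fun u => y (g * tau M u) := by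
  intro u _ s _
  by_cases c : M.toCoxeterSystem.IsRightDescent u s
  · obtain ⟨k, k0, e⟩ := H.a8 _ (up_tau H.sys.up hg (u * M.toCoxeterSystem.simple s)) s
    rw [mul_assoc, ← tau_rightDescent c, map_mul, pr_tau, ← mul_assoc, Tits.rho_sm_al] at e
    exact ⟨k, k0, by simp [e]⟩
  · obtain ⟨k, k0, e⟩ := H.a8 _ (up_tau H.sys.up hg u) s
    rw [mul_assoc, ← tau_mul_simple c, map_mul, pr_tau] at e
    exact ⟨k, k0, e⟩

theorem tau_add {v u : M.Group} (h : ∀ i ∈ R, ¬ M.toCoxeterSystem.IsRightDescent v i)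
    (hu : u ∈ WL M R) (k : Art M) : k * tau M v * tau M u = k * tau M (v * u) := by
  rw [tau_mul (len_add h hu), mul_assoc]

theorem UH.wall (H : UH X y) {h : Art M} (hh : h ∈ X) {j : S} (hj : h * (gen M j)⁻¹ ∈ X)
    {v : M.Group} (hl : M.toCoxeterSystem.IsLeftDescent v j)
    (nr : ∀ i ∈ R, ¬ M.toCoxeterSystem.IsRightDescent v i) {u : M.Group} (hu : u ∈ WL M R) :
    0 ≤ bf M (rho M (pr M h) (al j)) (y (h * tau M v * tau M u)) := by
  rw [tau_add nr hu, bf_symm]
  exact (H.a10 h hh j hj _ (ld_mul hl (len_add nr hu))).1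

/-- Step 2: a point orthogonal to all of `R'` lies in the polytope of the grounded chart. -/
theorem UH.step2 (H : UH X y) (hS : Sph M R') (hR : R ⊆ R') (hg : g ∈ X)
    (hn : ∀ s ∈ R, g * (gen M s)⁻¹ ∉ X) (hp : p ∈ Pl M R fun u => y (g * tau M u))
    (hz : ∀ j ∈ R', bf M p (rho M (pr M g) (al j)) = 0) :
    p ∈ Pl M R' fun u => y (gr X g R' * tau M u) := by
  induction hc : R.card using Nat.strong_induction_on generalizing R g with
  | _ n ih =>
  induction hd : (deg M g - deg M (gr X g R')).toNat using Nat.strong_induction_on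
    generalizing g with
  | _ d ih2 =>
  obtain ⟨v, hv, h, hX, rfl, nrd, ld⟩ := longest H.sys.up (sph_finite hS) hg
  have nr : ∀ i ∈ R, ¬ M.toCoxeterSystem.IsRightDescent v i := fun i hi => nrd i (hn i hi)
  by_cases c : ∀ j ∈ R', h * (gen M j)⁻¹ ∉ X
  · rw [H.sys.eq hS ⟨hX, le_tau hv h, c⟩]
    exact Pl_mono (fun u hu => ⟨v * u, mul_mem hv (WL_mono hR hu), by rw [tau_add nr hu]⟩) hp
  push Not at c
  obtain ⟨j, hj, hh⟩ := c
  have hl := ld j hj hh
  have p0 : bf M (rho M (pr M h) (al j)) p = 0 := by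
    rw [bf_symm, root_frame h v j]
    exact perp_sup hz ((Tits.sup_al hj).act (inv_mem hv))
  by_cases o : ∀ i ∈ R, bf M (rho M (pr M h) (al j)) (rho M (pr M (h * tau M v)) (al i)) = 0
  · have z : ∀ u ∈ WL M R, bf M (y (h * tau M (v * u))) (rho M (pr M h) (al j)) = 0 := by
      intro u hu
      have := perp_sup o ((H.stp hg).sup' hp (mem_Pl hu))
      rw [rho_inv', Aff.bf_sub_r, p0, zero_sub, neg_eq_zero, tau_add nr hu] at this
      rwa [bf_symm]
    have m : M.toCoxeterSystem.simple j * v ∈ WL M R' := mul_mem (simple_mem hj) hv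
    have nr' : ∀ i ∈ R, ¬ M.toCoxeterSystem.IsRightDescent (M.toCoxeterSystem.simple j * v) i :=
      fun i hi => nrd_ld hl (nr i hi)
    have e := H.sys.common hS hX (le_tau m h) (le_tau hv h)
    rw [← e]
    have hg' := up_tau H.sys.up hX (M.toCoxeterSystem.simple j * v)
    refine ih2 _ ?_ hg' (fun i hi => ?_) (Pl_mono (fun u hu => ⟨u, hu, ?_⟩) hp) (fun i hi => ?_) rfl
    · have a := (H.sys.spec hS hg').le.deg_le
      have b := M.toCoxeterSystem.isLeftDescent_iff.1 hl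
      rw [← hd, ← e]
      simp only [deg_mul, deg_tau] at a ⊢
      omega
    · exact ((H.a10 h hX j hh v hl).2 (by simpa using z 1 (one_mem _))).2 i (nr i hi) (hn i hi)
    · rw [tau_add nr hu, tau_add nr' hu, mul_assoc]
      exact ((H.a10 h hX j hh _ (ld_mul hl (len_add nr hu))).2 (z u hu)).1.symm
    · have := perp_mul hz (mul_mem (inv_mem hv) m) i hi
      rw [map_mul (pr M), pr_tau, mul_assoc, mul_inv_cancel_left] at this
      rwa [map_mul (pr M), pr_tau]
  · obtain ⟨u, hu⟩ := exists_short (hS.mono hR) (pr M (h * tau M v))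
      (-Aff.bL M (rho M (pr M h) (al j)))
    have f := (H.stp hg).face_Pl hu.mem hu.ch hp fun x hx => by
      simp only [LinearMap.neg_apply, Aff.bL_apply, p0, neg_zero, neg_nonpos]
      exact H.wall hX hh hl nr hx
    have m := WL_mono hR hu.mem
    rw [← H.sys.gr_tau hS hg m]
    refine ih _ ?_ (Zr_subset.trans hR) (up_tau H.sys.up hg u)
      (fun i hi => H.a4 _ hg R hn u hu.mem i (Zr_subset hi) (hu.nd i hi))
      (Pl_mono (fun x hx => ⟨x, hx, by rw [tau_add hu.nd hx]⟩) f) (fun i hi => ?_) rfl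
    · rw [← hc]
      refine Finset.card_lt_card ⟨Zr_subset, fun c => o fun i hi => ?_⟩
      have := perp_mul (w := pr M (h * tau M v) * u) (p := rho M (pr M h) (al j))
        (fun t ht => by simpa [Aff.bL_apply] using (mem_Zr.1 (c ht)).2) (inv_mem hu.mem) i hi
      rwa [mul_inv_cancel_right] at this
    · rw [map_mul, pr_tau]
      exact perp_mul hz m i hi

/-- Step 1 when `R` is exactly the set of zeros. -/
theorem UH.step1 (H : UH X y) (hS : Sph M R') (hg : g ∈ X)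
    (hR : Zr M R' (pr M g) (Aff.bL M p) = R)
    (hn : ∀ s ∈ R, g * (gen M s)⁻¹ ∉ X) (hp : p ∈ Pl M R fun u => y (g * tau M u))
    (hs : ∀ j ∈ R', 0 ≤ bf M p (rho M (pr M g) (al j))) :
    Opt M R' (fun u => y (gr X g R' * tau M u)) p ∧
      ∃ v, Short M R' (pr M (gr X g R')) (Aff.bL M p) v ∧ gr X g R' * tau M v = g := by
  have sub : R ⊆ R' := hR ▸ Zr_subset
  have hz : ∀ i ∈ R, bf M p (rho M (pr M g) (al i)) = 0 := fun i hi => by
    rw [← Aff.bL_apply]
    exact (mem_Zr.1 (hR ▸ hi)).2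
  obtain ⟨v, hv, h, hX, rfl, nrd, ld⟩ := longest H.sys.up (sph_finite hS) hg
  have nr : ∀ i ∈ R, ¬ M.toCoxeterSystem.IsRightDescent v i := fun i hi => nrd i (hn i hi)
  have c : ∀ j ∈ R', h * (gen M j)⁻¹ ∉ X := fun j hj hh => by
    have hl := ld j hj hh
    have a : 0 ≤ Aff.bL M (rho M (pr M h) (al j)) p :=
      ge_of_Pl (fun u hu => by rw [Aff.bL_apply]; exact H.wall hX hh hl nr hu) hp
    rw [Aff.bL_apply, bf_symm, root_frame h v j, bf_frame] at a
    have b := (Finset.sum_eq_zero_iff_of_nonpos fun s _ => wall_le hv hj hl hs s).1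
      (le_antisymm (Finset.sum_nonpos fun s _ => wall_le hv hj hl hs s) a)
    obtain ⟨i, hi, d⟩ := rd_of_sup (R := R) hl fun s e => by
      by_cases q : s ∈ R'
      · refine (mul_eq_zero.1 (b s (Finset.mem_univ s))).resolve_right fun z => e ?_
        rw [← hR, mem_Zr, Aff.bL_apply]
        exact ⟨q, z⟩
      · exact (Tits.sup_al hj).act (inv_mem hv) s q
    exact nr i hi d
  rw [H.sys.eq hS ⟨hX, le_tau hv h, c⟩]
  have ch : Ch M R' (pr M h * v) (Aff.bL M p) := fun s q => by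
    rw [Aff.bL_apply, ← pr_tau (M := M) v, ← map_mul]
    exact hs s q
  refine ⟨⟨Pl_mono (fun u hu => ⟨v * u, mul_mem hv (WL_mono sub hu), by rw [tau_add nr hu]⟩) hp,
    fun u hu => ?_⟩, v, ⟨hv, ch, fun i hi => nr i ?_⟩, rfl⟩
  · have a := (H.stp hX).le hv hu ch
    have b := perp_sup hz ((H.stp hg).sup hp)
    rw [rho_inv', Aff.bf_sub_r, tau_one, mul_one, sub_eq_zero] at b
    rw [Aff.bL_apply, Aff.bL_apply] at a
    exact a.trans b.ge
  · rwa [← hR, map_mul, pr_tau]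

/-- (U). -/
theorem UH.u (H : UH X y) (hS : Sph M R') (hR : R ⊆ R') (hg : g ∈ X)
    (hn : ∀ s ∈ R, g * (gen M s)⁻¹ ∉ X) (hp : p ∈ Pl M R fun u => y (g * tau M u))
    (hz : ∀ j ∈ R, bf M p (rho M (pr M g) (al j)) = 0)
    (hs : ∀ j ∈ R', 0 ≤ bf M p (rho M (pr M g) (al j))) {R0 : Finset S}
    (h0 : Zr M R' (pr M g) (Aff.bL M p) = R0) :
    (p ∈ Pl M R0 fun u => y (gr X g R0 * tau M u)) ∧
    (∀ x, bf M p (rho M (pr M (gr X g R0)) x) = bf M p (rho M (pr M g) x)) ∧
    Opt M R' (fun u => y (gr X g R' * tau M u)) p ∧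
      ∃ v, Short M R' (pr M (gr X g R')) (Aff.bL M p) v ∧ gr X g R' * tau M v = gr X g R0 ∧
        Zr M R' (pr M (gr X g R') * v) (Aff.bL M p) = R0 := by
  have sub : R0 ⊆ R' := h0 ▸ Zr_subset
  have S0 := hS.mono sub
  have a := H.step2 S0 (fun i hi => by
    rw [← h0, mem_Zr, Aff.bL_apply]
    exact ⟨hR hi, hz i hi⟩) hg hn hp fun i hi => by
      rw [← Aff.bL_apply]
      exact (mem_Zr.1 (h0 ▸ hi)).2
  have sp := H.sys.spec S0 hg
  have m : ((pr M (gr X g R0))⁻¹ * pr M g)⁻¹ ∈ WL M (Zr M R' (pr M g) (Aff.bL M p)) := by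
    rw [h0]
    exact inv_mem sp.le.pr_mem
  have e : pr M g * ((pr M (gr X g R0))⁻¹ * pr M g)⁻¹ = pr M (gr X g R0) := by group
  have b : ∀ x, bf M p (rho M (pr M (gr X g R0)) x) = bf M p (rho M (pr M g) x) := fun x => by
    have := fix_Zr m x
    rwa [e, Aff.bL_apply, Aff.bL_apply] at this
  have z : Zr M R' (pr M (gr X g R0)) (Aff.bL M p) = R0 := by rw [← e, Zr_mul m, h0]
  obtain ⟨o, v, s, t⟩ := H.step1 hS sp.mem z sp.soc a fun j hj => by rw [b]; exact hs j hj
  rw [H.sys.gr_gr hS sub hg] at o s t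
  refine ⟨a, b, o, v, s, t, ?_⟩
  rw [← pr_tau (M := M) v, ← map_mul, t, z]

end Pool.Agent.HT.UCox
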