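import Pool.Agent.Lib.HT.FS.Stmt
import Pool.Agent.Lib.HT.FS.U2

set_option autoImplicit false
set_option linter.unusedSectionVars false

/-! Block U. -/

namespace Pool.Agent.HT.FS

open Pool.Agent.Lib.MP_6d85b4_al Pool.Agent.HT.Gr Pool.Agent.HT.Chart

variable {S : Type} [Fintype S] [DecidableEq S] {M : CoxeterMatrix S} {F : Sys M}

theorem Sys.uH (hT : F.Term) : UCox.UH F.X F.y :=
  ⟨Sys.grSys hT, F.a4, F.a8, fun h hh j hj w hw =>
    ⟨F.a10 h hh j w hj hw, fun e => ⟨F.a10y h hh j w hj hw e, F.a10s h hh j w hj hw e⟩⟩⟩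

theorem Sys.uStmt (hT : F.Term) : F.UStmt := by
  intro a ha T hR hS hJ
  obtain ⟨-, b, o, v, s, t, z⟩ := (Sys.uH hT).u hS hR ha.gd.1 ha.gd.2 ha.mem ha.perp
    (fun j hj => not_lt.1 fun c => hJ j (by simpa [Tr.J] using c) hj) rfl
  refine ⟨gr F.X a.g (Zr M T (pr M a.g) (Aff.bL M a.p)), Zr M T (pr M a.g) (Aff.bL M a.p),
    ⟨v, o, s, t.symm, z.symm⟩, fun i hi => ?_,
    ((Sys.grSys hT).spec (hS.mono Zr_subset) ha.gd.1).le, fun j => b _⟩
  rw [mem_Zr, Aff.bL_apply]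
  exact ⟨hR hi, ha.perp i hi⟩

end Pool.Agent.HT.FS
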