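import Pool.Agent.Lib.HT.FS.Term54
import Pool.Agent.Lib.HT.FS.Fin
import Pool.Agent.Lib.HT.FS.CoreN
import Pool.Agent.Lib.HT.FS.Dec
import Pool.Agent.Lib.HT.FS.U
import Pool.Agent.Lib.HT.FS.Push56
import Pool.Agent.Lib.HT.Centre
import Pool.Agent.Lib.MP_6d85b4_al.HM.Final

set_option autoImplicit false

/-! The freeness theorem and the centre theorem, assembled. -/

namespace Pool.Agent.HT

open Pool.Agent.Lib.MP_6d85b4_al

theorem pushP_thm : PushP := fun _ _ _ _ F hT =>
  FS.B56.pushStmt hT F.finStmt (FS.Sys.coreStmt hT) (FS.Sys.decStmt hT (FS.Sys.coreStmt hT))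
    (FS.Sys.uStmt hT)

theorem sysC_thm : SysC := fun _ _ _ _ hM _ H _ h1 h2 => FS.exists_sys hM H h1 h2

theorem termC_thm : TermC := FS.T54.termC (fun _ _ _ _ F => F.finStmt)

theorem pushC_thm : PushC := pushC_of sysC_thm termC_thm pushP_thm

theorem free_thm : FreeStmt := free_of_blocks sysC_thm termC_thm pushP_thm

/-- Irreducible non-spherical Artin groups have trivial centre. -/
theorem centre_bot {S : Type} [Fintype S] [DecidableEq S] (M : CoxeterMatrix S)
    (hc : (SimpleGraph.fromRel (fun i j : S => M i j ≠ 2)).Connected) (hi : Infinite M.Group) :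
    Subgroup.center (Art M) = ⊥ := by
  by_cases h : ∃ i j : S, M i j = 0 ∨ 6 ≤ M i j
  · obtain ⟨i, j, h⟩ := h
    exact center_large hc hi h
  · push Not at h
    have hM : Small M := fun s t hst => by
      have e1 := h s t
      have e2 := M.off_diagonal s t hst
      omega
    obtain ⟨Md⟩ := Pool.Agent.HM.modelStmt S (fun s t => M s t) M.symmetric
    refine eq_bot_iff.2 (fun a ha => ?_)
    obtain ⟨k, hk⟩ := centre_thm S M hM Md hc ⟨Md.H, Md.good_H⟩ a ha
    exact free_thm S M hM Md hc hi _ a k hk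

end Pool.Agent.HT
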