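import Pool.Agent.Lib.HT.FS.Sec3
import Pool.Agent.Lib.HT.FS.Stmt

set_option autoImplicit false
set_option linter.unusedSectionVars false

/-! The pushing statement for windows from the flow system of an object. -/

namespace Pool.Agent.HT

open Pool.Agent.Lib.MP_6d85b4_al

/-- Every object without negative self maps and closed under fusion gives a flow system. -/
def SysC : Prop :=
  ∀ (S : Type) [Fintype S] [DecidableEq S] (M : CoxeterMatrix S) (hM : Small M)
    (Md : Model (fun s t => M s t)) (H : Md.GH) (P : Md.D.Obj),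
    (∀ n : ℤ, n < 0 → Md.D.hom P (Md.D.sh n P) = 0) →
    (∀ e Z, Md.D.hom Z P = 0 → Md.D.hom Z (Md.Phi e P) = 0) →
    ∃ F : FS.Sys M, F.X = {g | (Model.act hM H g).1.V 0 P} ∧
      F.X' = {g | (Model.act hM H g).1.V (-1) P} ∧
      ∀ lo : ℤ, lo < 0 → F.IsLo {g | (Model.act hM H g).1.U lo P}

/-- Termination for the shifts of the sum of the simples. -/
def TermC : Prop :=
  ∀ (S : Type) [Fintype S] [DecidableEq S] (M : CoxeterMatrix S) (hM : Small M)
    (Md : Model (fun s t => M s t)) (H : Md.GH) (Q : Md.D.Obj) (b : ℤ) (F : FS.Sys M),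
    H.1.IsSum (blks Finset.univ) Q →
    F.X = {g | (Model.act hM H g).1.V 0 (Md.D.sh (-b) Q)} → F.Term

/-- The pure pushing theorem. -/
def PushP : Prop :=
  ∀ (S : Type) [Fintype S] [DecidableEq S] (M : CoxeterMatrix S) (F : FS.Sys M),
    F.Term → F.PushStmt

theorem pushC_of (h1 : SysC) (h2 : TermC) (h3 : PushP) : PushC := by
  intro S _ _ M hM Md H Q hQ b
  obtain ⟨F, e1, e2, hL⟩ := h1 S M hM Md H (Md.D.sh (-b) Q) (fun n hn => hQ.hom_neg (-b) hn)
    (fun e Z hZ => H.2.sum_Phi hQ (-b) e hZ)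
  obtain ⟨val, v1, v2⟩ := h3 S M F (h2 S M hM Md H Q b F hQ e1)
  have kV : ∀ (g : Art M) (c : ℤ), (Model.act hM H g).1.V (c - b) (Md.D.sh (-b) Q) ↔
      (Model.act hM H g).1.V c Q := fun g c => Heart.V_sh (-b)
  have kU : ∀ (g : Art M) (c : ℤ), (Model.act hM H g).1.U (c - b) (Md.D.sh (-b) Q) ↔
      (Model.act hM H g).1.U c Q := fun g c => Heart.U_sh (-b)
  have k0 : ∀ g, g ∈ F.X ↔ (Model.act hM H g).1.V b Q := fun g => by
    rw [e1, ← kV, sub_self]; rfl
  have k1 : ∀ g, g ∈ F.X' ↔ (Model.act hM H g).1.V (b - 1) Q := fun g => by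
    rw [e2, ← kV, show b - 1 - b = -1 by ring]; rfl
  refine ⟨val, fun g hg => v1 g ((k1 g).2 hg), fun lo hlo => ?_⟩
  obtain ⟨v3, v4⟩ := v2 _ (hL (lo - b) (by omega))
  refine ⟨fun g f hg hf => ?_, fun g s hg hs => ?_⟩
  · obtain ⟨a1, a2⟩ := v3 g ((k0 g).2 hg.2) ((kU g lo).2 hg.1) f hf
    exact ⟨(kU f lo).1 a2, (k1 f).1 a1⟩
  · have h := v4 g ((k0 g).2 hg.2) s ((kU _ lo).2 hs.1)
    revert h
    cases val g <;> cases val (g * gen M s) <;> intro h
    · exact Or.inl ⟨rfl, rfl⟩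
    · exact h.elim
    · exact h.elim
    · refine Or.inr ⟨_, _, rfl, rfl, CnA.mono (P := fun g => g ∈ F.X' ∩ _) (fun g hg => ?_) h⟩
      exact ⟨(kU g lo).1 hg.2, (k1 g).1 hg.1⟩

/-- Freeness from the three blocks. -/
theorem free_of_blocks (h1 : SysC) (h2 : TermC) (h3 : PushP) : FreeStmt :=
  free_of_push (pushC_of h1 h2 h3)

end Pool.Agent.HT
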