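import Pool.Agent.Lib.HT.ArtF
import Pool.Agent.Lib.HT.Tits

set_option autoImplicit false
set_option linter.unusedSectionVars false

/-! The top cohomology of an object and the torsion pairs of unit intervals. -/

namespace Pool.Agent.HT

open Pool.Agent.Lib.MP_6d85b4_al

universe u

namespace Heart

variable {K : Type} [AddCommGroup K] {D : TD.{u} K} {ι : Type}

/-- The part of an object in levels at least zero. -/
noncomputable def top (H : Heart D ι) (P : D.Obj) : D.Obj := (H.trunc 0 P).choose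

lemma top_U (H : Heart D ι) (P : D.Obj) : H.U 0 (H.top P) := by
  obtain ⟨_, h, -⟩ := (H.trunc 0 P).choose_spec
  exact h

lemma top_ext (H : Heart D ι) (P : D.Obj) : ∃ B, H.V (-1) B ∧ D.Ext (H.top P) P B := by
  obtain ⟨B, -, h1, h2⟩ := (H.trunc 0 P).choose_spec
  exact ⟨B, by simpa using h1, h2⟩

variable {H H' : Heart D ι}

lemma top_eq {A P B : D.Obj} (hA : H.U 0 A) (hB : H.V (-1) B) (hE : D.Ext A P B) :
    H.top P = A := by
  obtain ⟨B', h1, h2⟩ := H.top_ext P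
  refine (D.trunc_unique (U := {X | H.U 0 X}) (V := {X | H.V (-1) X})
    (fun X hX Y hY => hom_U_V (by omega) hX hY) (fun X hX => ?_) (fun X hX => ?_)
    (fun _ _ _ hE h1 h2 => Lv.ext h1 h2 hE) (fun _ _ _ hE h1 h2 => Lv.ext h1 h2 hE)
    h2 hE (H.top_U P) hA h1 hB).1
  · rw [← D.sh_one]
    exact U.mono (by omega) ((U_sh 1).2 hX)
  · exact V.mono (by omega) ((V_sh (-1)).2 hX)

lemma V.top_M {P : D.Obj} (hP : H.V 0 P) : H.M (H.top P) := by
  obtain ⟨B, h1, h2⟩ := H.top_ext P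
  exact M_iff.2 ⟨H.top_U P, Lv.ext (V.mono (by omega) ((V_sh (-1)).2 h1)) hP (D.rot' h2)⟩

lemma U.hom_top {Y : D.Obj} (hY : H.U 0 Y) (P : D.Obj) :
    D.hom Y (H.top P) = D.hom Y P := by
  obtain ⟨B, h1, h2⟩ := H.top_ext P
  have e1 := D.les Y _ _ _ h2
  have e2 := D.les Y _ _ _ (D.rot' h2)
  have e3 := hom_U_V (by omega) hY h1
  have e4 := hom_U_V (by omega) hY ((V_sh (-1)).2 h1)
  omega

lemma top_eq_zero {P : D.Obj} : H.top P = D.zero ↔ H.V (-1) P := by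
  constructor
  · intro h
    obtain ⟨B, h1, h2⟩ := H.top_ext P
    rw [h] at h2
    rw [D.eq_of_ext_zero _ _ h2]; exact h1
  · intro h
    exact top_eq Lv.zero h (D.ext_zero P)

/-- The torsion class of a unit interval. -/
def Tc (H H' : Heart D ι) (Y : D.Obj) : Prop := H.M Y ∧ H'.M Y

/-- The torsion free class of a unit interval. -/
def Fc (H H' : Heart D ι) (Y : D.Obj) : Prop := H.M Y ∧ H'.M (D.sh 1 Y)

lemma Unit.Tc_iff (h : H.Unit H') {Y : D.Obj} : Tc H H' Y ↔ H.M Y ∧ H'.U 0 Y :=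
  ⟨fun h1 => ⟨h1.1, (M_iff.1 h1.2).1⟩,
   fun h1 => ⟨h1.1, M_iff.2 ⟨h1.2, h.Vlo 0 Y (M_iff.1 h1.1).2⟩⟩⟩

lemma Unit.Tc_iff' (h : H.Unit H') {Y : D.Obj} : Tc H H' Y ↔ H'.M Y ∧ H.V 0 Y :=
  ⟨fun h1 => ⟨h1.2, (M_iff.1 h1.1).2⟩,
   fun h1 => ⟨M_iff.2 ⟨h.lo Y (M_iff.1 h1.1).1, h1.2⟩, h1.1⟩⟩

lemma Unit.Fc_iff (h : H.Unit H') {Y : D.Obj} : Fc H H' Y ↔ H.M Y ∧ H'.V (-1) Y := by
  constructor
  · intro h1
    exact ⟨h1.1, (V_sh (a := -1) 1).1 (M_iff.1 h1.2).2⟩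
  · intro h1
    exact ⟨h1.1, M_iff.2 ⟨h.hi _ ((U_sh (a := 0) 1).2 (M_iff.1 h1.1).1),
      (V_sh (a := -1) 1).2 h1.2⟩⟩

lemma Tc.zero : Tc H H' D.zero := ⟨Lv.zero, Lv.zero⟩

lemma Fc.zero : Fc H H' D.zero := ⟨Lv.zero, by rw [D.sh_zero_obj]; exact Lv.zero⟩

lemma Tc.ext {A Y B : D.Obj} (hA : Tc H H' A) (hB : Tc H H' B) (hE : D.Ext A Y B) : Tc H H' Y :=
  ⟨Lv.ext hA.1 hB.1 hE, Lv.ext hA.2 hB.2 hE⟩

lemma Fc.ext {A Y B : D.Obj} (hA : Fc H H' A) (hB : Fc H H' B) (hE : D.Ext A Y B) : Fc H H' Y :=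
  ⟨Lv.ext hA.1 hB.1 hE, Lv.ext hA.2 hB.2 ((D.ext_sh 1).2 hE)⟩

lemma Tc.hom_Fc {A B : D.Obj} (hA : Tc H H' A) (hB : Fc H H' B) : D.hom A B = 0 := by
  have := hA.2.hom_neg hB.2 (n := -1) (by omega)
  simpa using this

lemma Tc.eq_zero {A : D.Obj} (hA : Tc H H' A) (hB : Fc H H' A) : A = D.zero :=
  D.eq_zero _ (hA.hom_Fc hB)

lemma Unit.Tc_quot (h : H.Unit H') {N A I : D.Obj} (hN : H.M N) (hI : H.M I) (hE : D.Ext N A I)
    (hA : Tc H H' A) : Tc H H' I :=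
  h.Tc_iff.2 ⟨hI, Lv.ext (M_iff.1 hA.2).1 (h.hi _ ((U_sh (a := 0) 1).2 (M_iff.1 hN).1))
    (D.rot1 hE)⟩

lemma Unit.Fc_sub (h : H.Unit H') {I B C : D.Obj} (hI : H.M I) (hC : H.M C) (hE : D.Ext I B C)
    (hB : Fc H H' B) : Fc H H' I :=
  h.Fc_iff.2 ⟨hI, Lv.ext (h.Vlo (-1) _ (by simpa using (V_sh (-1)).2 (M_iff.1 hC).2))
    (h.Fc_iff.1 hB).2 (D.rot' hE)⟩

lemma Unit.TF (h : H.Unit H') {Y : D.Obj} (hY : H.M Y) :
    ∃ A B, Tc H H' A ∧ Fc H H' B ∧ D.Ext A Y B := by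
  obtain ⟨A, B, h1, h2, h3, h4, hE⟩ := h.dec' hY
  exact ⟨A, B, ⟨h1, h2⟩, ⟨h3, h4⟩, hE⟩

lemma Unit.Tc_of_hom (h : H.Unit H') {Y : D.Obj} (hY : H.M Y)
    (h0 : ∀ B, Fc H H' B → D.hom Y B = 0) : Tc H H' Y := by
  obtain ⟨A, B, hA, hB, hE⟩ := h.TF hY
  have h1 := hA.1.hom_quot hB.1 hE
  have h2 : B = D.zero := D.eq_zero _ (by have := h0 B hB; omega)
  rw [h2] at hE
  rw [← D.eq_of_ext_zero_right hE]; exact hA

lemma Unit.Fc_of_hom (h : H.Unit H') {Y : D.Obj} (hY : H.M Y)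
    (h0 : ∀ A, Tc H H' A → D.hom A Y = 0) : Fc H H' Y := by
  obtain ⟨A, B, hA, hB, hE⟩ := h.TF hY
  have h1 := hB.1.hom_sub hA.1 hE
  have h2 : A = D.zero := D.eq_zero _ (by have := h0 A hA; omega)
  rw [h2] at hE
  rw [D.eq_of_ext_zero _ _ hE]; exact hB

/-- A simple of the lower heart is torsion or torsion free. -/
lemma Unit.S_TF (h : H.Unit H') (i : ι) : Tc H H' (H.S i) ∨ Fc H H' (H.S i) := by
  obtain ⟨A, B, hA, hB, hE⟩ := h.TF (M.simple H i)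
  rcases hA.1.sub_simple hB.1 hE with h1 | h1
  · rw [h1] at hE
    rw [D.eq_of_ext_zero _ _ hE]; exact Or.inr hB
  · rw [h1] at hE
    rw [← D.eq_of_ext_zero_right hE]; exact Or.inl hA

/-- The top of an object in the upper heart is the torsion part of its top in the lower one. -/
lemma Unit.top_eq (h : H.Unit H') {P A F : D.Obj} (hA : Tc H H' A) (hF : Fc H H' F)
    (hE : D.Ext A (H.top P) F) : H'.top P = A := by
  obtain ⟨B, h1, h2⟩ := H.top_ext P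
  obtain ⟨G, h3, h4⟩ := D.assoc _ _ _ _ _ h2 hE
  exact Heart.top_eq (M_iff.1 hA.2).1 (Lv.ext (h.Fc_iff.1 hF).2 (h.Vlo _ _ h1) h4) h3

lemma Unit.top (h : H.Unit H') {P : D.Obj} (hP : H.V 0 P) :
    ∃ F, Tc H H' (H'.top P) ∧ Fc H H' F ∧ D.Ext (H'.top P) (H.top P) F := by
  obtain ⟨A, F, hA, hF, hE⟩ := h.TF hP.top_M
  rw [h.top_eq hA hF hE]
  exact ⟨F, hA, hF, hE⟩

lemma Unit.top_Fc (h : H.Unit H') {P : D.Obj} (hP : H.V 0 P) (h' : H'.V (-1) P) :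
    Fc H H' (H.top P) := by
  obtain ⟨F, -, hF, hE⟩ := h.top hP
  rw [top_eq_zero.2 h'] at hE
  rw [D.eq_of_ext_zero _ _ hE]; exact hF

lemma IsUp.unit {R : Finset ι} (h : H.IsUp R H') : H.Unit H' := ⟨h.U_le 0, h.le_U 0⟩

end Heart

variable {S : Type} [Fintype S] [DecidableEq S] {M : CoxeterMatrix S}

namespace Model

variable {Md : Model (fun s t => M s t)}

/-- `K'` is obtained from `K` by tilting along a reduced word of `w`. -/
structure Iv (hM : Small M) (K K' : Md.GH) (w : M.Group) : Prop where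
  unit : K.1.Unit K'.1
  L : ∀ x, K'.L x = K.L (krho hM w x)

variable {hM : Small M} {K K' : Md.GH} {w : M.Group}

lemma iv_run (hM : Small M) (K : Md.GH) {l : List S} (hl : M.toCoxeterSystem.IsReduced l) :
    Iv hM K (run K l) (M.toCoxeterSystem.wordProd l) := ⟨unit_run hM K hl, L_run hM K l⟩

lemma act_word (hM : Small M) (K : Md.GH) (l : List S) :
    act hM K (l.map (gen M)).prod = run K l := by
  induction l using List.reverseRecOn with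
  | nil => simp [act_one, run]
  | append_singleton l s ih =>
    rw [run_concat, List.map_append, List.prod_append, act_mul, ih]
    simp [act_gen]

lemma iv_word (hM : Small M) (K : Md.GH) {l : List S} (hl : M.toCoxeterSystem.IsReduced l) :
    Iv hM K (act hM K (l.map (gen M)).prod) (M.toCoxeterSystem.wordProd l) := by
  rw [act_word]; exact iv_run hM K hl

lemma iv_gen (hM : Small M) (K : Md.GH) (s : S) :
    Iv hM K (act hM K (gen M s)) (M.toCoxeterSystem.simple s) :=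
  ⟨(isUp_act hM K s).unit, fun x => by rw [L_act, pr_gen]⟩

lemma Iv.unique {K₁ K₂ : Md.GH} (h₁ : Iv hM K K₁ w) (h₂ : Iv hM K K₂ w) : K₁ = K₂ :=
  eq_of_unit h₁.unit h₂.unit (fun x => by rw [← GH.L_single, ← GH.L_single, h₁.L, h₂.L])

lemma Iv.c (h : Iv hM K K' w) (y : KK S) : K.c y = rho M w (K'.c y) := by
  obtain ⟨z, rfl⟩ := K'.L.surjective y
  rw [GH.c, GH.c, LinearEquiv.symm_apply_apply, h.L, LinearEquiv.symm_apply_apply, ev_krho]

lemma Iv.c' (h : Iv hM K K' w) (y : KK S) : K'.c y = rho M w⁻¹ (K.c y) := by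
  rw [h.c, rho_inv]

lemma GH.c_sh (K : Md.GH) {Y : Md.D.Obj} (hY : K.1.M (Md.D.sh 1 Y)) :
    Pos (-K.c (Md.D.cl Y)) := by
  have := K.c_M hY
  rwa [Md.D.sh_one, Md.D.cl_s, GH.c_neg] at this

lemma pos_smul_iff {a : ℝ} (ha : 0 < a) (x : S → ℝ) : Pos (a • x) ↔ Pos x :=
  forall_congr' (fun i => by
    rw [Pi.smul_apply, smul_eq_mul]; exact mul_nonneg_iff_of_pos_left ha)

lemma Iv.S_Fc (h : Iv hM K K' w) (x : S × Irr) :
    Heart.Fc K.1 K'.1 (K.1.S x) ↔ M.toCoxeterSystem.IsLeftDescent w x.1 := by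
  have e : K'.c (Md.D.cl (K.1.S x)) = fp x.2 • rho M w⁻¹ (al x.1) := by
    rw [h.c', GH.c_S, map_smul]
  rw [← CoxeterSystem.isRightDescent_inv_iff, Tits.desc_iff]
  constructor
  · intro h1 h2
    have := K'.c_sh h1.2
    rw [e, ← smul_neg, pos_smul_iff (fp_pos _)] at this
    exact Tits.not_pos_neg h2 this
  · intro h1
    refine (h.unit.S_TF x).resolve_left (fun h2 => h1 ?_)
    have := K'.c_M h2.2
    rwa [e, pos_smul_iff (fp_pos _)] at this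

lemma GH.S_ne (K : Md.GH) (x : S × Irr) : K.1.S x ≠ Md.D.zero := fun h => by
  have := K.1.one x
  rw [h, Md.D.hom_zero] at this
  omega

lemma Iv.S_Tc (h : Iv hM K K' w) (x : S × Irr) :
    Heart.Tc K.1 K'.1 (K.1.S x) ↔ ¬ M.toCoxeterSystem.IsLeftDescent w x.1 := by
  rw [← h.S_Fc]
  exact ⟨fun h1 h2 => K.S_ne x (h1.eq_zero h2), (h.unit.S_TF x).resolve_right⟩

lemma Iv.S_Tc' (h : Iv hM K K' w) (x : S × Irr) :
    Heart.Tc K.1 K'.1 (K'.1.S x) ↔ ¬ M.toCoxeterSystem.IsRightDescent w x.1 := by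
  rw [Tits.desc_iff, not_not]
  constructor
  · intro h1
    have := K.c_M h1.1
    rwa [h.c, GH.c_S, map_smul, pos_smul_iff (fp_pos _)] at this
  · intro h1
    exact ⟨M_of_pos hM h.unit h.L h1, Heart.M.simple _ x⟩

lemma Iv.S_Fc' (h : Iv hM K K' w) (x : S × Irr) :
    Heart.Fc K.1 K'.1 (Md.D.sh (-1) (K'.1.S x)) ↔ M.toCoxeterSystem.IsRightDescent w x.1 := by
  have e : K'.1.M (Md.D.sh 1 (Md.D.sh (-1) (K'.1.S x))) := by simpa using Heart.M.simple K'.1 x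
  constructor
  · intro h1
    by_contra h2
    have h3 := ((h.S_Tc' x).2 h2).1
    have h4 := h3.hom_neg h1.1 (n := -1) (by omega)
    have h5 := h1.1.hom_neg h3 (n := -1) (by omega)
    rw [Md.D.hom_sh, K'.1.one] at h5
    omega
  · intro h1
    refine ⟨(h.unit.simple x).resolve_left (fun h2 => ?_), e⟩
    exact (h.S_Tc' x).1 ⟨h2, Heart.M.simple _ x⟩ h1

lemma GH.Lv_of_c (K : Md.GH) {Y : Md.D.Obj} (hY : K.1.M Y) {P : S → Prop}
    (h0 : ∀ s, ¬ P s → K.c (Md.D.cl Y) s ≤ 0) : K.1.Lv (fun x n => P x.1 ∧ n = 0) Y := by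
  refine hY.supp.mono (fun x n hx => ⟨?_, hx.1⟩)
  by_contra hc
  have h1 := h0 _ hc
  rw [GH.c_apply] at h1
  have h2 := Finset.single_le_sum (f := fun a => fp a * (K.1.mul Y (x.1, a) : ℝ))
    (fun a _ => mul_nonneg (fp_pos a).le (by exact_mod_cast hY.mul_nonneg _))
    (Finset.mem_univ x.2)
  have h3 : (0 : ℝ) < K.1.mul Y (x.1, x.2) := by exact_mod_cast hx.2
  have := mul_pos (fp_pos x.2) h3
  linarith

/-- For `w` in a parabolic subgroup the torsion free class lies over that subgroup. -/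
lemma Iv.Fc_Lv (h : Iv hM K K' w) {R : Finset S} (hw : w ∈ Tits.W M R) {Y : Md.D.Obj}
    (hY : Heart.Fc K.1 K'.1 Y) :
    K.1.Lv (fun x n => x.1 ∈ R ∧ n = 0) Y ∧
      K'.1.Lv (fun x n => x.1 ∈ R ∧ n = 0) (Md.D.sh 1 Y) := by
  refine ⟨K.Lv_of_c hY.1 (P := fun s => s ∈ R) (fun s hs => ?_),
    K'.Lv_of_c hY.2 (P := fun s => s ∈ R) (fun s hs => ?_)⟩
  · rw [h.c, Tits.coord_out hw hs]
    simpa using K'.c_sh hY.2 s
  · rw [Md.D.sh_one, Md.D.cl_s, GH.c_neg, Pi.neg_apply,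
      ← Tits.coord_out hw hs (K'.c _), ← h.c]
    simpa using K.c_M hY.1 s

/-- The classes over a parabolic subgroup agree. -/
lemma Iv.Tc_Lv (h : Iv hM K K' w) {R : Finset S} (hw : w ∈ Tits.W M R) {Y : Md.D.Obj}
    (hY : Heart.Tc K.1 K'.1 Y) :
    K.1.Lv (fun x n => x.1 ∈ R ∧ n = 0) Y ↔ K'.1.Lv (fun x n => x.1 ∈ R ∧ n = 0) Y := by
  constructor
  · intro h1
    refine K'.Lv_of_c hY.2 (P := fun s => s ∈ R) (fun s hs => ?_)
    rw [← Tits.coord_out hw hs (K'.c _), ← h.c]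
    exact (K.c_eq_zero (P := fun s => s ∈ R) (h1.mono (fun _ _ h => h.1)) hs).le
  · intro h1
    refine K.Lv_of_c hY.1 (P := fun s => s ∈ R) (fun s hs => ?_)
    rw [h.c, Tits.coord_out hw hs]
    exact (K'.c_eq_zero (P := fun s => s ∈ R) (h1.mono (fun _ _ h => h.1)) hs).le

/-- The torsion free class of a simple tilt is the block. -/
lemma Iv.Fc_simple {s : S} (h : Iv hM K K' (M.toCoxeterSystem.simple s)) {Y : Md.D.Obj} :
    Heart.Fc K.1 K'.1 Y ↔ K.1.Lv (fun x n => x ∈ blk s ∧ n = 0) Y := by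
  constructor
  · intro hY
    exact (h.Fc_Lv (Tits.sm_mem (Finset.mem_singleton_self s)) hY).1.mono
      (fun _ _ h => ⟨mem_blk.2 (Finset.mem_singleton.1 h.1), h.2⟩)
  · refine Heart.Lv.ind Heart.Fc.zero ?_ (fun _ _ _ hE hA hB => hA.ext hB hE)
    rintro x n ⟨hx, rfl⟩
    rw [Md.D.sh_zero, h.S_Fc, mem_blk.1 hx]
    unfold CoxeterSystem.IsLeftDescent
    rw [CoxeterSystem.simple_mul_simple_self, CoxeterSystem.length_one,
      CoxeterSystem.length_simple]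
    omega

lemma GH.c_blk (K : Md.GH) {s : S} {Y : Md.D.Obj}
    (hY : K.1.Lv (fun x n => x ∈ blk s ∧ n = 0) Y) :
    ∃ k : ℝ, 0 ≤ k ∧ K.c (Md.D.cl Y) = k • al s := by
  refine ⟨K.c (Md.D.cl Y) s, K.c_M (hY.mono (fun _ _ h => h.2)) s, funext (fun t => ?_)⟩
  by_cases ht : t = s
  · subst ht; simp
  · rw [K.c_eq_zero (P := fun t => t = s) (hY.mono (fun _ _ h => mem_blk.1 h.1)) ht]
    simp [al_ne ht]

/-- Pairing with a simple root as a positive combination of Euler numbers. -/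
lemma GH.ip_eq (hM : Small M) (K : Md.GH) (j : S) (x : KK S) :
    - ip M j (K.c x) = ∑ a, fp a * (Md.D.form x (K.1.b (j, a)) : ℝ) := by
  obtain ⟨z, rfl⟩ := K.L.surjective x
  have e : ∀ a, Md.D.form (K.L z) (K.1.b (j, a)) = ∑ i, z i * cartan M (j, a) i := fun a => by
    rw [← GH.L_single, GH.form_L]
    refine Finset.sum_congr rfl (fun i _ => ?_)
    rw [cartan_symm M (j, a) i]
    simp [Pi.single_apply]
  simp only [e, GH.c, LinearEquiv.symm_apply_apply]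
  push_cast
  simp only [Finset.mul_sum]
  rw [Finset.sum_comm, ip_apply, Fintype.sum_prod_type, ← Finset.sum_neg_distrib]
  refine Finset.sum_congr rfl (fun t _ => ?_)
  rw [ev_apply, Finset.mul_sum, ← Finset.sum_neg_distrib]
  refine Finset.sum_congr rfl (fun b _ => ?_)
  have := sum_fp_cartan hM j (t, b)
  calc _ = (z (t, b) : ℝ) * (- cc M j t * fp b) := by ring
    _ = _ := by rw [← this, Finset.mul_sum]; exact Finset.sum_congr rfl (fun a _ => by ring)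

end Model

/-- Possible coordinates of classes of objects of a heart. -/
def DD : Set ℝ := {r | ∃ n : Irr → ℕ, r = ∑ a, fp a * n a}

lemma DD_nonneg {r : ℝ} (h : r ∈ DD) : 0 ≤ r := by
  obtain ⟨n, rfl⟩ := h
  exact Finset.sum_nonneg (fun a _ => mul_nonneg (fp_pos a).le (Nat.cast_nonneg _))

lemma DD_fin (C : ℝ) : {r | r ∈ DD ∧ r ≤ C}.Finite := by
  refine ((Set.finite_Iic (fun _ : Irr => ⌊C⌋₊)).image
    (fun n : Irr → ℕ => ∑ a, fp a * n a)).subset ?_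
  rintro r ⟨⟨n, rfl⟩, h⟩
  refine ⟨n, fun a => Nat.le_floor ?_, rfl⟩
  have h2 := Finset.single_le_sum (f := fun a => fp a * (n a : ℝ))
    (fun a _ => mul_nonneg (fp_pos a).le (Nat.cast_nonneg _)) (Finset.mem_univ a)
  have h3 := mul_le_mul_of_nonneg_right (one_le_fp a) (Nat.cast_nonneg (α := ℝ) (n a))
  linarith

namespace Model

variable {Md : Model (fun s t => M s t)}

lemma GH.c_DD (K : Md.GH) {Y : Md.D.Obj} (hY : K.1.M Y) (s : S) : K.c (Md.D.cl Y) s ∈ DD := by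
  refine ⟨fun a => (K.1.mul Y (s, a)).toNat, ?_⟩
  rw [GH.c_apply]
  refine Finset.sum_congr rfl (fun a _ => ?_)
  have : ((K.1.mul Y (s, a)).toNat : ℤ) = K.1.mul Y (s, a) := Int.toNat_of_nonneg (hY.mul_nonneg _)
  congr 1
  exact_mod_cast this.symm

lemma GH.c_zero_iff (K : Md.GH) {Y : Md.D.Obj} (hY : K.1.M Y) :
    K.c (Md.D.cl Y) = 0 ↔ Y = Md.D.zero := by
  constructor
  · intro h
    by_contra h0
    have := K.ht_pos hY h0
    simp [h] at this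
  · rintro rfl
    simp [Md.D.cl_zero, GH.c]

variable {hM : Small M} {K K' K'' : Md.GH} {w u : M.Group} {P : Md.D.Obj}

lemma Iv.top_step {s : S} (h : Iv hM K K' (M.toCoxeterSystem.simple s)) (hP : K.1.V 0 P) :
    ∃ k : ℝ, 0 ≤ k ∧ K.c (Md.D.cl (K'.1.top P)) = K.c (Md.D.cl (K.1.top P)) - k • al s := by
  obtain ⟨F, -, hF, hE⟩ := h.unit.top hP
  obtain ⟨k, hk, e⟩ := K.c_blk (h.Fc_simple.1 hF)
  exact ⟨k, hk, by rw [Md.D.cl_ext _ _ _ hE, GH.c_add, e]; simp⟩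

lemma Iv.top_pos (h : Iv hM K K' w) (hP : K.1.V 0 P) : Pos (K.c (Md.D.cl (K'.1.top P))) := by
  obtain ⟨F, hT, -, -⟩ := h.unit.top hP
  exact K.c_M hT.1

lemma Iv.top_neg (h : Iv hM K K' w) (h' : Iv hM K K'' u) (hP : K.1.V 0 P) (h0 : K'.1.V (-1) P) :
    Pos (-K'.c (Md.D.cl (K''.1.top P))) := by
  obtain ⟨F, hT, hF, hE⟩ := h'.unit.top hP
  exact K'.c_sh (h.unit.Fc_sub hT.1 hF.1 hE (h.unit.top_Fc hP h0)).2

lemma GH.top_zero_iff (hP : K.1.V 0 P) : K.c (Md.D.cl (K.1.top P)) = 0 ↔ K.1.V (-1) P := by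
  rw [K.c_zero_iff hP.top_M, Heart.top_eq_zero]

end Model

end Pool.Agent.HT
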