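import Pool.Agent.Lib.HT.FS.Stmt
import Pool.Agent.Lib.HT.FS.Top
import Pool.Agent.Lib.HT.FS.A16

set_option autoImplicit false
set_option linter.unusedSectionVars false

/-! The socle fields of the flow system of an object. -/

namespace Pool.Agent.HT.FS

open Pool.Agent.Lib.MP_6d85b4_al Pool.Agent.HT.Core Pool.Agent.HT.Model

variable {S : Type} [Fintype S] [DecidableEq S] {M : CoxeterMatrix S}
  {Md : Model (fun s t => M s t)}

/-- Elements whose heart has `P` in levels at most `b`. -/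
def XV (hM : Small M) (H : Md.GH) (P : Md.D.Obj) (b : ℤ) : Set (Art M) :=
  {g | (act hM H g).1.V b P}

/-- Elements whose heart has `P` in levels at least `a`. -/
def XU (hM : Small M) (H : Md.GH) (P : Md.D.Obj) (a : ℤ) : Set (Art M) :=
  {g | (act hM H g).1.U a P}

variable (hM : Small M) (H : Md.GH) {P : Md.D.Obj}

theorem act_tau (g : Art M) {l : List S} (hl : M.toCoxeterSystem.IsReduced l) :
    act hM H (g * tau M (M.toCoxeterSystem.wordProd l)) = run (act hM H g) l := by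
  rw [act_mul, tau_word hl, act_word]

theorem h_sub : XV hM H P (-1) ⊆ XV hM H P 0 := fun _ hg => Heart.V.mono (by omega) hg

theorem h_up (b : ℤ) : ∀ g ∈ XV hM H P b, ∀ s, g * gen M s ∈ XV hM H P b := fun g hg s => by
  show (act hM H (g * gen M s)).1.V b P
  rw [act_mul]
  exact (isUp_act hM _ s).V_le b P hg

theorem h_dn (a : ℤ) : ∀ g ∈ XU hM H P a, ∀ s, g * (gen M s)⁻¹ ∈ XU hM H P a := fun g hg s => by
  show (act hM H (g * (gen M s)⁻¹)).1.U a P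
  rw [act_mul]
  exact (isUp_act_inv hM _ s).U_le a P hg

theorem h_soc {g : Art M} (hg : g ∈ XV hM H P 0) (s : S) :
    g * (gen M s)⁻¹ ∉ XV hM H P 0 ↔ ∃ a, Md.D.hom ((act hM H g).1.S (s, a)) P ≠ 0 := by
  rw [← soc_iff hM hg s, ← act_mul]; rfl

theorem h_soc' (hP2 : ∀ e Z, Md.D.hom Z P = 0 → Md.D.hom Z (Md.Phi e P) = 0) {g : Art M}
    (hg : g ∈ XV hM H P 0) {s : S} (h : g * (gen M s)⁻¹ ∉ XV hM H P 0) (a : Irr) :
    Md.D.hom ((act hM H g).1.S (s, a)) P ≠ 0 := by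
  obtain ⟨b, hb⟩ := (h_soc hM H hg s).1 h
  exact GH.soc_all _ hP2 hg hb a

theorem h_nsoc {g : Art M} (hg : g ∈ XV hM H P 0) {s : S} (h : g * (gen M s)⁻¹ ∈ XV hM H P 0)
    (a : Irr) : Md.D.hom ((act hM H g).1.S (s, a)) P = 0 := by
  by_contra c
  exact (h_soc hM H hg s).2 ⟨a, c⟩ h

theorem h_a2 : ∀ g ∈ XV hM H P 0, ∀ R : Finset S, (∀ i ∈ R, g * (gen M i)⁻¹ ∈ XV hM H P 0) →
    ∀ w ∈ WL M R, g * (tau M w)⁻¹ ∈ XV hM H P 0 := by
  intro g hg R hR w hw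
  obtain ⟨l, hl, hlR, rfl⟩ := Par.exists_word hw
  have e : run (act hM H (g * (tau M (M.toCoxeterSystem.wordProd l))⁻¹)) l = act hM H g := by
    rw [← act_tau hM H _ hl, inv_mul_cancel_right]
  refine a2_run hM _ hl (by rw [e]; exact hg) fun s hs a => ?_
  rw [e]; exact h_nsoc hM H hg (hR s (hlR s hs)) a

theorem h_a3 (hP1 : ∀ n < 0, Md.D.hom P (Md.D.sh n P) = 0)
    (hP2 : ∀ e Z, Md.D.hom Z P = 0 → Md.D.hom Z (Md.Phi e P) = 0) {lo : ℤ} (hlo : lo < 0) :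
    ∀ g ∈ XU hM H P lo, ∀ R : Finset S,
      (g ∈ XV hM H P 0 ∧ ∀ i ∈ R, g * (gen M i)⁻¹ ∉ XV hM H P 0) →
      ∀ w ∈ WL M R, g * tau M w ∈ XU hM H P lo := by
  intro g hg R ⟨hX, hR⟩ w hw
  obtain ⟨l, hl, hlR, rfl⟩ := Par.exists_word hw
  show (act hM H _).1.U lo P
  rw [act_tau hM H g hl]
  exact a3_run hM _ hl (hP1 lo hlo) hX hg fun s hs a => h_soc' hM H hP2 hX (hR s (hlR s hs)) a

theorem h_a4 (hP2 : ∀ e Z, Md.D.hom Z P = 0 → Md.D.hom Z (Md.Phi e P) = 0) :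
    ∀ g ∈ XV hM H P 0, ∀ R : Finset S, (∀ i ∈ R, g * (gen M i)⁻¹ ∉ XV hM H P 0) →
      ∀ u ∈ WL M R, ∀ i ∈ R, ¬RD M u i → g * tau M u * (gen M i)⁻¹ ∉ XV hM H P 0 := by
  intro g hg R hR u hu i hi hd
  obtain ⟨l, hl, hlR, rfl⟩ := Par.exists_word hu
  have hl' : M.toCoxeterSystem.IsReduced (l ++ [i]) := by
    have h1 := M.toCoxeterSystem.not_isRightDescent_iff.1 hd
    unfold CoxeterSystem.IsReduced at hl ⊢
    rw [CoxeterSystem.wordProd_append, CoxeterSystem.wordProd_singleton, h1, hl]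
    simp
  have hX : g * tau M (M.toCoxeterSystem.wordProd l) ∈ XV hM H P 0 :=
    (Gr.le_tau (R := R) hu g).up (h_up hM H 0) hg
  refine (h_soc hM H hX i).2 ⟨(0, 0), ?_⟩
  rw [act_tau hM H g hl]
  refine a4_run hM _ hl' hg (fun s hs a => h_soc' hM H hP2 hg (hR s ?_) a) _
  rcases List.mem_append.1 hs with h | h
  · exact hlR s h
  · rw [List.mem_singleton.1 h]; exact hi

theorem h_a5 : ∀ g ∈ XV hM H P 0, g ∉ XV hM H P (-1) → ∃ s, g * (gen M s)⁻¹ ∉ XV hM H P 0 := by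
  intro g hg hg'
  obtain ⟨⟨s, a⟩, h⟩ := Heart.exists_soc hg hg'
  exact ⟨s, (h_soc hM H hg s).2 ⟨a, h⟩⟩

theorem h_a6 : ∀ g ∈ XV hM H P 0, ∀ s w, g * (gen M s)⁻¹ ∉ XV hM H P 0 →
    g * tau M w ∈ XV hM H P (-1) → LD M w s := by
  intro g hg s w hs hw
  by_contra hd
  obtain ⟨l, hl, rfl⟩ := M.toCoxeterSystem.exists_isReduced w
  have hl' : M.toCoxeterSystem.IsReduced (s :: l) := by
    have h1 := M.toCoxeterSystem.not_isLeftDescent_iff.1 hd
    unfold CoxeterSystem.IsReduced at hl ⊢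
    rw [CoxeterSystem.wordProd_cons, h1, hl]
    simp
  obtain ⟨a, ha⟩ := (h_soc hM H hg s).1 hs
  refine ha (a6_run hM _ hl' ?_ a)
  rw [← act_tau hM H g hl]; exact hw

/-- The lower windows of a flow system whose big set is given by the co-aisles. -/
theorem h_isLo (hP1 : ∀ n < 0, Md.D.hom P (Md.D.sh n P) = 0)
    (hP2 : ∀ e Z, Md.D.hom Z P = 0 → Md.D.hom Z (Md.Phi e P) = 0) {F : Sys M}
    (hF : F.X = XV hM H P 0) {lo : ℤ} (hlo : lo < 0) : F.IsLo (XU hM H P lo) :=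
  ⟨h_dn hM H lo, fun g hg R hR => h_a3 hM H hP1 hP2 hlo g hg R (by rw [← hF]; exact hR)⟩

end Pool.Agent.HT.FS
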