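import Pool.Agent.Lib.HT.FS.Stmt
import Pool.Agent.Lib.HT.FS.Yv
import Pool.Agent.Lib.HT.FS.A10
import Pool.Agent.Lib.HT.FS.A16

set_option autoImplicit false
set_option linter.unusedSectionVars false

/-! Hearts give a flow system. -/

namespace Pool.Agent.HT.FS

open Pool.Agent.Lib.MP_6d85b4_al Pool.Agent.HT.Core Pool.Agent.HT.Model

variable {S : Type} [Fintype S] [DecidableEq S] {M : CoxeterMatrix S}
  {Md : Model (fun s t => M s t)} {hM : Small M} {H : Md.GH} {P : Md.D.Obj}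

theorem act_tau_word (hM : Small M) (H : Md.GH) (g : Art M) {l : List S}
    (hl : M.toCoxeterSystem.IsReduced l) :
    act hM H (g * tau M (M.toCoxeterSystem.wordProd l)) = run (act hM H g) l := by
  rw [act_mul, tau_word hl, act_word]

theorem hsoc {g : Art M} (hg : (act hM H g).1.V 0 P) (s : S) :
    ¬ (act hM H (g * (gen M s)⁻¹)).1.V 0 P ↔ ∃ a, Md.D.hom ((act hM H g).1.S (s, a)) P ≠ 0 := by
  rw [act_mul]; exact soc_iff hM hg s

theorem hsoc' {g : Art M} (hg : (act hM H g).1.V 0 P) {s : S}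
    (h : (act hM H (g * (gen M s)⁻¹)).1.V 0 P) (a : Irr) :
    Md.D.hom ((act hM H g).1.S (s, a)) P = 0 :=
  by_contra fun c => (hsoc hg s).2 ⟨a, c⟩ h

theorem hup {g : Art M} {c : ℤ} (hg : (act hM H g).1.V c P) (s : S) :
    (act hM H (g * gen M s)).1.V c P := by
  rw [act_mul]; exact (isUp_act hM _ s).V_le c P hg

theorem htau {g : Art M} (hg : (act hM H g).1.V 0 P) (w : M.Group) :
    (act hM H (g * tau M w)).1.V 0 P := (iv_act hM H g w).unit.Vlo 0 P hg

theorem ha10 {h : Art M} (hh : (act hM H h).1.V 0 P) {j : S} {w : M.Group}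
    (hj : (act hM H (h * (gen M j)⁻¹)).1.V 0 P) (hw : LD M w j) :
    0 ≤ bf M (yv hM H P (h * tau M w)) (rt M h j) ∧
      (bf M (yv hM H P (h * tau M w)) (rt M h j) = 0 →
        yv hM H P (h * tau M (sm M j * w)) = yv hM H P (h * tau M w) ∧
        ∀ i, ¬RD M w i → ¬ (act hM H (h * tau M w * (gen M i)⁻¹)).1.V 0 P →
          ¬ (act hM H (h * tau M (sm M j * w) * (gen M i)⁻¹)).1.V 0 P) := by
  obtain ⟨B, hB, e⟩ := (act hM H (h * tau M w)).1.top_ext P
  have hN := (htau hh w).top_M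
  have k := a10_core hM (act hM H h) hh (hsoc' hh hj) hw (by rw [← act_mul]; exact hN)
    (by rw [← act_mul]; exact hB) e
  have eq : bf M (yv hM H P (h * tau M w)) (rt M h j) =
      ip M j ((act hM H h).c (Md.D.cl ((act hM H (h * tau M w)).1.top P))) := by
    rw [yv, A10.c_act hM H h, bf_rho, bf_symm, bf_al]
  rw [eq]
  refine ⟨k.1, fun z => ?_⟩
  obtain ⟨k1, k2, k3⟩ := k.2 z
  rw [← act_mul] at k1 k2 k3
  rw [← act_mul] at k3
  refine ⟨?_, fun i hi c => (hsoc (htau hh _) i).2 (k3 i hi ((hsoc (htau hh _) i).1 c))⟩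
  rw [yv, yv, Heart.top_eq (Heart.M_iff.1 k1).1 k2 e]

theorem exists_sys (hM : Small M) (H : Md.GH) {P : Md.D.Obj}
    (hP1 : ∀ n : ℤ, n < 0 → Md.D.hom P (Md.D.sh n P) = 0)
    (hP2 : ∀ e Z, Md.D.hom Z P = 0 → Md.D.hom Z (Md.Phi e P) = 0) :
    ∃ F : Sys M, F.X = {g | (act hM H g).1.V 0 P} ∧ F.X' = {g | (act hM H g).1.V (-1) P} ∧
      ∀ lo : ℤ, lo < 0 → F.IsLo {g | (act hM H g).1.U lo P} := by
  have all : ∀ g, (act hM H g).1.V 0 P → ∀ s, ¬ (act hM H (g * (gen M s)⁻¹)).1.V 0 P → ∀ a,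
      Md.D.hom ((act hM H g).1.S (s, a)) P ≠ 0 := fun g hg s h a => by
    obtain ⟨b, hb⟩ := (hsoc hg s).1 h
    exact GH.soc_all _ hP2 hg hb a
  refine ⟨{
    X := {g | (act hM H g).1.V 0 P}
    X' := {g | (act hM H g).1.V (-1) P}
    y := yv hM H P
    DD := DD
    sub := fun g hg => Heart.V.mono (by omega) hg
    upX := fun g hg s => hup hg s
    upX' := fun g hg s => hup hg s
    a2 := fun g hg R hR w hw => ?_
    a4 := fun g hg R hR u hu i hi hr => ?_
    a5 := fun g hg h => ?_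
    a6 := fun g hg s w hs hw => ?_
    a8 := fun g hg s => a8 hg s
    a9 := fun g hg w => a9a hg w
    a9z := fun g hg => a9b hg
    a9n := fun g hg w u hw => by rw [← map_neg]; exact a9c hg hw u
    a10 := fun h hh j w hj hw => (ha10 hh hj hw).1
    a10y := fun h hh j w hj hw z => ((ha10 hh hj hw).2 z).1
    a10s := fun h hh j w hj hw z => ((ha10 hh hj hw).2 z).2
    a12 := fun g hg s => a12 hg s
    a12n := fun x hx => DD_nonneg hx
    a12f := DD_fin }, rfl, rfl, fun lo hlo => ⟨fun g hg s => ?_, fun g hg R hR w hw => ?_⟩⟩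
  · obtain ⟨l, hl, h1, rfl⟩ := Par.exists_word hw
    have e := act_tau_word hM H (g * (tau M (M.toCoxeterSystem.wordProd l))⁻¹) hl
    rw [inv_mul_cancel_right] at e
    exact a2_run hM _ hl (e ▸ hg) fun s hs a => e ▸ hsoc' hg (hR s (h1 s hs)) a
  · obtain ⟨l, hl, h1, rfl⟩ := Par.exists_word hu
    refine (hsoc (htau hg _) i).2 ⟨(0, 0), ?_⟩
    rw [act_tau_word hM H g hl]
    refine a4_run hM _ ?_ hg (fun s hs a => all g hg s (hR s ?_) a) _
    · unfold CoxeterSystem.IsReduced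
      rw [CoxeterSystem.wordProd_append, CoxeterSystem.wordProd_singleton,
        M.toCoxeterSystem.not_isRightDescent_iff.1 hr, hl.eq, List.length_append,
        List.length_singleton]
    · rcases List.mem_append.1 hs with c | c
      · exact h1 s c
      · rwa [List.mem_singleton.1 c]
  · obtain ⟨x, hx⟩ := Heart.exists_soc hg h
    exact ⟨x.1, (hsoc hg x.1).2 ⟨x.2, hx⟩⟩
  · obtain ⟨a, ha⟩ := (hsoc hg s).1 hs
    by_contra c
    exact ha (Heart.hom_U_V (by omega)
      (Heart.M_iff.1 (((iv_act hM H g w).S_Tc (s, a)).2 c).2).1 hw)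
  · show (act hM H (g * (gen M s)⁻¹)).1.U lo P
    rw [act_mul]; exact (isUp_act_inv hM _ s).U_le lo P hg
  · obtain ⟨l, hl, h1, rfl⟩ := Par.exists_word hw
    show (act hM H (g * tau M _)).1.U lo P
    rw [act_tau_word hM H g hl]
    exact a3_run hM _ hl (hP1 lo hlo) hR.1 hg fun s hs a => all g hR.1 s (hR.2 s (h1 s hs)) a

end Pool.Agent.HT.FS
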