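import Pool.Agent.Lib.HT.Act

set_option autoImplicit false
set_option linter.unusedSectionVars false

/-! The opposite model and the automorphism inverting the generators. -/

namespace Pool.Agent.HT

open Pool.Agent.Lib.MP_6d85b4_al CoxeterSystem

variable {S : Type} [Fintype S] [DecidableEq S] {M : CoxeterMatrix S}

omit [Fintype S] [DecidableEq S] in
lemma alt_reverse (k : ℕ) (i j : S) : (alternatingWord i j k).reverse =
    if Even k then alternatingWord j i k else alternatingWord i j k := by
  induction k generalizing i j with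
  | zero => rfl
  | succ k ih =>
    rw [alternatingWord_succ, List.concat_eq_append, List.reverse_append, ih]
    by_cases h : Even k
    · have h' : ¬ Even (k + 1) := by rw [Nat.even_add_one]; exact fun c => c h
      rw [if_pos h, if_neg h', ← List.concat_eq_append, ← alternatingWord_succ,
        alternatingWord_succ', if_pos h]
      rfl
    · have h' : Even (k + 1) := Nat.even_add_one.2 h
      rw [if_neg h, if_pos h', alternatingWord_succ' j i, if_neg h]
      rfl

lemma prod_map_inv (l : List S) :
    (l.map (fun s => (gen M s)⁻¹)).prod = ((l.reverse.map (gen M)).prod)⁻¹ := by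
  induction l with
  | nil => simp
  | cons a l ih => simp [ih]

variable (M) in
/-- The automorphism of the Artin group that inverts the generators. -/
noncomputable def invA : Art M →* Art M :=
  PresentedGroup.toGroup (lift_ok M (fun s => (gen M s)⁻¹) (fun i j h => by
    rw [prod_map_inv, prod_map_inv, alt_reverse, alt_reverse]
    split_ifs
    · rw [braid M h]
    · rw [braid M h]))

lemma invA_gen (s : S) : invA M (gen M s) = (gen M s)⁻¹ := PresentedGroup.toGroup.of _

omit [Fintype S] [DecidableEq S] in
/-- Right induction on elements of the Artin group. -/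
lemma art_ind {P : Art M → Prop} (h1 : P 1) (hs : ∀ g s, P g → P (g * gen M s))
    (hi : ∀ g s, P g → P (g * (gen M s)⁻¹)) (g : Art M) : P g := by
  have h : g ∈ Subgroup.closure (Set.range (PresentedGroup.of : S → Art M)) := by
    rw [PresentedGroup.closure_range_of]; trivial
  induction h using Subgroup.closure_induction_right with
  | one => exact h1
  | mul_right x _ y hy ih => obtain ⟨s, rfl⟩ := hy; exact hs x s ih
  | mul_inv_cancel x _ y hy ih => obtain ⟨s, rfl⟩ := hy; exact hi x s ih

lemma invA_invA (g : Art M) : invA M (invA M g) = g := by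
  induction g using art_ind with
  | h1 => simp
  | hs g s ih => rw [map_mul, map_mul, ih, invA_gen, map_inv, invA_gen, inv_inv]
  | hi g s ih => rw [map_mul, map_mul, ih, map_inv, invA_gen, inv_inv, invA_gen]

lemma invA_eq_one {g : Art M} (h : invA M g = 1) : g = 1 := by
  rw [← invA_invA g, h, map_one]

lemma pr_invA (g : Art M) : pr M (invA M g) = pr M g := by
  induction g using art_ind with
  | h1 => simp
  | hs g s ih => rw [map_mul, map_mul, map_mul, ih, invA_gen, pr_gen_inv, pr_gen]
  | hi g s ih =>
    rw [map_mul, map_mul, map_mul, ih, map_inv, invA_gen, inv_inv, pr_gen_inv, pr_gen]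

namespace Model

/-- The opposite model. -/
def op (Md : Model (fun s t => M s t)) : Model (fun s t => M s t) where
  D := Md.D.op
  H := Md.H.op
  basis := Md.basis
  form_eq x y := by
    show Md.D.form (Pi.single y 1) (Pi.single x 1) = _
    rw [Md.form_eq]; exact cartan_symm M y x
  Phi := Md.Phi
  Phi_ext e A Y B h := Md.Phi_ext e B Y A h
  Phi_s e A := by
    show Md.Phi e (Md.D.s⁻¹ A) = Md.D.s⁻¹ (Md.Phi e A)
    apply Md.D.s.injective
    rw [← Md.Phi_s]; simp
  Phi_adj e A B := (Md.Phi_adj e B A).symm
  Phi_cl := Md.Phi_cl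
  Phi_M e x := (Md.H.op_M _).2 (Md.Phi_M e x)

variable {Md : Model (fun s t => M s t)}

lemma Good.op {H : Heart Md.D (S × Irr)} (h : Md.Good H) : Md.op.Good H.op where
  gram x y := by
    show Md.D.form (H.b y) (H.b x) = _
    rw [h.gram]; exact cartan_symm M y x
  phiU e Y hY := (H.op_U 0 _).2 (h.V e ((H.op_U 0 _).1 hY))
  phiK := h.phiK

/-- A good heart in the opposite model. -/
def GH.op (H : Md.GH) : Md.op.GH := ⟨H.1.op, H.2.op⟩

lemma GH.op_val (H : Md.GH) : H.op.1 = H.1.op := rfl

lemma GH.op_S (H : Md.GH) (x : S × Irr) : H.op.1.S x = H.1.S x := rfl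

lemma GH.op_U (H : Md.GH) (a : ℤ) (Y : Md.D.Obj) : H.op.1.U a Y ↔ H.1.V (-a) Y := H.1.op_U a Y

lemma GH.op_V (H : Md.GH) (a : ℤ) (Y : Md.D.Obj) : H.op.1.V a Y ↔ H.1.U (-a) Y := H.1.op_V a Y

lemma GH.op_M (H : Md.GH) (Y : Md.D.Obj) : H.op.1.M Y ↔ H.1.M Y := H.1.op_M Y

lemma act_op_gen (hM : Small M) (H : Md.GH) (s : S) :
    act hM H.op (gen M s) = (act hM H (gen M s)⁻¹).op :=
  Subtype.ext (Heart.IsUp.unique (isUp_act hM H.op s) (isUp_act_inv hM H s).op)

lemma act_op_gen_inv (hM : Small M) (H : Md.GH) (s : S) :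
    act hM H.op (gen M s)⁻¹ = (act hM H (gen M s)).op :=
  Subtype.ext (Heart.IsUp.unique' (isUp_act_inv hM H.op s) (isUp_act hM H s).op)

/-- The action in the opposite model. -/
theorem act_op (hM : Small M) (H : Md.GH) (g : Art M) :
    act hM H.op g = (act hM H (invA M g)).op := by
  induction g using art_ind with
  | h1 => rw [map_one, act_one, act_one]
  | hs g s ih => rw [act_mul, ih, act_op_gen, map_mul, invA_gen, act_mul]
  | hi g s ih => rw [act_mul, ih, act_op_gen_inv, map_mul, map_inv, invA_gen, inv_inv, act_mul]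

lemma act_op_U (hM : Small M) (H : Md.GH) (g : Art M) (a : ℤ) (Y : Md.D.Obj) :
    (act hM H.op g).1.U a Y ↔ (act hM H (invA M g)).1.V (-a) Y := by
  rw [act_op]; exact GH.op_U _ a Y

lemma act_op_V (hM : Small M) (H : Md.GH) (g : Art M) (a : ℤ) (Y : Md.D.Obj) :
    (act hM H.op g).1.V a Y ↔ (act hM H (invA M g)).1.U (-a) Y := by
  rw [act_op]; exact GH.op_V _ a Y

end Model

end Pool.Agent.HT
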