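import Pool.Agent.Lib.HT.FS.Op
import Pool.Agent.Lib.HT.FS.NoEdge
import Pool.Agent.Lib.HT.Sec

set_option autoImplicit false
set_option linter.unusedSectionVars false

/-! Freeness from the pushing statement for windows of levels. -/

namespace Pool.Agent.HT

open Pool.Agent.Lib.MP_6d85b4_al

variable {S : Type} [Fintype S] [DecidableEq S] {M : CoxeterMatrix S}

/-- Connected by edges of the Cayley graph inside a set. -/
def CnA (M : CoxeterMatrix S) (P : Art M → Prop) : Art M → Art M → Prop :=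
  Relation.EqvGen (fun a b => P a ∧ P b ∧ ∃ s, b = a * gen M s)

lemma CnA.mono {P P' : Art M → Prop} (h : ∀ g, P g → P' g) {a b : Art M} (c : CnA M P a b) :
    CnA M P' a b :=
  Relation.EqvGen.mono (fun _ _ e => ⟨h _ e.1, h _ e.2.1, e.2.2⟩) a b c

lemma CnA.inv {P P' : Art M → Prop} (h : ∀ g, P g → P' (invA M g)) {a b : Art M}
    (c : CnA M P a b) : CnA M P' (invA M a) (invA M b) := by
  induction c with
  | rel a b e =>
    obtain ⟨h1, h2, s, rfl⟩ := e
    refine .symm _ _ (.rel _ _ ⟨h _ h2, h _ h1, s, ?_⟩)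
    rw [map_mul, invA_gen, inv_mul_cancel_right]
  | refl a => exact .refl _
  | symm a b _ ih => exact .symm _ _ ih
  | trans a b c _ _ ih ih' => exact .trans _ _ _ ih ih'

/-- Both undefined, or both defined and connected. -/
def RelO (M : CoxeterMatrix S) (P : Art M → Prop) (x y : Option (Art M)) : Prop :=
  (x = none ∧ y = none) ∨ ∃ f f', x = some f ∧ y = some f' ∧ CnA M P f f'

lemma RelO.of_cn {P P' : Art M → Prop} {val : Art M → Option (Art M)}
    (h : ∀ g s, P g → P (g * gen M s) → RelO M P' (val g) (val (g * gen M s))) {a b : Art M}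
    (c : CnA M P a b) : RelO M P' (val a) (val b) := by
  induction c with
  | rel a b e =>
    obtain ⟨h1, h2, s, rfl⟩ := e
    exact h a s h1 h2
  | refl a =>
    cases e : val a with
    | none => exact Or.inl ⟨rfl, rfl⟩
    | some f => exact Or.inr ⟨f, f, rfl, rfl, .refl _⟩
  | symm a b _ ih =>
    rcases ih with ⟨h1, h2⟩ | ⟨f, f', h1, h2, h3⟩
    · exact Or.inl ⟨h2, h1⟩
    · exact Or.inr ⟨f', f, h2, h1, .symm _ _ h3⟩
  | trans a b c _ _ ih ih' =>
    rcases ih with ⟨h1, h2⟩ | ⟨f, f', h1, h2, h3⟩ <;>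
      rcases ih' with ⟨h4, h5⟩ | ⟨k, k', h4, h5, h6⟩
    · exact Or.inl ⟨h1, h5⟩
    · rw [h2] at h4; cases h4
    · rw [h2] at h4; cases h4
    · rw [h2] at h4; cases h4
      exact Or.inr ⟨f, k', h1, h5, .trans _ _ _ h3 h6⟩

namespace Model

variable {Md : Model (fun s t => M s t)}

/-- The window of levels of an object. -/
def Wd (hM : Small M) (H : Md.GH) (Q : Md.D.Obj) (lo hi : ℤ) (g : Art M) : Prop :=
  (act hM H g).1.U lo Q ∧ (act hM H g).1.V hi Q

end Model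

/-- The pushing statement for the sum of the simples of a good heart. -/
def PushC : Prop :=
  ∀ (S : Type) [Fintype S] [DecidableEq S] (M : CoxeterMatrix S) (hM : Small M)
    (Md : Model (fun s t => M s t)) (H : Md.GH) (Q : Md.D.Obj),
    H.1.IsSum (blks Finset.univ) Q → ∀ b : ℤ, ∃ val : Art M → Option (Art M),
      (∀ g, (Model.act hM H g).1.V (b - 1) Q → val g = some g) ∧
      ∀ lo, lo < b →
        (∀ g f, Model.Wd hM H Q lo b g → val g = some f → Model.Wd hM H Q lo (b - 1) f) ∧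
        ∀ g s, Model.Wd hM H Q lo b g → Model.Wd hM H Q lo b (g * gen M s) →
          RelO M (Model.Wd hM H Q lo (b - 1)) (val g) (val (g * gen M s))

namespace Model

variable {Md : Model (fun s t => M s t)} {hM : Small M} {H : Md.GH} {Q : Md.D.Obj}

lemma Wd.mono {lo hi lo' hi' : ℤ} (h1 : lo' ≤ lo) (h2 : hi ≤ hi') {g : Art M}
    (h : Wd hM H Q lo hi g) : Wd hM H Q lo' hi' g := ⟨h.1.mono h1, h.2.mono h2⟩

lemma Wd.op {lo hi : ℤ} {g : Art M} (h : Wd hM H Q lo hi g) :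
    Wd hM H.op Q (-hi) (-lo) (invA M g) := by
  refine ⟨(act_op_U hM H _ _ _).2 ?_, (act_op_V hM H _ _ _).2 ?_⟩
  · rw [invA_invA, neg_neg]; exact h.2
  · rw [invA_invA, neg_neg]; exact h.1

lemma Wd.unop {lo hi : ℤ} {g : Art M} (h : Wd hM H.op Q (-hi) (-lo) g) :
    Wd hM H Q lo hi (invA M g) :=
  ⟨by simpa using (act_op_V hM H _ _ _).1 h.2, by simpa using (act_op_U hM H _ _ _).1 h.1⟩

lemma exists_Wd (hM : Small M) (H : Md.GH) (Q : Md.D.Obj) (g : Art M) :
    ∃ N : ℤ, ∀ K, N ≤ K → Wd hM H Q (-K) K g := by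
  obtain ⟨N, h1, h2⟩ := (act hM H g).1.bounded Q
  exact ⟨N, fun K hK => ⟨h1.mono (by omega), h2.mono hK⟩⟩

lemma cn_big (hM : Small M) (H : Md.GH) (Q : Md.D.Obj) (a : Art M) :
    ∃ N : ℤ, ∀ K, N ≤ K → CnA M (Wd hM H Q (-K) K) 1 a := by
  have step : ∀ g k : Art M, (∃ s, k = g * gen M s) →
      ∃ N : ℤ, ∀ K, N ≤ K → CnA M (Wd hM H Q (-K) K) g k := fun g k e => by
    obtain ⟨N, h1⟩ := exists_Wd hM H Q g
    obtain ⟨N', h2⟩ := exists_Wd hM H Q k
    exact ⟨max N N', fun K hK => .rel _ _ ⟨h1 K (by omega), h2 K (by omega), e⟩⟩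
  induction a using art_ind with
  | h1 => exact ⟨0, fun _ _ => .refl _⟩
  | hs g s ih =>
    obtain ⟨N, h1⟩ := ih
    obtain ⟨N', h2⟩ := step g _ ⟨s, rfl⟩
    exact ⟨max N N', fun K hK => .trans _ _ _ (h1 K (by omega)) (h2 K (by omega))⟩
  | hi g s ih =>
    obtain ⟨N, h1⟩ := ih
    obtain ⟨N', h2⟩ := step (g * (gen M s)⁻¹) g ⟨s, by simp⟩
    exact ⟨max N N', fun K hK => .trans _ _ _ (h1 K (by omega)) (.symm _ _ (h2 K (by omega)))⟩

lemma lower (hP : PushC) (hQ : H.1.IsSum (blks Finset.univ) Q) {lo c : ℤ} (hc : lo ≤ c)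
    {g g' : Art M} (h1 : (act hM H g).1.V c Q) (h2 : (act hM H g').1.V c Q) (k : ℕ)
    (h : CnA M (Wd hM H Q lo (c + k)) g g') : CnA M (Wd hM H Q lo c) g g' := by
  induction k with
  | zero => simpa using h
  | succ k ih =>
    apply ih
    obtain ⟨val, v1, v2⟩ := hP S M hM Md H Q hQ (c + (k + 1 : ℕ))
    have e : c + ((k + 1 : ℕ) : ℤ) - 1 = c + k := by push_cast; ring
    rw [e] at v1 v2
    have h3 := RelO.of_cn (v2 lo (by push_cast; omega)).2 h
    rw [v1 g (h1.mono (by omega)), v1 g' (h2.mono (by omega))] at h3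
    rcases h3 with ⟨h3, -⟩ | ⟨f, f', h3, h4, h5⟩
    · cases h3
    · cases h3; cases h4; exact h5

lemma isSum_op (hQ : H.1.IsSum (blks Finset.univ) Q) : H.op.1.IsSum (blks Finset.univ) Q :=
  ⟨(H.1.op_Lv _ _).2 (hQ.lv.mono (fun _ _ h => ⟨h.1, by rw [h.2, neg_zero]⟩)), hQ.left, hQ.right⟩

lemma raise (hP : PushC) (hQ : H.1.IsSum (blks Finset.univ) Q) {c hi : ℤ} (hc : c ≤ hi)
    {g g' : Art M} (h1 : (act hM H g).1.U c Q) (h2 : (act hM H g').1.U c Q) (k : ℕ)
    (h : CnA M (Wd hM H Q (c - k) hi) g g') : CnA M (Wd hM H Q c hi) g g' := by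
  have h3 := h.inv (fun g hg => hg.op)
  rw [show -(c - (k : ℤ)) = -c + k by ring] at h3
  have h4 := lower (hM := hM) hP (isSum_op hQ) (show -hi ≤ -c by omega)
    ((act_op_V hM H _ _ _).2 (by rw [invA_invA, neg_neg]; exact h1))
    ((act_op_V hM H _ _ _).2 (by rw [invA_invA, neg_neg]; exact h2)) k h3
  have h5 := h4.inv (fun g hg => Wd.unop hg)
  rwa [invA_invA, invA_invA] at h5

lemma wd_one (hQ : H.1.IsSum (blks Finset.univ) Q) : Wd hM H Q 0 0 1 := by
  rw [Wd, act_one]; exact Heart.M_iff.1 hQ.mem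

/-- Two elements of a window are connected inside the window. -/
lemma cn_window (hP : PushC) (hQ : H.1.IsSum (blks Finset.univ) Q) {c : ℤ} (hc : 0 ≤ c)
    {a : Art M} (ha : Wd hM H Q 0 c a) : CnA M (Wd hM H Q 0 c) 1 a := by
  obtain ⟨N, hN⟩ := cn_big hM H Q a
  obtain ⟨k, hk⟩ : ∃ k : ℕ, N ≤ k := ⟨N.toNat, by omega⟩
  have h1 := (hN (c + k) (by omega))
  obtain ⟨c', rfl⟩ : ∃ c' : ℕ, c = c' := ⟨c.toNat, by omega⟩
  refine lower hP hQ hc ((wd_one hQ).2.mono hc) ha.2 k ?_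
  refine raise hP hQ (by omega) (wd_one hQ).1 ha.1 (c' + k) ?_
  rw [show (0 : ℤ) - ((c' + k : ℕ) : ℤ) = -((c' : ℤ) + k) by push_cast; ring]
  exact h1

lemma eq_of_cn (hQ : H.1.IsSum (blks Finset.univ) Q) {a b : Art M}
    (h : CnA M (Wd hM H Q 0 0) a b) : a = b := by
  induction h with
  | rel a b e =>
    obtain ⟨h1, h2, s, rfl⟩ := e
    refine (noedge hM hQ (fun Y _ => (Heart.Lv.top Y).mono (fun x _ _ => ?_)) (Finset.mem_univ s)
      h1.2 (by rw [← act_mul]; exact h2.1)).elim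
    exact mem_blks.2 (Finset.mem_univ _)
  | refl a => rfl
  | symm a b _ ih => exact ih.symm
  | trans a b c _ _ ih ih' => exact ih.trans ih'

lemma Wd.levels (hQ : H.1.IsSum (blks Finset.univ) Q) {c : ℤ} {g : Art M}
    (h : Wd hM H Q c c g) (a : ℤ) (Y : Md.D.Obj) :
    ((act hM H g).1.U (a + c) Y ↔ H.1.U a Y) ∧ ((act hM H g).1.V (a + c) Y ↔ H.1.V a Y) := by
  have hU : ∀ a Y, H.1.U a Y → (act hM H g).1.U (a + c) Y := fun a Y hY =>
    Heart.Lv.ind (R := fun Y => (act hM H g).1.U (a + c) Y) Heart.Lv.zero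
      (fun x n hn => ((Heart.U_sh n).2 ((hQ.U_iff _ _).1 h.1 x
        (mem_blks.2 (Finset.mem_univ _)))).mono (by omega))
      (fun A Y B hE hA hB => Heart.Lv.ext hA hB hE) hY
  have hV : ∀ a Y, H.1.V a Y → (act hM H g).1.V (a + c) Y := fun a Y hY =>
    Heart.Lv.ind (R := fun Y => (act hM H g).1.V (a + c) Y) Heart.Lv.zero
      (fun x n hn => ((Heart.V_sh n).2 ((hQ.V_iff _ _).1 h.2 x
        (mem_blks.2 (Finset.mem_univ _)))).mono (by omega))
      (fun A Y B hE hA hB => Heart.Lv.ext hA hB hE) hY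
  refine ⟨⟨Heart.U_of_V (fun Y hY => ?_) Y, hU a Y⟩, ⟨Heart.V_of_U (fun Y hY => ?_) Y, hV a Y⟩⟩
  · rw [show a + c - 1 = a - 1 + c by ring]; exact hV _ Y hY
  · rw [show a + c + 1 = a + 1 + c by ring]; exact hU _ Y hY

/-- A heart of the orbit that is the shift by one of another one forces finiteness. -/
lemma finite_of_shift (hM : Small M) (K : Md.GH) (g : Art M)
    (h : ∀ x, K.1.M (Md.D.sh (-1) ((act hM K g).1.S x))) : Finite M.Group := by
  have h1 : ∀ s ∈ (Finset.univ : Finset S), Pos (-rho M (pr M g) (al s)) := fun s _ t => by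
    have h2 := K.c_M (h (s, (0, 0))) t
    rw [Md.D.cl_sh, (act hM K g).1.cl_S, ← GH.L_single, L_act] at h2
    have e : (((-1 : ℤ).negOnePow : ℤˣ) : ℤ) = -1 := by decide
    rw [e, neg_one_zsmul, GH.c_neg, GH.c, LinearEquiv.symm_apply_apply, ev_krho, ev_single,
      map_smul] at h2
    have h3 := fp_pos ((0, 0) : Irr)
    simp only [Pi.neg_apply, Pi.smul_apply, smul_eq_mul] at h2 ⊢
    nlinarith
  have := Tits.finite_of_neg h1 (Tits.mem_W_univ _)
  exact Finite.of_injective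
    (fun w : M.Group => (⟨w, Tits.mem_W_univ w⟩ : Tits.W M Finset.univ))
    (fun _ _ e => congrArg Subtype.val e)

lemma free_nonneg (hP : PushC) (hi : Infinite M.Group) (H : Md.GH) (a : Art M) {c : ℤ}
    (hc : 0 ≤ c) (h : ∀ Y, (act hM H a).1.U 0 Y ↔ H.1.U (-c) Y) : a = 1 := by
  obtain ⟨Q, hQ⟩ := H.1.exists_sum (blks Finset.univ)
  obtain ⟨q1, q2⟩ := Heart.M_iff.1 hQ.mem
  have ha : Wd hM H Q c c a := by
    refine ⟨?_, Heart.V_of_U (b := 0) (fun Y hY => ?_) Q q2⟩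
    · simpa using Heart.U_shift (fun Y => (h Y).2) c Q (by simpa using q1)
    · have := Heart.U_shift (fun Y => (h Y).1) (c + 1) Y (by simpa using hY)
      rwa [show -c + (c + 1) = 0 + 1 by ring] at this
  have h1 := cn_window hP hQ hc (ha.mono hc le_rfl)
  rcases hc.eq_or_lt with rfl | hc'
  · exact (eq_of_cn hQ h1).symm
  exfalso
  obtain ⟨val, v1, v2⟩ := hP S M hM Md H Q hQ c
  have h2 := RelO.of_cn (v2 0 hc').2 h1
  rw [v1 1 ((wd_one hQ).2.mono (by omega))] at h2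
  rcases h2 with ⟨h3, -⟩ | ⟨f', f, -, h4, -⟩
  · cases h3
  have hf := (v2 (c - 1) (by omega)).1 a f (ha.mono (by omega) le_rfl) h4
  have := finite_of_shift hM (act hM H a) (a⁻¹ * f) (fun x => by
    rw [← act_mul, mul_inv_cancel_left]
    obtain ⟨s1, s2⟩ := Heart.M_iff.1 (Heart.M.simple (act hM H f).1 x)
    have e0 : (1 - c) + (c - 1) = 0 := by ring
    have e1 : (1 - c) + c = 1 := by ring
    obtain ⟨l1, l2⟩ := hf.levels hQ (1 - c) ((act hM H f).1.S x)
    obtain ⟨l3, l4⟩ := ha.levels hQ (1 - c) ((act hM H f).1.S x)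
    rw [e0] at l1 l2
    rw [e1] at l3 l4
    exact Heart.M_iff.2 ⟨by simpa using (Heart.U_sh (-1)).2 (l3.2 (l1.1 s1)),
      by simpa using (Heart.V_sh (-1)).2 (l4.2 (l2.1 s2))⟩)
  exact not_finite M.Group

end Model

/-- Freeness from the pushing statement. -/
theorem free_of_push (hP : PushC) : FreeStmt := by
  intro S _ _ M hM Md _ hi H a n h
  rcases le_total n 0 with hn | hn
  · exact Model.free_nonneg (hM := hM) hP hi H a (c := -n) (by omega) (by simpa using h)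
  · refine inv_eq_one.1 (Model.free_nonneg (hM := hM) hP hi (Model.act hM H a) a⁻¹ hn
      (fun Y => ?_))
    rw [← Model.act_mul, mul_inv_cancel, Model.act_one]
    exact ⟨fun hY => by simpa using Heart.U_shift (fun Y => (h Y).2) (-n) Y (by simpa using hY),
      fun hY => by simpa using Heart.U_shift (fun Y => (h Y).1) (-n) Y (by simpa using hY)⟩

end Pool.Agent.HT
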