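import Pool.Agent.Lib.HT.Unit

set_option autoImplicit false

/-! Transfer of torsion pairs along a reflection. -/

namespace Pool.Agent.HT

universe u

variable {K : Type} [AddCommGroup K]

namespace Heart

variable {D : TD.{u} K} {ι : Type} {H H₁ H₂ : Heart D ι} {R : Finset ι}

/-- Objects built from the simples in `R`. -/
abbrev AddR (H : Heart D ι) (R : Finset ι) (A : D.Obj) : Prop :=
  H.Lv (fun i n => i ∈ R ∧ n = 0) A

lemma AddR.M {A : D.Obj} (h : H.AddR R A) : H.M A := h.mono (fun _ _ h => h.2)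

lemma AddR.simple {i : ι} (h : i ∈ R) : H.AddR R (H.S i) := by
  simpa using Lv.simple (H := H) (P := fun i n => i ∈ R ∧ n = 0) (i := i) (n := 0) ⟨h, rfl⟩

lemma AddR.mul {A : D.Obj} (h : H.AddR R A) {i : ι} (hi : i ∉ R) : H.mul A i = 0 := by
  refine Lv.ind (R := fun Y => H.mul Y i = 0) (mul_zero i) ?_ ?_ h
  · rintro j n ⟨hj, rfl⟩
    rw [D.sh_zero]; exact mul_ne (fun e => hi (e ▸ hj))
  · intro A Y B hE hA hB
    rw [mul_ext hE, hA, hB]; rfl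

lemma M.addR {A : D.Obj} (h : H.M A) (h0 : ∀ i, i ∉ R → H.mul A i ≤ 0) : H.AddR R A :=
  h.supp.mono (fun i _ hi => ⟨by_contra fun c => by have := h0 i c; omega, hi.1⟩)

lemma AddR.sub {N A I : D.Obj} (h : H.AddR R A) (hN : H.M N) (hI : H.M I) (e : D.Ext N A I) :
    H.AddR R N := hN.addR (fun i hi => by
  have h1 := mul_ext (H := H) e i
  have h2 := h.mul hi
  have h3 := hI.mul_nonneg i
  omega)

lemma AddR.quot {N A I : D.Obj} (h : H.AddR R A) (hN : H.M N) (hI : H.M I) (e : D.Ext N A I) :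
    H.AddR R I := hI.addR (fun i hi => by
  have h1 := mul_ext (H := H) e i
  have h2 := h.mul hi
  have h3 := hN.mul_nonneg i
  omega)

lemma AddR.hom_left {A W : D.Obj} (h : H.AddR R A) (h0 : ∀ i ∈ R, D.hom (H.S i) W = 0) :
    D.hom A W = 0 := Lv.hom_left (by rintro i n ⟨hi, rfl⟩; simpa using h0 i hi) h

lemma AddR.hom_right {A W : D.Obj} (h : H.AddR R A) (h0 : ∀ i ∈ R, D.hom W (H.S i) = 0) :
    D.hom W A = 0 := Lv.hom_right (by rintro i n ⟨hi, rfl⟩; simpa using h0 i hi) h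

lemma AddR.ext_right {A W : D.Obj} (h : H.AddR R A) (h0 : ∀ i ∈ R, D.hom W (D.s (H.S i)) = 0) :
    D.hom W (D.sh 1 A) = 0 := by
  have h1 : D.hom (D.sh (-1) W) A = 0 := h.hom_right (fun i hi => by
    rw [D.hom_sh_left, neg_neg, D.sh_one]; exact h0 i hi)
  rwa [D.hom_sh_left, neg_neg] at h1

lemma AddR.U {A : D.Obj} {a : ℤ} (h : H.AddR R A) (h0 : ∀ i ∈ R, H₁.U a (H.S i)) : H₁.U a A :=
  Lv.ind (R := fun Y => H₁.U a Y) Lv.zero (by rintro i n ⟨hi, rfl⟩; simpa using h0 i hi)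
    (fun _ _ _ e hA hB => Lv.ext hA hB e) h

/-- Universal extension from below. -/
lemma Orth.ue (h : H.Orth R) (B : D.Obj) :
    ∃ A Y, H.AddR R A ∧ D.Ext A Y B ∧ ∀ i ∈ R, D.hom Y (D.s (H.S i)) = 0 := by
  induction hn : ∑ i ∈ R, D.hom B (D.s (H.S i)) using Nat.strong_induction_on generalizing B with
  | _ n ih =>
    by_cases hc : ∀ i ∈ R, D.hom B (D.s (H.S i)) = 0
    · exact ⟨D.zero, B, Lv.zero, D.ext_zero _, hc⟩
    · push Not at hc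
      obtain ⟨j, hj, hc⟩ := hc
      obtain ⟨Y, hY, -, -, -, h4⟩ := D.cone _ _ hc
      have h6 : ∑ i ∈ R, D.hom Y (D.s (H.S i)) < n := by
        rw [← hn]
        refine Finset.sum_lt_sum (fun i hi => ?_) ⟨j, hj, ?_⟩
        · have := D.les' (D.s (H.S i)) hY
          rw [h j hj i hi] at this; omega
        · rw [H.rig] at h4; omega
      obtain ⟨A, Z, hA, hZ, h8⟩ := ih _ h6 Y rfl
      obtain ⟨F, h9, h10⟩ := D.assoc' hZ hY
      exact ⟨F, Z, Lv.ext hA (AddR.simple hj) h9, h10, h8⟩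

/-- Universal extension from above. -/
lemma Orth.ue' (h : H.Orth R) (B : D.Obj) :
    ∃ Y A, H.AddR R A ∧ D.Ext B Y A ∧ ∀ i ∈ R, D.hom Y (D.s (H.S i)) = 0 := by
  obtain ⟨A, Y, h1, h2, h3⟩ := h.op.ue B
  refine ⟨Y, A, ((op_Lv _ _ _).1 h1).mono (fun _ _ h => ⟨h.1, by omega⟩), h2, fun i hi => ?_⟩
  have h4 : D.hom (D.s⁻¹ (H.S i)) Y = 0 := h3 i hi
  rw [ext_symm, ← h4, ← D.hom_s (D.s⁻¹ _)]; simp

/-- The image of a map whose cone has its degree zero part built from `R`. -/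
lemma coim {A B C : D.Obj} (hA : H.M A) (hB : H.M B) (h : D.Ext A B C)
    (hC : H.Lv (fun i n => i ∈ R ∧ n = 0 ∨ 1 ≤ n) C) :
    ∃ I N E, H.M I ∧ H.U 1 N ∧ H.AddR R E ∧ D.Ext A I N ∧ D.Ext I B E := by
  obtain ⟨N, E, hN, hE, e⟩ := hC.trunc 1
  have hN' : H.U 1 N := hN.mono (fun _ _ h => h.2)
  have hE' : H.AddR R E := hE.mono (fun _ _ h => h.1.resolve_right (by omega))
  obtain ⟨I, h1, h2⟩ := D.assoc' h e
  refine ⟨I, N, E, M_iff.2 ⟨Lv.ext (M_iff.1 hA).1 (hN'.mono (by omega)) h1,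
    Lv.ext ?_ (M_iff.1 hB).2 (D.rot' h2)⟩, hN', hE', h1, h2⟩
  exact hE'.sh (-1) (fun _ _ h => by omega)

variable [DecidableEq ι]

/-- The class of the top part is the reflection of the class of the bottom part. -/
lemma Orth.cl_refl (h : H.Orth R) {X G X' A₁ A₂ : D.Obj} (hX : H.M X) (hX' : H.M X')
    (h1 : H.AddR R A₁) (h2 : H.AddR R A₂) (e1 : D.Ext X G A₁) (e2 : D.Ext A₂ G X')
    (hG : ∀ i ∈ R, D.hom G (D.s (H.S i)) = 0) (t : ∀ i ∈ R, D.hom X (H.S i) = 0)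
    (f : ∀ i ∈ R, D.hom (H.S i) X' = 0) : D.cl X = H.refl R (D.cl X') := by
  have hGM : H.M G := Lv.ext hX h1.M e1
  have c1 := D.cl_ext _ _ _ e1
  have c2 := D.cl_ext _ _ _ e2
  have key : ∀ i ∈ R, D.form (D.cl X') (H.b i) • H.b i =
      (D.hom (H.S i) A₁ : ℤ) • H.b i - (D.hom (H.S i) A₂ : ℤ) • H.b i := by
    intro i hi
    rw [← sub_smul]
    congr 1
    have a1 := hGM.euler (M.simple H i)
    have a2 := h1.M.euler (M.simple H i)
    have a3 : D.hom A₁ (D.s (H.S i)) = 0 := h1.hom_left (fun j hj => h j hj i hi)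
    rw [H.cl_S, h.hom_R h1, h.form_sum _ hi, a3] at a2
    rw [H.cl_S, hG i hi, c2, map_add, AddMonoidHom.add_apply, h.hom_R h2, h.form_sum _ hi] at a1
    have a4 := D.les' (H.S i) e1
    have a5 := hX.hom_quot (M.simple H i) e1
    have a6 := D.les (H.S i) _ _ _ e2
    have a7 := hX'.hom_sub (M.simple H i) e2
    rw [t i hi] at a4
    rw [f i hi] at a6
    omega
  rw [refl_apply, Finset.sum_congr rfl key, Finset.sum_sub_distrib, ← h.hom_R h1, ← h.hom_R h2]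
  rw [c1] at c2
  rw [eq_sub_of_add_eq c2]
  abel

/-- Two hearts of the unit interval above `H` that differ by the reflection in `R`. -/
structure Tw (H : Heart D ι) (R : Finset ι) (H₁ H₂ : Heart D ι) : Prop where
  orth : H.Orth R
  u1 : H.Unit H₁
  u2 : H.Unit H₂
  t1 : ∀ i ∈ R, H₁.U 0 (H.S i)
  f2 : ∀ i ∈ R, H₂.V (-1) (H.S i)
  b : ∀ i, H₂.b i = H.refl R (H₁.b i)

variable [Fintype ι]

omit [DecidableEq ι] in
lemma Tw.len (h : Tw H R H₁ H₂) {X X' : D.Obj} (e : D.cl X = H.refl R (D.cl X')) :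
    H₂.len X = H₁.len X' := by
  have : H₂.b.repr.toLinearMap ∘ₗ H.refl R = H₁.b.repr.toLinearMap :=
    H₁.b.ext (fun i => by simp [← h.b])
  have h1 := LinearMap.congr_fun this (D.cl X')
  simp only [LinearMap.comp_apply, LinearEquiv.coe_coe] at h1
  simp only [Heart.len, Heart.mul, e, h1]

omit [DecidableEq ι] in
lemma len_sh_one (H : Heart D ι) (X : D.Obj) : H.len (D.sh 1 X) = - H.len X := by
  simp [Heart.len, Heart.mul, D.sh_one, D.cl_s]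

omit [DecidableEq ι] [Fintype ι] in
lemma Unit.M_of_U (h : H.Unit H₁) {X : D.Obj} (hX : H.M X) (hU : H₁.U 0 X) : H₁.M X :=
  M_iff.2 ⟨hU, h.Vlo 0 X (M_iff.1 hX).2⟩

omit [DecidableEq ι] [Fintype ι] in
lemma Unit.M_of_V (h : H.Unit H₁) {X : D.Obj} (hX : H.M X) (hV : H₁.V (-1) X) :
    H₁.M (D.sh 1 X) :=
  M_iff.2 ⟨h.hi _ (by simpa using (U_sh 1).2 (M_iff.1 hX).1), by simpa using (V_sh 1).2 hV⟩

omit [DecidableEq ι] [Fintype ι] in
lemma M.V_of_sh {X : D.Obj} (h : H.M (D.sh 1 X)) : H.V (-1) X :=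
  (V_sh 1).1 (by simpa using (M_iff.1 h).2)

/-- Torsion objects are transferred. -/
theorem Tw.tt (h : Tw H R H₁ H₂) {X G A₁ : D.Obj} (hX : H.M X) (h1 : H.AddR R A₁)
    (e1 : D.Ext X G A₁) (hG : ∀ i ∈ R, D.hom G (D.s (H.S i)) = 0) (hT : H₂.U 0 X) :
    H₁.U 0 G := by
  have hGM : H.M G := Lv.ext hX h1.M e1
  obtain ⟨T, Q, hT1, hT2, hQ1, hQ2, e2⟩ := h.u1.dec' hGM
  obtain ⟨A, G', hA, e3, hG'⟩ := h.orth.ue Q
  obtain ⟨C, e4, e5⟩ := D.fac _ _ _ _ _ (hA.ext_right hG) (D.rot1 e2) (D.rot1 e3)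
  have e6 : D.Ext A C (D.sh 1 T) := by simpa using D.rot' e5
  obtain ⟨F, e7, e8⟩ := D.assoc _ _ _ _ _ ((D.rot _ _ _).2 e4) e1
  obtain ⟨I, N, E, hI, hN, hE, e9, e10⟩ := coim (R := R) hX (Lv.ext hA.M hQ1 e3) e7
    (Lv.ext (h1.mono fun _ _ h => Or.inl h) (Lv.ext (hA.mono fun _ _ h => Or.inl h)
      (hT1.sh 1 fun _ _ h => Or.inr (by omega)) e6) e8)
  have hI2 : H₂.U 0 I := Lv.ext hT (h.u2.hi N hN) e9
  have c := h.len (h.orth.cl_refl hI hQ1 hE hA e10 e3 hG'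
    (fun i hi => hom_U_V (by omega) hI2 (h.f2 i hi))
    (fun i hi => hom_U_V (by omega) (h.t1 i hi) hQ2.V_of_sh))
  have c1 := (h.u2.M_of_U hI hI2).len_nonneg
  have c2 := len_sh_one H₁ Q
  have c3 : D.sh 1 Q = D.zero := by_contra fun c3 => by have := hQ2.len_pos c3; omega
  have c4 : Q = D.zero := D.sh_inj 1 (by rw [c3, D.sh_zero_obj])
  subst c4
  rw [← D.eq_of_ext_zero_right e2]
  exact (M_iff.1 hT2).1

/-- Torsion free objects are transferred. -/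
theorem Tw.ff (h : Tw H R H₁ H₂) {X Z X' A₁ A₂ : D.Obj} (hX' : H.M X') (h1 : H.AddR R A₁)
    (h2 : H.AddR R A₂) (e1 : D.Ext X Z A₁) (e2 : D.Ext A₂ Z X')
    (f : ∀ i ∈ R, D.hom (H.S i) X' = 0) (hF : H₂.V (-1) X) : H₁.V (-1) X' := by
  obtain ⟨Q, B, hQ1, hQ2, hB1, hB2, e3⟩ := h.u1.dec' hX'
  obtain ⟨Q', e4, e5⟩ := D.assoc' e2 e3
  have hQ' : H.M Q' := Lv.ext h2.M hQ1 e4
  obtain ⟨Y, A₄, hY, h4, t, e6⟩ := M.torsionFree (F := H.AddR R) Lv.zero (fun _ h => h.M)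
    (fun _ _ _ a b c d => d.sub a b c) (fun _ _ _ a b c => Lv.ext b c a) hQ'
  obtain ⟨B', e7, e8⟩ := D.assoc _ _ _ _ _ e5 e6
  obtain ⟨C, e9, e10⟩ := D.fac _ _ _ _ _ (t _ h1) e7 e1
  have hC : H.V 0 C := Lv.ext (h1.sh (-1) fun _ _ h => by omega)
    (M_iff.1 (Lv.ext h4.M hB1 e8 : H.M B')).2 (D.rot' e10)
  have hY2 : H₂.V (-1) Y := Lv.ext (h.u2.Vlo _ _ (by simpa using (V_sh (-1)).2 hC)) hF
    (D.rot' ((D.rot _ _ _).2 e9))
  obtain ⟨G, A₃, h3, e11, hG⟩ := h.orth.ue' Q'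
  obtain ⟨A₅, e12, e13⟩ := D.assoc _ _ _ _ _ e11 e6
  have hGM : H.M G := Lv.ext hQ' h3.M e11
  obtain ⟨A₆, W, h6, hW, f', e14⟩ := M.torsion (T := H.AddR R) Lv.zero (fun _ h => h.M)
    (fun _ _ _ a b c d => d.quot a b c) (fun _ _ _ a b c => Lv.ext b c a) hGM
  have hG1 : H₁.U 0 G :=
    Lv.ext (Lv.ext (h2.U h.t1) (M_iff.1 hQ2).1 e4) (h3.U h.t1) e11
  have hW1 : H₁.U 0 W :=
    Lv.ext hG1 (h.u1.hi _ (h6.sh 1 fun _ _ h => by omega)) (D.rot1 e14)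
  have c := h.len (h.orth.cl_refl hY hW (Lv.ext h4 h3 e13) h6 e12 e14 hG
    (fun i hi => t _ (AddR.simple hi)) (fun i hi => f' _ (AddR.simple hi)))
  have c1 := (h.u2.M_of_V hY hY2).len_nonneg
  have c2 := len_sh_one H₂ Y
  have c3 : W = D.zero := by_contra fun c3 => by
    have := (h.u1.M_of_U hW hW1).len_pos c3; omega
  subst c3
  rw [D.eq_of_ext_zero_right e14] at h6
  have c4 := ((h6.sub hQ' h3.M e11).quot h2.M hQ1 e4).hom_left f
  have c5 := hB1.hom_sub hQ1 e3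
  have c6 : Q = D.zero := D.eq_zero _ (by omega)
  subst c6
  rw [D.eq_of_ext_zero _ _ e3]
  exact hB2.V_of_sh

/-- The torsion decomposition of an object is the same for both pairs. -/
theorem Tw.same (h : Tw H R H₁ H₂) {N Y B : D.Obj} (hN : H.M N) (hB : H.M B) (e : D.Ext N Y B)
    (hT : H₂.U 0 N) (hF : H₂.V (-1) B) (f : ∀ i ∈ R, D.hom (H.S i) Y = 0)
    (g : ∀ i ∈ R, D.hom N (D.s (H.S i)) = 0) : H₁.U 0 N ∧ H₁.V (-1) B := by
  refine ⟨h.tt hN Lv.zero (D.ext_zero_right N) g hT,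
    h.ff hB Lv.zero Lv.zero (D.ext_zero_right B) (D.ext_zero B) (fun i hi => ?_) hF⟩
  have a1 := D.les (H.S i) _ _ _ ((D.rot _ _ _).1 e)
  rw [f i hi, ext_symm, g i hi] at a1
  omega

/-- Transfer of an object with a non-zero map to an object orthogonal to `R`. -/
theorem Tw.soc {H₃ H₄ : Heart D ι} (h : Tw H R H₁ H₂) (h' : Tw H R H₃ H₄) {Y N : D.Obj}
    (hY : H.M Y) (hT : H₂.U 0 Y) (hF : H₄.V (-1) Y) (f : ∀ i ∈ R, D.hom (H.S i) N = 0)
    (g : ∀ i ∈ R, D.hom N (D.s (H.S i)) = 0) (h0 : D.hom Y N ≠ 0) :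
    ∃ X, H.M X ∧ H₁.U 0 X ∧ H₃.V (-1) X ∧ D.hom X N ≠ 0 := by
  obtain ⟨G, A₁, h1, e1, hG⟩ := h.orth.ue' Y
  obtain ⟨A₂, X, h2, hX, f', e2⟩ := M.torsion (T := H.AddR R) Lv.zero (fun _ h => h.M)
    (fun _ _ _ a b c d => d.quot a b c) (fun _ _ _ a b c => Lv.ext b c a)
    (Lv.ext hY h1.M e1 : H.M G)
  refine ⟨X, hX, Lv.ext (h.tt hY h1 e1 hG hT) (h.u1.hi _ (h2.sh 1 fun _ _ h => by omega))
    (D.rot1 e2), h'.ff hX h1 h2 e1 e2 (fun i hi => f' _ (AddR.simple hi)) hF, ?_⟩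
  have a1 := D.les' N (D.rot' e1)
  have a2 := D.les' N e2
  have a3 := h2.hom_left f
  have a4 := h1.ext_right g
  rw [D.sh_one, ext_symm, ← D.sh_one] at a4
  rw [D.hom_sh_left, neg_neg] at a1
  omega

end Heart

end Pool.Agent.HT
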