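import Pool.Agent.Lib.HT.FS.Stmt
import Pool.Agent.Lib.HT.FS.NoEdge
import Pool.Agent.Lib.HT.FS.Yv

set_option autoImplicit false
set_option linter.unusedSectionVars false

/-! Termination of downward moves inside a spherical parabolic subgroup. -/

namespace Pool.Agent.HT.FS

open Pool.Agent.Lib.MP_6d85b4_al Pool.Agent.HT.Core Pool.Agent.HT.Gr

variable {S : Type} [Fintype S] [DecidableEq S] {M : CoxeterMatrix S}

theorem le_first {R : Finset S} {k g : Art M} (h : Le R k g) :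
    k = g ∨ ∃ s ∈ R, Le R (k * gen M s) g := by
  obtain ⟨l, hl, rfl⟩ := h
  cases l with
  | nil => left; simp
  | cons s l =>
    exact Or.inr ⟨s, hl s (by simp), l, fun t ht => hl t (by simp [ht]), by simp [mul_assoc]⟩

/-- The width of a window inside a class is bounded by its height times the largest length. -/
theorem width {R : Finset S} {C U : Set (Art M)} {V : ℕ → Set (Art M)} {L : ℕ}
    (hL : ∀ u ∈ WL M R, ln M u ≤ L) (hC : ∀ k ∈ C, ∀ a, Le R k a → a ∈ C)
    (hU : ∀ g ∈ U, ∀ s, g * (gen M s)⁻¹ ∈ U)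
    (h0 : ∀ k ∈ C, ∀ s ∈ R, k ∈ V 0 → k * gen M s ∈ U → False)
    (hF : ∀ n, ∃ F : Sys M, F.X = V (n + 1) ∧ F.X' = V n ∧ F.IsLo U ∧ F.FinStmt)
    (hs : ∀ n, ∀ a ∈ C, a ∈ V (n + 1) → ∃ w ∈ WL M R, a * tau M w ∈ V n)
    (n : ℕ) {k g : Art M} (hk : k ∈ C) (l : Le R k g) (hV : k ∈ V n) (hg : g ∈ U) :
    deg M g ≤ deg M k + n * L := by
  induction n generalizing k g with
  | zero =>
    rcases le_first l with rfl | ⟨s, h1, h2⟩
    · simp
    · exact (h0 k hk s h1 hV (h2.down hU hg)).elim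
  | succ n ih =>
    obtain ⟨F, e1, e2, lo, fin⟩ := hF n
    have kX : k ∈ F.X := e1 ▸ hV
    have key : ∀ a, Le R k a → ∃ w ∈ WL M R, a * tau M w ∈ F.X' := fun a ha => by
      rw [e2]; exact hs n a (hC k hk a ha) (e1 ▸ ha.up F.upX kX)
    obtain ⟨u, hu, u', hu', a1, a2, a3⟩ := fin.retract R k g kX l key
    have fk : F.Fn k := let ⟨w, _, h⟩ := key k (Le.refl k); ⟨w, h⟩
    have fg : F.Fn g := let ⟨w, _, h⟩ := key g l; ⟨w, h⟩
    have b1 : F.en k ∈ V n := e2 ▸ (fin.isU k kX fk).1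
    have b2 : F.en g ∈ U := (fin.lo U lo g (l.up F.upX kX) hg fg).2
    have b3 := ih (hC k hk _ (a1 ▸ le_tau hu k)) a3 b1 b2
    rw [a1, a2, deg_mul, deg_mul, deg_tau, deg_tau] at b3
    have b4 : M.toCoxeterSystem.length u ≤ L := hL u hu
    push_cast
    nlinarith

variable {Md : Model (fun s t => M s t)}

/-- Hearts give flow systems without termination (blocks a1 to a12). -/
def HSys (hM : Small M) (H : Md.GH) : Prop :=
  ∀ P : Md.D.Obj, (∀ n : ℤ, n < 0 → Md.D.hom P (Md.D.sh n P) = 0) →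
    (∀ e Z, Md.D.hom Z P = 0 → Md.D.hom Z (Md.Phi e P) = 0) →
    ∃ F : Sys M, F.X = {g | (Model.act hM H g).1.V 0 P} ∧
      F.X' = {g | (Model.act hM H g).1.V (-1) P} ∧
      ∀ lo : ℤ, lo < 0 → F.IsLo {g | (Model.act hM H g).1.U lo P}

theorem dr_le (hM : Small M) (H : Md.GH) {R : Finset S} {k a : Art M} (h : Le R k a)
    (Y : Md.D.Obj) :
    (Model.act hM H a).1.DR (blks R) Y ↔ (Model.act hM H k).1.DR (blks R) Y :=
  h.ind (P := fun a => (Model.act hM H a).1.DR (blks R) Y ↔ (Model.act hM H k).1.DR (blks R) Y)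
    Iff.rfl (fun g s hs _ ih => by rw [Model.act_mul, Model.DR_gen hM _ hs, ih])

/-- Claim (N): the levels of the sum of the `R`-simples bound the degree. -/
theorem claimN {hM : Small M} {H : Md.GH} (hS : HSys hM H) (hfin : ∀ F : Sys M, F.FinStmt)
    {R : Finset S} (hR : Finite (WL M R)) : ∃ L : ℕ, ∀ (g : Art M) (Q : Md.D.Obj),
      (Model.act hM H g).1.IsSum (blks R) Q → ∀ (n : ℕ) (k : Art M), Le R k g →
        (Model.act hM H k).1.V n Q → deg M g ≤ deg M k + n * L := by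
  obtain ⟨w, hw, -, hld, hL⟩ := Par.exists_top hR
  refine ⟨ln M w, fun g Q hQ n k l hV => ?_⟩
  refine width (R := R)
    (C := {k | ∀ Y, (Model.act hM H k).1.DR (blks R) Y ↔ (Model.act hM H g).1.DR (blks R) Y})
    (U := {k | (Model.act hM H k).1.U 0 Q}) (V := fun n => {k | (Model.act hM H k).1.V n Q})
    hL (fun k hk a ha Y => (dr_le hM H ha Y).trans (hk Y)) (fun a ha s => ?_)
    (fun a ha s hs h1 h2 => ?_) (fun n => ?_) (fun n a ha h1 => ⟨w, hw, ?_⟩) n
    (fun Y => (dr_le hM H l Y).symm) l hV (Heart.M_iff.1 hQ.mem).1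
  · show (Model.act hM H (a * (gen M s)⁻¹)).1.U 0 Q
    rw [Model.act_mul]
    exact (Model.isUp_act_inv hM _ s).U_le _ _ ha
  · refine Model.noedge hM hQ (fun Y => (ha Y).1) hs (by simpa using h1) ?_
    rw [← Model.act_mul]; exact h2
  · obtain ⟨F, e1, e2, lo⟩ := hS (Md.D.sh (-(n + 1 : ℤ)) Q) (fun m hm => hQ.hom_neg _ hm)
      (fun e Z hZ => (Model.act hM H g).2.sum_Phi hQ _ e hZ)
    refine ⟨F, e1.trans (Set.ext fun a => ?_), e2.trans (Set.ext fun a => ?_), ?_, hfin F⟩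
    · have := Heart.V_sh (H := (Model.act hM H a).1) (a := (n + 1 : ℤ)) (-(n + 1 : ℤ)) (Y := Q)
      rw [add_neg_cancel] at this
      simpa using this
    · have := Heart.V_sh (H := (Model.act hM H a).1) (a := (n : ℤ)) (-(n + 1 : ℤ)) (Y := Q)
      rw [show (n : ℤ) + -(n + 1) = -1 by ring] at this
      simpa using this
    · have e3 : {k | (Model.act hM H k).1.U 0 Q} =
          {k | (Model.act hM H k).1.U (-(n + 1 : ℤ)) (Md.D.sh (-(n + 1 : ℤ)) Q)} := by
        ext a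
        have := Heart.U_sh (H := (Model.act hM H a).1) (a := 0) (-(n + 1 : ℤ)) (Y := Q)
        rw [zero_add] at this
        exact this.symm
      rw [e3]
      exact lo _ (by omega)
  · have iv := Model.iv_act hM H a w
    have := Model.V_step hM iv.unit iv.L hld ((ha Q).2 hQ.DR) h1
    simpa using this

/-- Termination for the levels of the sum of all simples of the base heart. -/
theorem term_V {hM : Small M} {H : Md.GH} (hS : HSys hM H) (hfin : ∀ F : Sys M, F.FinStmt)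
    {Q₀ : Md.D.Obj} (hQ₀ : H.1.IsSum (blks Finset.univ) Q₀) (b : ℤ) {R : Finset S}
    (hR : Sph M R) (g : Art M) :
    ∃ m : ℤ, ∀ k, (Model.act hM H k).1.V b Q₀ → Le R k g → m ≤ deg M k := by
  obtain ⟨L, hL⟩ := claimN hS hfin (sph_finite hR)
  obtain ⟨Q, hQ⟩ := (Model.act hM H g).1.exists_sum (blks R)
  obtain ⟨N, -, hN⟩ := H.1.bounded Q
  refine ⟨deg M g - ((b + N).toNat : ℤ) * L, fun k hk l => ?_⟩
  have h1 : (Model.act hM H k).1.V (b + N) Q :=
    Heart.Lv.ind (R := fun Y => (Model.act hM H k).1.V (b + N) Y) Heart.Lv.zero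
      (fun x n hn => ((Heart.V_sh n).2 ((hQ₀.V_iff _ _).1 hk x
        (mem_blks.2 (Finset.mem_univ _)))).mono (by omega))
      (fun A Y B hE hA hB => Heart.Lv.ext hA hB hE) hN
  have := hL g Q hQ (b + N).toNat k l (h1.mono (by omega))
  omega

/-- Block TERM. -/
theorem term {hM : Small M} {H : Md.GH} (hS : HSys hM H) (hfin : ∀ F : Sys M, F.FinStmt)
    {Q₀ : Md.D.Obj} (hQ₀ : H.1.IsSum (blks Finset.univ) Q₀) (b : ℤ) {F : Sys M}
    (hX : F.X = {g | (Model.act hM H g).1.V 0 (Md.D.sh (-b) Q₀)}) : F.Term := by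
  intro R hR g _
  obtain ⟨m, hm⟩ := term_V hS hfin hQ₀ b hR g
  refine ⟨m, fun k hk l => hm k ?_ l⟩
  rw [hX] at hk
  have := Heart.V_sh (H := (Model.act hM H k).1) (a := b) (-b) (Y := Q₀)
  rw [add_neg_cancel] at this
  exact this.1 hk

end Pool.Agent.HT.FS
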