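import Pool.Agent.Lib.HT.FS.HSys
import Pool.Agent.Lib.HT.FS.Glue

set_option autoImplicit false
set_option linter.unusedSectionVars false

/-! Termination of downward moves in spherical parabolic subgroups. -/

namespace Pool.Agent.HT.FS.T54

open Pool.Agent.Lib.MP_6d85b4_al Pool.Agent.HT.Model Pool.Agent.HT.Gr

variable {S : Type} [Fintype S] [DecidableEq S] {M : CoxeterMatrix S}
  {Md : Model (fun s t => M s t)} {hM : Small M} {H H₀ : Md.GH} {R : Finset S} {Q : Md.D.Obj}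

lemma dr_le {k g : Art M} (h : Le R k g) (Y : Md.D.Obj) :
    (act hM H g).1.DR (blks R) Y ↔ (act hM H k).1.DR (blks R) Y :=
  h.ind (P := fun g => (act hM H g).1.DR (blks R) Y ↔ (act hM H k).1.DR (blks R) Y) Iff.rfl
    (fun g s hs _ ih => by rw [act_mul, DR_gen hM _ hs, ih])

lemma U_le {k g : Art M} (h : Le R k g) {a : ℤ} (hg : (act hM H g).1.U a Q) :
    (act hM H k).1.U a Q :=
  h.down (X := {g | (act hM H g).1.U a Q}) (fun g hg s =>
    (iv_act_gen hM H _ s).unit.lo' a Q (by simpa using hg)) hg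

lemma V_le {k g : Art M} (h : Le R k g) {a : ℤ} (hk : (act hM H k).1.V a Q) :
    (act hM H g).1.V a Q :=
  h.up (X := {g | (act hM H g).1.V a Q}) (fun g hg s => (iv_act_gen hM H _ s).unit.Vlo a Q hg) hk

lemma claim (hF : ∀ F : Sys M, F.FinStmt) (hR : Sph M R) (hQ : H₀.1.IsSum (blks R) Q) :
    ∃ L : ℤ, ∀ (N : ℕ) (k g : Art M), Le R k g →
      (∀ Y, (act hM H k).1.DR (blks R) Y ↔ H₀.1.DR (blks R) Y) →
      (act hM H k).1.V N Q → (act hM H g).1.U 0 Q → deg M g - deg M k ≤ N * L := by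
  have fin : Finite (Core.WL M R) := sph_finite hR
  obtain ⟨w, hw, hl⟩ := Core.longest fin
  obtain ⟨m, hm⟩ := Finite.exists_max fun u : Core.WL M R => M.toCoxeterSystem.length u
  refine ⟨M.toCoxeterSystem.length m, fun N => ?_⟩
  induction N with
  | zero =>
    intro k g h hD hV hU
    rcases h.cases with rfl | ⟨s, hs, h1⟩
    · simp
    · refine (noedge hM hQ (fun Y hY => (hD Y).1 ((dr_le h1 Y).1 hY)) hs (V_le h1 hV) ?_).elim
      rw [← act_mul]; simpa using hU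
  | succ N ih =>
    intro k g h hD hV hU
    obtain ⟨F, e1, e2, hL⟩ := exists_sys hM H (fun n hn => hQ.hom_neg (-(N + 1)) hn)
      (fun e Z hZ => H₀.2.sum_Phi hQ (-(N + 1)) e hZ)
    have k0 : ∀ a, a ∈ F.X ↔ (act hM H a).1.V (N + 1) Q := fun a => by
      rw [e1, ← Heart.V_sh (-(N + 1)), add_neg_cancel]; rfl
    have k1 : ∀ a, a ∈ F.X' ↔ (act hM H a).1.V N Q := fun a => by
      rw [e2, ← Heart.V_sh (-(N + 1)), show (N : ℤ) + -(N + 1) = -1 by ring]; rfl
    have k2 : ∀ a, (act hM H a).1.U (-(N + 1)) (Md.D.sh (-(N + 1)) Q) ↔ (act hM H a).1.U 0 Q :=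
      fun a => by rw [← Heart.U_sh (a := 0) (-(N + 1)), zero_add]
    have hk : k ∈ F.X := (k0 k).2 (by exact_mod_cast hV)
    have up : ∀ a, Le R k a → ∃ w ∈ Core.WL M R, a * tau M w ∈ F.X' := fun a ha => by
      refine ⟨w⁻¹, inv_mem hw, (k1 _).2 ?_⟩
      have i := iv_act hM H a w⁻¹
      simpa using V_step hM i.unit i.L (fun s hs => Par.ld_iff_neg.2 (by simpa using hl s hs))
        ((dr_le ha Q).2 ((hD Q).2 hQ.DR)) ((k0 a).1 (ha.up F.upX hk))
    obtain ⟨u, hu, u', hu', f1, f2, f3⟩ := (hF F).retract R k g hk h up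
    have lo := (hF F).lo _ (hL (-(N + 1)) (by omega))
    have g1 := lo g (h.up F.upX hk) ((k2 g).2 hU) (let ⟨w, _, c⟩ := up g h; ⟨w, c⟩)
    have g2 := lo k hk ((k2 k).2 (U_le h hU)) (let ⟨w, _, c⟩ := up k (Le.refl k); ⟨w, c⟩)
    have := ih _ _ f3 (fun Y => by rw [f1, dr_le (le_tau hu k), hD]) ((k1 _).1 g2.1)
      ((k2 _).1 g1.2)
    rw [f1, f2, deg_mul, deg_mul, deg_tau, deg_tau] at this
    have b : (M.toCoxeterSystem.length u : ℤ) ≤ M.toCoxeterSystem.length m := by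
      exact_mod_cast hm ⟨u, hu⟩
    push_cast
    linarith [Int.natCast_nonneg (M.toCoxeterSystem.length u')]

theorem termC (hF : ∀ (S : Type) [Fintype S] [DecidableEq S] (M : CoxeterMatrix S) (F : Sys M),
    F.FinStmt) : TermC := by
  intro S _ _ M hM Md H Q b F hQ e R hR g hg
  obtain ⟨Q', hQ'⟩ := (act hM H g).1.exists_sum (blks R)
  obtain ⟨L, hL⟩ := claim (hM := hM) (H := H) (hF S M) hR hQ'
  obtain ⟨N, -, hN⟩ := H.1.bounded Q'
  refine ⟨deg M g - (N + b).toNat * L, fun k hk h => ?_⟩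
  have hV : (act hM H k).1.V b Q := by
    rw [e] at hk
    rw [← Heart.V_sh (-b), add_neg_cancel]; exact hk
  have h1 : (act hM H k).1.V (N + b) Q' :=
    Heart.Lv.ind (R := fun Y => (act hM H k).1.V (N + b) Y) Heart.Lv.zero
      (fun x n hn => ((Heart.V_sh n).2 ((hQ.V_iff _ _).1 hV x
        (mem_blks.2 (Finset.mem_univ _)))).mono (by omega))
      (fun A Y B hE hA hB => Heart.Lv.ext hA hB hE) hN
  have := hL (N + b).toNat k g h (fun Y => (dr_le h Y).symm) (h1.mono (by omega))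
    (Heart.M_iff.1 hQ'.mem).1
  omega

end Pool.Agent.HT.FS.T54
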