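import Pool.Agent.Lib.HT.Unit

set_option autoImplicit false
set_option linter.unusedSectionVars false

/-! Comparison of two hearts of a unit interval which differ by the reflection in an orthogonal
family of simples. -/

namespace Pool.Agent.HT

universe u

variable {K : Type} [AddCommGroup K]

namespace Heart

variable {D : TD.{u} K} {ι : Type} [Fintype ι] [DecidableEq ι] {H H₁ H₂ : Heart D ι}
  {R : Finset ι}

/-- Objects filtered by the simples in `R`. -/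
def AR (H : Heart D ι) (R : Finset ι) (A : D.Obj) : Prop := H.Lv (fun i n => i ∈ R ∧ n = 0) A

lemma AR.M {A : D.Obj} (h : H.AR R A) : H.M A := Lv.mono (fun _ _ h => h.2) h

lemma AR.simple {i : ι} (hi : i ∈ R) : H.AR R (H.S i) := by
  simpa [AR] using Lv.simple (H := H) (P := fun i n => i ∈ R ∧ n = 0) (i := i) (n := 0) ⟨hi, rfl⟩

lemma AR.hom_left {A W : D.Obj} (h : H.AR R A) (h0 : ∀ i ∈ R, D.hom (H.S i) W = 0) :
    D.hom A W = 0 :=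
  Lv.hom_left (P := fun i n => i ∈ R ∧ n = 0) (by rintro i n ⟨hi, rfl⟩; simpa using h0 i hi) h

lemma AR.hom_right {A W : D.Obj} (h : H.AR R A) (h0 : ∀ i ∈ R, D.hom W (H.S i) = 0) :
    D.hom W A = 0 :=
  Lv.hom_right (P := fun i n => i ∈ R ∧ n = 0) (by rintro i n ⟨hi, rfl⟩; simpa using h0 i hi) h

lemma AR.ext_right {A W : D.Obj} (h : H.AR R A) (h0 : ∀ i ∈ R, D.hom W (D.s (H.S i)) = 0) :
    D.hom W (D.s A) = 0 := by
  rw [ext_symm D]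
  exact h.hom_left fun i hi => by rw [ext_symm D]; exact h0 i hi

lemma AR.mul {A : D.Obj} (h : H.AR R A) {i : ι} (hi : i ∉ R) : H.mul A i = 0 := by
  refine Lv.ind (R := fun Y => H.mul Y i = 0) (mul_zero i) ?_ ?_ h
  · rintro j n ⟨hj, rfl⟩
    rw [D.sh_zero]
    exact mul_ne (fun e => hi (e ▸ hj))
  · intro A Y B hE hA hB
    rw [mul_ext hE, hA, hB]; rfl

lemma M.AR {A : D.Obj} (h : H.M A) (h0 : ∀ i, i ∉ R → H.mul A i ≤ 0) : H.AR R A :=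
  Lv.mono (fun i _ hi => ⟨by by_contra hc; have := h0 i hc; omega, hi.1⟩) h.supp

lemma AR.sub {A Y B : D.Obj} (h : H.AR R Y) (hA : H.M A) (hB : H.M B) (hE : D.Ext A Y B) :
    H.AR R A := hA.AR fun i hi => by
  have h1 := mul_ext (H := H) hE i
  have := h.mul hi
  have := hB.mul_nonneg i
  omega

lemma AR.quot {A Y B : D.Obj} (h : H.AR R Y) (hA : H.M A) (hB : H.M B) (hE : D.Ext A Y B) :
    H.AR R B := hB.AR fun i hi => by
  have h1 := mul_ext (H := H) hE i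
  have := h.mul hi
  have := hA.mul_nonneg i
  omega

lemma AR.le {A : D.Obj} (h : H.AR R A) {H' : Heart D ι} (h0 : ∀ i ∈ R, H'.M (H.S i)) :
    H'.M A :=
  Lv.ind (R := H'.M) Lv.zero (by rintro i n ⟨hi, rfl⟩; simpa using h0 i hi)
    (fun _ _ _ hE hA hB => Lv.ext hA hB hE) h

lemma M.socR {Y : D.Obj} (h : H.M Y) (R : Finset ι) :
    ∃ A B, H.AR R A ∧ H.M B ∧ (∀ i ∈ R, D.hom (H.S i) B = 0) ∧ D.Ext A Y B := by
  obtain ⟨A, B, h1, h2, h3, h4⟩ := M.torsion (T := H.AR R) Lv.zero (fun _ => AR.M)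
    (fun _ _ _ hN hI hE hA => hA.quot hN hI hE) (fun _ _ _ hE hA hB => Lv.ext hA hB hE) h
  exact ⟨A, B, h1, h2, fun i hi => h3 _ (AR.simple hi), h4⟩

lemma M.topR {Y : D.Obj} (h : H.M Y) (R : Finset ι) :
    ∃ A B, H.M A ∧ H.AR R B ∧ (∀ i ∈ R, D.hom A (H.S i) = 0) ∧ D.Ext A Y B := by
  obtain ⟨A, B, h1, h2, h3, h4⟩ := M.torsionFree (F := H.AR R) Lv.zero (fun _ => AR.M)
    (fun _ _ _ hN hI hE hA => hA.sub hN hI hE) (fun _ _ _ hE hA hB => Lv.ext hA hB hE) h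
  exact ⟨A, B, h1, h2, fun i hi => h3 _ (AR.simple hi), h4⟩

/-- Universal extension with kernel in the family. -/
lemma Orth.ue (h : H.Orth R) (B : D.Obj) :
    ∃ A G, H.AR R A ∧ D.Ext A G B ∧ ∀ i ∈ R, D.hom G (D.s (H.S i)) = 0 := by
  induction hn : ∑ i ∈ R, D.hom B (D.s (H.S i)) using Nat.strong_induction_on generalizing B with
  | _ n ih =>
    by_cases hc : ∀ i ∈ R, D.hom B (D.s (H.S i)) = 0
    · exact ⟨D.zero, B, Lv.zero, D.ext_zero _, hc⟩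
    · push Not at hc
      obtain ⟨j, hj, hc⟩ := hc
      obtain ⟨Y, hY, -, -, -, h4⟩ := D.cone _ _ hc
      have h6 : ∑ i ∈ R, D.hom Y (D.s (H.S i)) < n := by
        rw [← hn]
        refine Finset.sum_lt_sum (fun i hi => ?_) ⟨j, hj, ?_⟩
        · have := D.les' (D.s (H.S i)) hY
          rw [h j hj i hi] at this; omega
        · rw [H.rig] at h4; omega
      obtain ⟨A, Z, hA, hZ, h8⟩ := ih _ h6 Y rfl
      obtain ⟨F, h9, h10⟩ := D.assoc' hZ hY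
      exact ⟨F, Z, Lv.ext hA (AR.simple hj) h9, h10, h8⟩

/-- Universal extension with quotient in the family. -/
lemma Orth.ue' (h : H.Orth R) (B : D.Obj) :
    ∃ G A, H.AR R A ∧ D.Ext B G A ∧ ∀ i ∈ R, D.hom G (D.s (H.S i)) = 0 := by
  induction hn : ∑ i ∈ R, D.hom (H.S i) (D.s B) using Nat.strong_induction_on generalizing B with
  | _ n ih =>
    by_cases hc : ∀ i ∈ R, D.hom (H.S i) (D.s B) = 0
    · exact ⟨B, D.zero, Lv.zero, D.ext_zero_right _, fun i hi => by rw [ext_symm D, hc i hi]⟩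
    · push Not at hc
      obtain ⟨j, hj, hc⟩ := hc
      obtain ⟨Y, hY, -, h4, -, -⟩ := D.cone _ _ hc
      have h6 : ∑ i ∈ R, D.hom (H.S i) (D.s Y) < n := by
        rw [← hn]
        refine Finset.sum_lt_sum (fun i hi => ?_) ⟨j, hj, ?_⟩
        · have := D.les (H.S i) _ _ _ (D.ext_s.2 hY)
          rw [h i hi j hj] at this; omega
        · rw [H.rig] at h4; omega
      obtain ⟨Z, A, hA, hZ, h8⟩ := ih _ h6 Y rfl
      obtain ⟨F, h9, h10⟩ := D.assoc _ _ _ _ _ hZ hY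
      exact ⟨Z, F, Lv.ext (AR.simple hj) hA h10, h9, h8⟩

lemma Orth.hom_symm (h : H.Orth R) {A : D.Obj} (hA : H.AR R A) {i : ι} (hi : i ∈ R) :
    D.hom A (H.S i) = D.hom (H.S i) A := by
  have h1 := hA.M.euler (M.simple H i)
  rw [h.hom_R hA, H.cl_S, h.form_sum _ hi, hA.hom_left fun j hj => h j hj i hi] at h1
  omega

/-- The classes of the two reductions of an object without extensions with the family. -/
lemma Orth.cl_refl (h : H.Orth R) {G X A₁ A₂ X' : D.Obj} (hX : H.M X) (hX' : H.M X')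
    (h₁ : H.AR R A₁) (h₂ : H.AR R A₂) (e₁ : D.Ext X G A₁) (e₂ : D.Ext A₂ G X')
    (hG : ∀ i ∈ R, D.hom G (D.s (H.S i)) = 0) (z : ∀ i ∈ R, D.hom X (H.S i) = 0)
    (z' : ∀ i ∈ R, D.hom (H.S i) X' = 0) : D.cl X = H.refl R (D.cl X') := by
  have hM : H.M G := Lv.ext hX h₁.M e₁
  have c₁ := D.cl_ext _ _ _ e₁
  have c₂ := D.cl_ext _ _ _ e₂
  have f : ∀ i ∈ R, D.form (D.cl X') (H.b i) =
      (D.hom (H.S i) A₁ : ℤ) - (D.hom (H.S i) A₂ : ℤ) := by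
    intro i hi
    have a1 := hM.euler (M.simple H i)
    have a2 := D.les' (H.S i) e₁
    have a3 := hX.hom_quot (M.simple H i) e₁
    have a4 := D.les (H.S i) _ _ _ e₂
    have a5 := hX'.hom_sub (M.simple H i) e₂
    have a6 := h.hom_symm h₁ hi
    rw [c₂, map_add, AddMonoidHom.add_apply, h.hom_R h₂, H.cl_S, h.form_sum _ hi, hG i hi] at a1
    have := z i hi
    have := z' i hi
    omega
  rw [refl_apply, Finset.sum_congr rfl (fun i hi => by rw [f i hi, sub_smul]),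
    Finset.sum_sub_distrib, ← h.hom_R h₁, ← h.hom_R h₂]
  rw [c₁] at c₂
  rw [← sub_add, sub_add_eq_add_sub, add_comm, ← c₂, add_sub_cancel_right]

/-- Two hearts of the unit interval above `H` which differ by the reflection in `R`. -/
structure Tw (H : Heart D ι) (R : Finset ι) (H₁ H₂ : Heart D ι) : Prop where
  orth : H.Orth R
  u₁ : H.Unit H₁
  u₂ : H.Unit H₂
  b : ∀ i, H₂.b i = H.refl R (H₁.b i)
  m₁ : ∀ i ∈ R, H₁.M (H.S i)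
  m₂ : ∀ i ∈ R, H₂.M (D.sh 1 (H.S i))

lemma len_sh_one (H : Heart D ι) (Y : D.Obj) : H.len (D.sh 1 Y) = - H.len Y := by
  simp [len, mul, D.sh_one, D.cl_s]

lemma Tw.len (t : H.Tw R H₁ H₂) {X X' : D.Obj} (h : D.cl X = H.refl R (D.cl X')) :
    H₂.len X = H₁.len X' := by
  refine Finset.sum_congr rfl fun i _ => ?_
  have e : (H₂.b.repr.toLinearMap ∘ₗ H.refl R) = H₁.b.repr.toLinearMap :=
    H₁.b.ext fun j => by simp [← t.b]
  have e' : H₂.b.repr (H.refl R (D.cl X')) = H₁.b.repr (D.cl X') := LinearMap.congr_fun e (D.cl X')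
  rw [mul, mul, h, e']

lemma V_of_sh {X : D.Obj} (h : H.M (D.sh 1 X)) : H.V (-1) X := by
  simpa using (V_sh (-1)).2 (M_iff.1 h).2

lemma Tw.hom_S (t : H.Tw R H₁ H₂) {X : D.Obj} (hX : H₂.M X) {i : ι} (hi : i ∈ R) :
    D.hom X (H.S i) = 0 := hom_U_V (by omega) (M_iff.1 hX).1 (V_of_sh (t.m₂ i hi))

lemma Tw.S_hom (t : H.Tw R H₁ H₂) {X : D.Obj} (hX : H₁.M (D.sh 1 X)) {i : ι} (hi : i ∈ R) :
    D.hom (H.S i) X = 0 := hom_U_V (by omega) (M_iff.1 (t.m₁ i hi)).1 (V_of_sh hX)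

/-- Transport of the torsion class. -/
theorem Tw.tt (t : H.Tw R H₁ H₂) {X G A₁ : D.Obj} (e : D.Ext X G A₁) (h₁ : H.AR R A₁)
    (hG : ∀ i ∈ R, D.hom G (D.s (H.S i)) = 0) (hX : H.M X) (hX₂ : H₂.M X) : H₁.M G := by
  obtain ⟨A, Q, hA, hA₁, hQ, hQ₁, e₁⟩ := t.u₁.dec' (Lv.ext hX h₁.M e : H.M G)
  by_cases h0 : Q = D.zero
  · subst h0
    rwa [← D.eq_of_ext_zero_right e₁]
  exfalso
  obtain ⟨A', GQ, hA', e₂, hGQ⟩ := t.orth.ue Q
  obtain ⟨C, e₃, e₄⟩ := D.fac _ _ _ _ _ (hA'.ext_right hG) ((D.rot _ _ _).1 e₁)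
    ((D.rot _ _ _).1 e₂)
  obtain ⟨F, e₅, e₆⟩ := D.assoc _ _ _ _ _ ((D.rot _ _ _).2 e₃) e
  have hF : H.Lv (fun i n => (i ∈ R ∧ n = 0) ∨ n = 1) F := by
    refine Lv.ext (Lv.mono (fun _ _ => Or.inl) h₁) (Lv.ext (Lv.mono (fun _ _ => Or.inl) hA') ?_
      ((D.rot _ _ _).2 e₄)) e₆
    rw [← D.sh_one]
    exact Lv.sh 1 (fun _ _ h => Or.inr (by omega)) hA
  obtain ⟨F₁, F₀, hF₁, hF₀, e₇⟩ := hF.trunc 1
  have hF₀' : H.AR R F₀ := Lv.mono (fun _ _ h => h.1.resolve_right (by omega)) hF₀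
  have hF₁' : H.U 1 F₁ := Lv.mono (fun _ _ h => h.2) hF₁
  obtain ⟨I, e₈, e₉⟩ := D.assoc' e₅ e₇
  have hV : H.V 0 I := Lv.ext (Lv.sh (-1) (fun _ _ h => by omega) hF₀')
    (M_iff.1 (Lv.ext hA'.M hQ e₂ : H.M GQ)).2 (D.rot' e₉)
  have hI : H.M I := M_iff.2 ⟨Lv.ext (M_iff.1 hX).1 (hF₁'.mono (by omega)) e₈, hV⟩
  have hI₂ : H₂.M I := M_iff.2 ⟨Lv.ext (M_iff.1 hX₂).1 (t.u₂.hi _ hF₁') e₈, t.u₂.Vlo _ _ hV⟩
  have c := t.len (t.orth.cl_refl hI hQ hF₀' hA' e₉ e₂ hGQ (fun i hi => t.hom_S hI₂ hi)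
    (fun i hi => t.S_hom hQ₁ hi))
  have c₁ := hI₂.len_nonneg
  have c₂ := hQ₁.len_pos (fun h => h0 (D.sh_inj 1 (by rw [h, D.sh_zero_obj])))
  rw [len_sh_one] at c₂
  omega

lemma Unit.quot (u : H.Unit H₁) {A G B : D.Obj} (e : D.Ext A G B) (hA : H.M A) (hB : H.M B)
    (hG : H₁.M G) : H₁.M B :=
  M_iff.2 ⟨Lv.ext (M_iff.1 hG).1 (u.hi _ (by simpa using (U_sh 1).2 (M_iff.1 hA).1)) (D.rot1 e),
    u.Vlo _ _ (M_iff.1 hB).2⟩

/-- Transport of the torsion free class. -/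
theorem Tw.ff (t : H.Tw R H₁ H₂) {A₂ Z X' X A₁ : D.Obj} (e : D.Ext A₂ Z X') (e' : D.Ext X Z A₁)
    (h₂ : H.AR R A₂) (h₁ : H.AR R A₁) (hX' : H.M X') (z : ∀ i ∈ R, D.hom (H.S i) X' = 0)
    (hX₂ : H₂.M (D.sh 1 X)) : H₁.M (D.sh 1 X') := by
  obtain ⟨Q, B, hQ, hQ₁, hB, hB₁, e₁⟩ := t.u₁.dec' hX'
  obtain ⟨P, e₂, e₃⟩ := D.assoc' e e₁
  have hP : H.M P := Lv.ext h₂.M hQ e₂
  have hP₁ : H₁.M P := Lv.ext (h₂.le t.m₁) hQ₁ e₂
  obtain ⟨G, A₃, h₃, e₄, hG⟩ := t.orth.ue' P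
  have hGM : H.M G := Lv.ext hP h₃.M e₄
  obtain ⟨Y, A₄, hY, h₄, z₄, e₅⟩ := hP.topR R
  obtain ⟨F, e₆, e₇⟩ := D.assoc _ _ _ _ _ e₃ e₅
  obtain ⟨C, e₈, e₉⟩ := D.fac _ _ _ _ _ (h₁.hom_right z₄) e₆ e'
  have hC : H.V 0 C := Lv.ext (Lv.sh (-1) (fun _ _ h => by omega) h₁)
    (M_iff.1 (Lv.ext h₄.M hB e₇ : H.M F)).2 (D.rot' e₉)
  have hY₂ : H₂.M (D.sh 1 Y) := by
    refine M_iff.2 ⟨t.u₂.hi _ (by simpa using (U_sh 1).2 (M_iff.1 hY).1), ?_⟩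
    exact Lv.ext (t.u₂.Vlo _ _ hC) (M_iff.1 hX₂).2 (by rw [D.sh_one Y]; exact D.rot1 e₈)
  obtain ⟨A₅, f₁, f₂⟩ := D.assoc _ _ _ _ _ e₄ e₅
  obtain ⟨A₆, G', h₆, hG', z₆, f₃⟩ := hGM.socR R
  have hG₁ : H₁.M G' := t.u₁.quot f₃ h₆.M hG' (Lv.ext hP₁ (h₃.le t.m₁) e₄)
  have c := t.len (t.orth.cl_refl hY hG' (Lv.ext h₄ h₃ f₂) h₆ f₁ f₃ hG z₄ z₆)
  have c₁ := hY₂.len_nonneg
  rw [len_sh_one] at c₁
  have c₂ : G' = D.zero := by
    by_contra hc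
    have := hG₁.len_pos hc
    omega
  subst c₂
  rw [D.eq_of_ext_zero_right f₃] at h₆
  have c₃ := ((h₆.sub hP h₃.M e₄).quot h₂.M hQ e₂).hom_left z
  have c₄ := hB.hom_sub hQ e₁
  have c₅ : Q = D.zero := D.eq_zero _ (by omega)
  subst c₅
  rwa [D.eq_of_ext_zero _ _ e₁]

/-- The Euler form of a torsion object without socle in the family. -/
theorem Tw.form_eq (t : H.Tw R H₁ H₂) {N : D.Obj} (hN : H.M N) (hN₂ : H₂.M N) {i : ι} (hi : i ∈ R)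
    (z : D.hom (H.S i) N = 0) :
    D.form (D.cl N) (H.b i) = - (D.hom N (D.s (H.S i)) : ℤ) := by
  rw [← H.cl_S, hN.euler (M.simple H i), t.hom_S hN₂ hi, z]; simp

/-- A torsion decomposition whose torsion part is orthogonal to the family is common to both
hearts. -/
theorem Tw.dec (t : H.Tw R H₁ H₂) {N Y Q : D.Obj} (e : D.Ext N Y Q) (hN : H.M N) (hN₂ : H₂.M N)
    (hQ : H.M Q) (hQ₂ : H₂.M (D.sh 1 Q)) (z : ∀ i ∈ R, D.hom (H.S i) Y = 0)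
    (z' : ∀ i ∈ R, D.hom N (D.s (H.S i)) = 0) : H₁.M N ∧ H₁.M (D.sh 1 Q) := by
  refine ⟨t.tt (D.ext_zero_right N) Lv.zero z' hN hN₂,
    t.ff (D.ext_zero Q) (D.ext_zero_right Q) Lv.zero Lv.zero hQ (fun i hi => ?_) hQ₂⟩
  have h1 := D.les (H.S i) _ _ _ ((D.rot _ _ _).1 e)
  rw [z i hi, ext_symm D, z' i hi] at h1
  omega

lemma IsUp.AR_of {H' : Heart D ι} (h : H.IsUp R H') {X : D.Obj} (hX : H.M X)
    (hX' : H'.M (D.sh 1 X)) : H.AR R X := by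
  obtain ⟨A, B, hA, hB, z, e⟩ := hX.topR R
  have h1 : H'.U 0 A := (h.U_iff A).2 ⟨(M_iff.1 hA).1, z⟩
  have h2 : H'.V (-1) A := Lv.ext
    (h.V_le _ _ (by simpa using (V_sh (-1)).2 (M_iff.1 hB.M).2)) (V_of_sh hX') (D.rot' e)
  have h3 : A = D.zero := D.eq_zero _ (hom_U_V (by omega) h1 h2)
  subst h3
  rwa [D.eq_of_ext_zero _ _ e]

/-- Transport of a socle type. -/
theorem Tw.soc {H₁' H₂' : Heart D ι} {R' : Finset ι} (t : H.Tw R H₁ H₂) (t' : H.Tw R H₁' H₂')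
    (up : H₁.IsUp R' H₁') {Y N : D.Obj} (hY : H.M Y) (hY₂ : H₂.M Y) (hY' : H₂'.M (D.sh 1 Y))
    (z : ∀ i ∈ R, D.hom (H.S i) N = 0) (z' : ∀ i ∈ R, D.hom N (D.s (H.S i)) = 0)
    (h : D.hom Y N ≠ 0) : ∃ i ∈ R', D.hom (H₁.S i) N ≠ 0 := by
  obtain ⟨G, A₁, h₁, e, hG⟩ := t.orth.ue' Y
  obtain ⟨A₂, X, h₂, hX, z₂, e'⟩ := M.socR (Lv.ext hY h₁.M e : H.M G) R
  have hA := up.AR_of (t.u₁.quot e' h₂.M hX (t.tt e h₁ hG hY hY₂)) (t'.ff e' e h₂ h₁ hX z₂ hY')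
  by_contra hc
  push Not at hc
  have a1 := hA.hom_left hc
  have a2 := D.les' N e'
  have a3 := D.les' N (D.rot' e)
  have a4 := h₂.hom_left z
  have a5 : D.hom (D.sh (-1) A₁) N = 0 := by
    rw [D.hom_sh_left, neg_neg, D.sh_one, ext_symm D]
    exact h₁.ext_right z'
  omega

end Heart

end Pool.Agent.HT
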