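import Pool.Agent.Lib.HT.Comp
import Pool.Agent.Lib.HT.FS.Tau

set_option autoImplicit false
set_option linter.unusedSectionVars false

/-! Coxeter facts for step (U) of the flow. -/

namespace Pool.Agent.HT.UCox

open Pool.Agent.Lib.MP_6d85b4_al CoxeterSystem Tits

variable {S : Type} [Fintype S] [DecidableEq S] {M : CoxeterMatrix S} {R R' : Finset S}

theorem pos_sup {v : M.Group} (h : ∀ i ∈ R, ¬ M.toCoxeterSystem.IsRightDescent v i) {x : S → ℝ}
    (hx : Sup R x) (hp : Pos x) : Pos (rho M v x) := fun t =>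
  Ch.nonneg (M := M) (L := R) (th := LinearMap.proj t) (w := v)
    (fun s hs => pos_of_not_descent M v s (h s hs) t) hx hp

/-- lengths add along a coset of a shortest representative -/
theorem len_add {v u : M.Group} (h : ∀ i ∈ R, ¬ M.toCoxeterSystem.IsRightDescent v i)
    (hu : u ∈ W M R) :
    M.toCoxeterSystem.length (v * u) = M.toCoxeterSystem.length v + M.toCoxeterSystem.length u := by
  refine Core.ind (M := M) (L := R) (P := fun u => M.toCoxeterSystem.length (v * u) =
    M.toCoxeterSystem.length v + M.toCoxeterSystem.length u) (by simp) ?_ hu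
  intro w hw s hs hp ih
  have a : ¬ M.toCoxeterSystem.IsRightDescent w s := fun c => (desc_iff w s).1 c hp
  have b : ¬ M.toCoxeterSystem.IsRightDescent (v * w) s := fun c => (desc_iff _ s).1 c (by
    rw [rho_mul]; exact pos_sup h ((sup_al hs).act hw) hp)
  rw [← mul_assoc, M.toCoxeterSystem.not_isRightDescent_iff.1 a,
    M.toCoxeterSystem.not_isRightDescent_iff.1 b, ih, add_assoc]

theorem ld_mul {v u : M.Group} {j : S} (hj : M.toCoxeterSystem.IsLeftDescent v j)
    (h : M.toCoxeterSystem.length (v * u) =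
      M.toCoxeterSystem.length v + M.toCoxeterSystem.length u) :
    M.toCoxeterSystem.IsLeftDescent (v * u) j := by
  have a := M.toCoxeterSystem.length_mul_le (M.toCoxeterSystem.simple j * v) u
  unfold IsLeftDescent at hj ⊢
  rw [← mul_assoc]
  omega

theorem nrd_ld {v : M.Group} {i j : S} (hj : M.toCoxeterSystem.IsLeftDescent v j)
    (hi : ¬ M.toCoxeterSystem.IsRightDescent v i) :
    ¬ M.toCoxeterSystem.IsRightDescent (sm M j * v) i := fun c => by
  have a := M.toCoxeterSystem.not_isRightDescent_iff.1 hi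
  have b := (M.toCoxeterSystem.isLeftDescent_iff).1 hj
  have d := M.toCoxeterSystem.length_mul_le (sm M j) (sm M j * v * sm M i)
  rw [← mul_assoc, ← mul_assoc, simple_mul_simple_self, one_mul, length_simple] at d
  unfold IsRightDescent at c
  simp only [sm] at c d
  omega

theorem neg_ld {v : M.Group} {j : S} (hj : M.toCoxeterSystem.IsLeftDescent v j) :
    Pos (-rho M v⁻¹ (al j)) :=
  Core.neg_of_descent ((M.toCoxeterSystem.isRightDescent_inv_iff).2 hj)

/-- a negative root of `v⁻¹` supported on `R` gives a right descent of `v` in `R` -/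
theorem rd_of_sup {v : M.Group} {j : S} (hj : M.toCoxeterSystem.IsLeftDescent v j)
    (hs : Sup R (rho M v⁻¹ (al j))) : ∃ i ∈ R, M.toCoxeterSystem.IsRightDescent v i := by
  by_contra c
  push Not at c
  have := pos_sup c hs.neg (neg_ld hj) j
  rw [map_neg, rho_inv', Pi.neg_apply, al_self] at this
  linarith

/-- the form as a functional in the first variable -/
noncomputable def fL (M : CoxeterMatrix S) (a : S → ℝ) : (S → ℝ) →ₗ[ℝ] ℝ := ∑ i, a i • ip M i

theorem fL_apply (a x : S → ℝ) : fL M a x = bf M x a := by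
  rw [bf_symm]
  simp [fL, bf, LinearMap.sum_apply]

theorem up_word {X : Set (Art M)} (a1 : ∀ g ∈ X, ∀ s, g * gen M s ∈ X) (l : List S) :
    ∀ g ∈ X, g * (l.map (gen M)).prod ∈ X := by
  induction l with
  | nil => simp
  | cons s l ih =>
    intro g hg
    rw [List.map_cons, List.prod_cons, ← mul_assoc]
    exact ih _ (a1 g hg s)

theorem up_tau {X : Set (Art M)} (a1 : ∀ g ∈ X, ∀ s, g * gen M s ∈ X) {g : Art M} (hg : g ∈ X)
    (w : M.Group) : g * tau M w ∈ X := up_word a1 _ g hg

/-- the longest way down inside `X` -/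
theorem longest {X : Set (Art M)} (a1 : ∀ g ∈ X, ∀ s, g * gen M s ∈ X) (hf : Finite (W M R'))
    {g : Art M} (hg : g ∈ X) :
    ∃ v ∈ W M R', ∃ h ∈ X, g = h * tau M v ∧
      (∀ i, g * (gen M i)⁻¹ ∉ X → ¬ M.toCoxeterSystem.IsRightDescent v i) ∧
      ∀ j ∈ R', h * (gen M j)⁻¹ ∈ X → M.toCoxeterSystem.IsLeftDescent v j := by
  have fin : {v : M.Group | v ∈ W M R' ∧ g * (tau M v)⁻¹ ∈ X}.Finite :=
    (Set.toFinite (W M R' : Set M.Group)).subset fun v hv => hv.1
  obtain ⟨v, ⟨hv, hX⟩, mx⟩ := Set.exists_max_image _ M.toCoxeterSystem.length fin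
    ⟨1, one_mem _, by simpa [tau_one] using hg⟩
  refine ⟨v, hv, _, hX, by simp, fun i hi c => hi ?_, fun j hj hh => ?_⟩
  · have := up_tau a1 hX (v * M.toCoxeterSystem.simple i)
    rwa [tau_rightDescent c, mul_inv_rev, ← mul_assoc, inv_mul_cancel_right] at this
  · by_contra c
    have := mx (sm M j * v) ⟨mul_mem (sm_mem hj) hv, by
      rwa [tau_simple_mul c, mul_inv_rev, ← mul_assoc]⟩
    rw [M.toCoxeterSystem.not_isLeftDescent_iff.1 c] at this
    omega

/-- the root `a_j^h` in the frame of `h * tau v` -/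
theorem root_frame (h : Art M) (v : M.Group) (j : S) :
    rho M (pr M h) (al j) = rho M (pr M (h * tau M v)) (rho M v⁻¹ (al j)) := by
  rw [map_mul, pr_tau, rho_mul, rho_inv']

theorem bf_frame (w : M.Group) (p x : S → ℝ) :
    bf M p (rho M w x) = ∑ s, x s * bf M p (rho M w (al s)) := by
  have := th_sum (fL M p) w x
  simp only [fL_apply] at this
  simpa only [bf_symm M p] using this

/-- sign of the pairing of `p` with the wall `a_j^h` -/
theorem wall_le {v w : M.Group} (hv : v ∈ W M R') {j : S} (hj : j ∈ R')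
    (hl : M.toCoxeterSystem.IsLeftDescent v j) {p : S → ℝ}
    (hs : ∀ i ∈ R', 0 ≤ bf M p (rho M w (al i))) (s : S) :
    rho M v⁻¹ (al j) s * bf M p (rho M w (al s)) ≤ 0 := by
  by_cases e : s ∈ R'
  · exact mul_nonpos_of_nonpos_of_nonneg (by simpa using neg_ld hl s) (hs s e)
  · rw [(sup_al hj).act (inv_mem hv) s e, zero_mul]

theorem perp_sup {w : M.Group} {p x : S → ℝ} (h : ∀ i ∈ R, bf M p (rho M w (al i)) = 0)
    (hx : Sup R x) : bf M p (rho M w x) = 0 := by
  rw [bf_frame]
  refine Finset.sum_eq_zero fun s _ => ?_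
  by_cases e : s ∈ R
  · rw [h s e, mul_zero]
  · rw [hx s e, zero_mul]

theorem perp_mul {w u : M.Group} {p : S → ℝ} (h : ∀ i ∈ R, bf M p (rho M w (al i)) = 0)
    (hu : u ∈ W M R) : ∀ i ∈ R, bf M p (rho M (w * u) (al i)) = 0 := fun i hi => by
  rw [rho_mul]
  exact perp_sup h ((sup_al hi).act hu)

end Pool.Agent.HT.UCox
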